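import Mathlib

/-!
# Real hyperplane arrangements and their tope graphs
-/

set_option autoImplicit false

namespace Pool.Agent.R142.Arr

/-- `A` is an arrangement: a finite set of linear hyperplanes in `ℝ^d`. -/
def IsArrangement {d : ℕ} (A : Finset (Submodule ℝ (Fin d → ℝ))) : Prop :=
  ∀ H ∈ A, Module.finrank ℝ H + 1 = d

/-- The rank of an arrangement: the codimension of the intersection of its hyperplanes. -/
noncomputable def rank {d : ℕ} (A : Finset (Submodule ℝ (Fin d → ℝ))) : ℕ :=
  d - Module.finrank ℝ (⨅ H ∈ A, H : Submodule ℝ (Fin d → ℝ))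

/-- The complement of the union of the hyperplanes. -/
abbrev Complement {d : ℕ} (A : Finset (Submodule ℝ (Fin d → ℝ))) : Type :=
  {x : Fin d → ℝ // ∀ H ∈ A, x ∉ H}

/-- The chambers: the connected components of the complement. -/
abbrev Chamber {d : ℕ} (A : Finset (Submodule ℝ (Fin d → ℝ))) : Type :=
  ConnectedComponents (Complement A)

/-- The hyperplane `H` separates the chambers `C` and `D`: every segment from a point of `C` to a
point of `D` meets `H`. -/
def Separates {d : ℕ} (A : Finset (Submodule ℝ (Fin d → ℝ))) (H : Submodule ℝ (Fin d → ℝ))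
    (C D : Chamber A) : Prop :=
  ∀ x y : Complement A, (x : ConnectedComponents (Complement A)) = C →
    (y : ConnectedComponents (Complement A)) = D → ∃ z ∈ segment ℝ x.1 y.1, z ∈ H

/-- The tope graph: two chambers are adjacent when exactly one hyperplane separates them. -/
def topeGraph {d : ℕ} (A : Finset (Submodule ℝ (Fin d → ℝ))) : SimpleGraph (Chamber A) where
  Adj C D := ∃! H, H ∈ A ∧ Separates A H C D
  symm := ⟨by
    have key : ∀ H C D, Separates A H C D → Separates A H D C := by
      intro H C D h x y hx hy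
      rw [segment_symm]
      exact h y x hy hx
    rintro C D ⟨H, ⟨h1, h2⟩, h3⟩
    exact ⟨H, ⟨h1, key H C D h2⟩, fun H' h' => h3 H' ⟨h'.1, key H' D C h'.2⟩⟩⟩
  loopless := ⟨by
    rintro C ⟨H, ⟨h1, h2⟩, -⟩
    obtain ⟨x, hx⟩ := ConnectedComponents.surjective_coe C
    obtain ⟨z, hz, hzH⟩ := h2 x x hx hx
    rw [segment_same, Set.mem_singleton_iff] at hz
    exact x.2 H h1 (hz ▸ hzH)⟩

section forms

variable {d : ℕ} {ι : Type} [Fintype ι] (f : ι → ((Fin d → ℝ) →ₗ[ℝ] ℝ))

open Classical in
/-- The arrangement of the kernels of the given linear forms. -/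
noncomputable def arr : Finset (Submodule ℝ (Fin d → ℝ)) :=
  Finset.univ.image fun i => LinearMap.ker (f i)

theorem mem_arr {H : Submodule ℝ (Fin d → ℝ)} : H ∈ arr f ↔ ∃ i, LinearMap.ker (f i) = H := by
  classical
  simp [arr]

theorem ne_zero (x : Complement (arr f)) (i : ι) : f i x.1 ≠ 0 := fun h =>
  x.2 _ ((mem_arr f).2 ⟨i, rfl⟩) (LinearMap.mem_ker.2 h)

/-- The signs of a point. -/
noncomputable def sg (x : Complement (arr f)) (i : ι) : Bool := decide (0 < f i x.1)

theorem sg_true {x : Complement (arr f)} {i : ι} : sg f x i = true ↔ 0 < f i x.1 := by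
  simp [sg]

theorem sg_false {x : Complement (arr f)} {i : ι} : sg f x i = false ↔ f i x.1 < 0 := by
  simp only [sg, decide_eq_false_iff_not, not_lt]
  exact ⟨fun h => lt_of_le_of_ne h (ne_zero f x i), le_of_lt⟩

theorem continuous_sg : Continuous (sg f) := by
  refine continuous_pi fun i => ?_
  have hc : Continuous fun x : Complement (arr f) => f i x.1 :=
    (LinearMap.continuous_of_finiteDimensional (f i)).comp continuous_subtype_val
  rw [continuous_discrete_rng]
  intro b
  cases b
  · have : (fun x => sg f x i) ⁻¹' {false} = {x | f i x.1 < 0} := by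
      ext x
      simp only [Set.mem_preimage, Set.mem_singleton_iff, Set.mem_ofPred_eq]
      exact sg_false f
    rw [this]
    exact isOpen_lt hc continuous_const
  · have : (fun x => sg f x i) ⁻¹' {true} = {x | 0 < f i x.1} := by
      ext x
      simp only [Set.mem_preimage, Set.mem_singleton_iff, Set.mem_ofPred_eq]
      exact sg_true f
    rw [this]
    exact isOpen_lt continuous_const hc

/-- The signs of a chamber. -/
noncomputable def sgC : Chamber (arr f) → ι → Bool := (continuous_sg f).connectedComponentsLift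

theorem sgC_coe (x : Complement (arr f)) :
    sgC f (x : ConnectedComponents (Complement (arr f))) = sg f x :=
  (continuous_sg f).connectedComponentsLift_apply_coe x

theorem seg_ne {x y : Complement (arr f)} {i : ι} (h : sg f x i = sg f y i) {a b : ℝ} (ha : 0 ≤ a)
    (hb : 0 ≤ b) (hab : a + b = 1) : f i (a • x.1 + b • y.1) ≠ 0 := by
  rw [map_add, map_smul, map_smul, smul_eq_mul, smul_eq_mul]
  have hpos : 0 < a ∨ 0 < b := by
    rcases ha.lt_or_eq with h | h
    · exact Or.inl h
    · right; linarith
  rcases hs : sg f x i with _ | _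
  · have h1 := (sg_false f).1 hs
    have h2 := (sg_false f).1 (h ▸ hs)
    rcases hpos with hp | hp
    · nlinarith [mul_pos hp (neg_pos.2 h1), mul_nonneg hb (neg_pos.2 h2).le]
    · nlinarith [mul_pos hp (neg_pos.2 h2), mul_nonneg ha (neg_pos.2 h1).le]
  · have h1 := (sg_true f).1 hs
    have h2 := (sg_true f).1 (h ▸ hs)
    rcases hpos with hp | hp
    · nlinarith [mul_pos hp h1, mul_nonneg hb h2.le]
    · nlinarith [mul_pos hp h2, mul_nonneg ha h1.le]

theorem coe_eq {x y : Complement (arr f)} (h : sg f x = sg f y) :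
    (x : ConnectedComponents (Complement (arr f))) = y := by
  let γ : Set.Icc (0 : ℝ) 1 → Complement (arr f) := fun t =>
    ⟨(1 - t.1) • x.1 + t.1 • y.1, by
      intro H hH
      obtain ⟨i, rfl⟩ := (mem_arr f).1 hH
      rw [LinearMap.mem_ker]
      exact seg_ne f (congrFun h i) (by linarith [t.2.2]) t.2.1 (by ring)⟩
  have hγ : Continuous γ := by
    refine Continuous.subtype_mk ?_ _
    exact ((continuous_const.sub continuous_subtype_val).smul continuous_const).add
      (continuous_subtype_val.smul continuous_const)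
  have hpre : IsPreconnected (Set.range γ) := isPreconnected_range hγ
  have h0 : x ∈ Set.range γ := ⟨⟨0, by norm_num, by norm_num⟩, by
    apply Subtype.ext
    simp [γ]⟩
  have h1 : y ∈ Set.range γ := ⟨⟨1, by norm_num, by norm_num⟩, by
    apply Subtype.ext
    simp [γ]⟩
  rw [ConnectedComponents.coe_eq_coe']
  exact hpre.subset_connectedComponent h1 h0

theorem sgC_injective : Function.Injective (sgC f) := by
  intro C D h
  obtain ⟨x, rfl⟩ := ConnectedComponents.surjective_coe C
  obtain ⟨y, rfl⟩ := ConnectedComponents.surjective_coe D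
  rw [sgC_coe, sgC_coe] at h
  exact coe_eq f h

theorem separates_iff (i : ι) (C D : Chamber (arr f)) :
    Separates (arr f) (LinearMap.ker (f i)) C D ↔ sgC f C i ≠ sgC f D i := by
  constructor
  · intro h heq
    obtain ⟨x, rfl⟩ := ConnectedComponents.surjective_coe C
    obtain ⟨y, rfl⟩ := ConnectedComponents.surjective_coe D
    rw [sgC_coe, sgC_coe] at heq
    obtain ⟨z, ⟨a, b, ha, hb, hab, rfl⟩, hz⟩ := h x y rfl rfl
    exact seg_ne f heq ha hb hab (LinearMap.mem_ker.1 hz)
  · intro h x y hx hy
    subst hx hy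
    rw [sgC_coe, sgC_coe] at h
    have hne : f i x.1 - f i y.1 ≠ 0 := by
      intro h0
      apply h
      have : f i x.1 = f i y.1 := by linarith
      simp only [sg, this]
    refine ⟨(-f i y.1 / (f i x.1 - f i y.1)) • x.1 + (f i x.1 / (f i x.1 - f i y.1)) • y.1,
      ⟨_, _, ?_, ?_, ?_, rfl⟩, ?_⟩
    · rcases hs : sg f x i with _ | _
      · have h1 := (sg_false f).1 hs
        have h2 : 0 < f i y.1 := (sg_true f).1 (by
          rcases hs' : sg f y i with _ | _
          · exact absurd (hs.trans hs'.symm) h
          · rfl)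
        exact div_nonneg_of_nonpos (by linarith) (by linarith)
      · have h1 := (sg_true f).1 hs
        have h2 : f i y.1 < 0 := (sg_false f).1 (by
          rcases hs' : sg f y i with _ | _
          · rfl
          · exact absurd (hs.trans hs'.symm) h)
        exact div_nonneg (by linarith) (by linarith)
    · rcases hs : sg f x i with _ | _
      · have h1 := (sg_false f).1 hs
        have h2 : 0 < f i y.1 := (sg_true f).1 (by
          rcases hs' : sg f y i with _ | _
          · exact absurd (hs.trans hs'.symm) h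
          · rfl)
        exact div_nonneg_of_nonpos (by linarith) (by linarith)
      · have h1 := (sg_true f).1 hs
        have h2 : f i y.1 < 0 := (sg_false f).1 (by
          rcases hs' : sg f y i with _ | _
          · rfl
          · exact absurd (hs.trans hs'.symm) h)
        exact div_nonneg (by linarith) (by linarith)
    · field_simp
      ring
    · rw [LinearMap.mem_ker, map_add, map_smul, map_smul, smul_eq_mul, smul_eq_mul]
      field_simp
      ring

theorem adj_iff (hinj : Function.Injective fun i => LinearMap.ker (f i)) (C D : Chamber (arr f)) :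
    (topeGraph (arr f)).Adj C D ↔ hammingDist (sgC f C) (sgC f D) = 1 := by
  have h1 : (topeGraph (arr f)).Adj C D ↔ ∃! i, sgC f C i ≠ sgC f D i := by
    constructor
    · rintro ⟨H, ⟨h1, h2⟩, h3⟩
      obtain ⟨i, rfl⟩ := (mem_arr f).1 h1
      refine ⟨i, (separates_iff f i C D).1 h2, fun j hj => ?_⟩
      exact hinj (h3 _ ⟨(mem_arr f).2 ⟨j, rfl⟩, (separates_iff f j C D).2 hj⟩)
    · rintro ⟨i, hi, huniq⟩
      refine ⟨LinearMap.ker (f i), ⟨(mem_arr f).2 ⟨i, rfl⟩, (separates_iff f i C D).2 hi⟩, ?_⟩
      rintro H ⟨h1, h2⟩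
      obtain ⟨j, rfl⟩ := (mem_arr f).1 h1
      rw [huniq j ((separates_iff f j C D).1 h2)]
  rw [h1, hammingDist, Finset.card_eq_one]
  constructor
  · rintro ⟨i, hi, huniq⟩
    refine ⟨i, ?_⟩
    ext j
    simp only [Finset.mem_filter, Finset.mem_univ, true_and, Finset.mem_singleton]
    exact ⟨fun h => huniq j h, fun h => h ▸ hi⟩
  · rintro ⟨i, hi⟩
    have h2 : ∀ j, sgC f C j ≠ sgC f D j ↔ j = i := fun j => by
      have := Finset.ext_iff.1 hi j
      simpa using this
    exact ⟨i, (h2 i).2 rfl, fun j hj => (h2 j).1 hj⟩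

theorem mem_range_iff (s : ι → Bool) : s ∈ Set.range (sgC f) ↔
    ∃ x : Fin d → ℝ, ∀ i, (s i = true → 0 < f i x) ∧ (s i = false → f i x < 0) := by
  constructor
  · rintro ⟨C, rfl⟩
    obtain ⟨x, rfl⟩ := ConnectedComponents.surjective_coe C
    rw [sgC_coe]
    exact ⟨x.1, fun i => ⟨(sg_true f).1, (sg_false f).1⟩⟩
  · rintro ⟨x, hx⟩
    have hne : ∀ H ∈ arr f, x ∉ H := by
      intro H hH hxH
      obtain ⟨i, rfl⟩ := (mem_arr f).1 hH
      rw [LinearMap.mem_ker] at hxH
      rcases hs : s i with _ | _
      · exact absurd hxH ((hx i).2 hs).ne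
      · exact absurd hxH ((hx i).1 hs).ne'
    refine ⟨((⟨x, hne⟩ : Complement (arr f)) : ConnectedComponents (Complement (arr f))), ?_⟩
    rw [sgC_coe]
    funext i
    rcases hs : s i with _ | _
    · exact (sg_false f).2 ((hx i).2 hs)
    · exact (sg_true f).2 ((hx i).1 hs)

end forms

/-- The path metric of a graph labelled by sign vectors. -/
theorem dist_eq {V ι : Type} [Fintype ι] (G : SimpleGraph V) (s : V → ι → Bool)
    (hinj : Function.Injective s) (hadj : ∀ a b, G.Adj a b ↔ hammingDist (s a) (s b) = 1)
    (hstep : ∀ a b, a ≠ b → ∃ c, hammingDist (s a) (s c) = 1 ∧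
      hammingDist (s c) (s b) + 1 = hammingDist (s a) (s b)) :
    ∀ a b, G.dist a b = hammingDist (s a) (s b) := by
  have hwalk : ∀ n a b, hammingDist (s a) (s b) = n → ∃ p : G.Walk a b, p.length = n := by
    intro n
    induction n with
    | zero =>
      intro a b h
      have : a = b := hinj (hammingDist_eq_zero.1 h)
      subst this
      exact ⟨SimpleGraph.Walk.nil, rfl⟩
    | succ n ih =>
      intro a b h
      have hne : a ≠ b := by
        rintro rfl
        rw [hammingDist_self] at h
        exact absurd h.symm (Nat.succ_ne_zero n)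
      obtain ⟨c, hc1, hc2⟩ := hstep a b hne
      obtain ⟨p, hp⟩ := ih c b (by omega)
      exact ⟨SimpleGraph.Walk.cons ((hadj a c).2 hc1) p, by
        rw [SimpleGraph.Walk.length_cons, hp]⟩
  have hlow : ∀ a b (p : G.Walk a b), hammingDist (s a) (s b) ≤ p.length := by
    intro a b p
    induction p with
    | nil => rw [hammingDist_self]; exact Nat.zero_le _
    | cons h p ih =>
      rw [SimpleGraph.Walk.length_cons]
      have h1 := (hadj _ _).1 h
      have h2 := hammingDist_triangle (s _) (s _) (s _) |>.trans (Nat.add_le_add h1.le ih)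
      omega
  intro a b
  obtain ⟨p, hp⟩ := hwalk _ a b rfl
  apply le_antisymm
  · rw [← hp]
    exact SimpleGraph.dist_le p
  · have hr : G.Reachable a b := ⟨p⟩
    obtain ⟨p', hp'⟩ := hr.exists_walk_length_eq_dist
    rw [← hp']
    exact hlow a b p'

end Pool.Agent.R142.Arr
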