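import Mathlib

/-!
# The self-dual binary code of length 22 and minimum distance 6
-/

set_option autoImplicit false

namespace Pool.Agent.R142.Code22

/-- the circulant matrix of the quadratic residues modulo 11 -/
def A (i j : ℕ) : Bool := Nat.testBit 570 ((j + 11 - i) % 11)

/-- recursive sum -/
def sm : ℕ → (ℕ → ℕ) → ℕ
  | 0, _ => 0
  | k + 1, F => sm k F + F k

theorem sm_eq (k : ℕ) (F : ℕ → ℕ) : sm k F = ∑ i : Fin k, F i := by
  rw [Fin.sum_univ_eq_sum_range]
  induction k with
  | zero => rfl
  | succ k ih => rw [sm, ih, Finset.sum_range_succ]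

theorem chk : ∀ n < 2048, n = 0 ∨ 6 ≤ sm 11 (fun i => n / 2 ^ i % 2) +
    sm 11 (fun j => sm 11 (fun i => if A i j then n / 2 ^ i % 2 else 0) % 2) := by
  decide +kernel

theorem bits (k : ℕ) : ∀ b : ℕ → ℕ, (∀ i, b i < 2) → ∃ n < 2 ^ k, ∀ i < k, n / 2 ^ i % 2 = b i := by
  induction k with
  | zero => intro b _; exact ⟨0, by norm_num, fun i hi => absurd hi (by omega)⟩
  | succ k ih =>
    intro b hb
    obtain ⟨n, hn, h⟩ := ih (fun i => b (i + 1)) (fun i => hb _)
    refine ⟨b 0 + 2 * n, ?_, ?_⟩
    · have := hb 0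
      rw [pow_succ]; omega
    · intro i hi
      cases i with
      | zero => have := hb 0; simp; omega
      | succ i =>
        have h1 := h i (by omega)
        have h0 := hb 0
        rw [pow_succ', ← Nat.div_div_eq_div_mul]
        have : (b 0 + 2 * n) / 2 = n := by omega
        rw [this, h1]

/-- The minimum distance of the code is at least 6, for integral vectors. -/
theorem code_bound (u : Fin 11 → ℤ) (h : ∃ i, u i % 2 ≠ 0) :
    6 ≤ ∑ i, (u i % 2).toNat +
      ∑ j : Fin 11, ((∑ i : Fin 11, (if A i j then 1 else 0) * u i) % 2).toNat := by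
  obtain ⟨n, hn, hbits⟩ := bits 11 (fun i => if hi : i < 11 then (u ⟨i, hi⟩ % 2).toNat else 0) (by
    intro i
    split_ifs
    · omega
    · norm_num)
  have hb : ∀ i : Fin 11, n / 2 ^ i.1 % 2 = (u i % 2).toNat := by
    intro i
    rw [hbits i.1 i.2, dif_pos i.2]
  have h1 := chk n hn
  rcases h1 with h1 | h1
  · exfalso
    obtain ⟨i, hi⟩ := h
    have := hb i
    rw [h1] at this
    simp at this
    omega
  · rw [sm_eq, sm_eq] at h1
    refine h1.trans (add_le_add (le_of_eq ?_) (le_of_eq ?_))
    · exact Finset.sum_congr rfl fun i _ => hb i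
    · refine Finset.sum_congr rfl fun j _ => ?_
      rw [sm_eq]
      have e1 : (∑ i : Fin 11, (if A i j then n / 2 ^ i.1 % 2 else 0)) =
          ∑ i : Fin 11, (if A i j then (u i % 2).toNat else 0) :=
        Finset.sum_congr rfl fun i _ => by rw [hb i]
      rw [e1]
      have e2 : ((∑ i : Fin 11, (if A i j then (u i % 2).toNat else 0) : ℕ) : ℤ) % 2 =
          (∑ i : Fin 11, (if A i j then 1 else 0) * u i) % 2 := by
        push_cast
        rw [Finset.sum_int_mod, Finset.sum_int_mod (f := fun i : Fin 11 => (if A i j then 1 else 0) * u i)]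
        congr 1
        refine Finset.sum_congr rfl fun i _ => ?_
        split_ifs
        · rw [one_mul, Int.toNat_of_nonneg (by omega)]
          omega
        · simp
      omega

end Pool.Agent.R142.Code22
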