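import Mathlib

/-!
# Magnitude homology of graphs
-/

set_option autoImplicit false

namespace Pool.Agent.R142.MagHom

variable {V : Type}

/-- The tuples `(x_0, ..., x_k)` with `x_{i-1} ≠ x_i` and total length `l`. -/
def Tuples (G : SimpleGraph V) (k l : ℕ) : Set (Fin (k + 1) → V) :=
  {x | (∀ i : Fin k, x i.castSucc ≠ x i.succ) ∧ ∑ i : Fin k, G.dist (x i.castSucc) (x i.succ) = l}

/-- The chain group `MC_{k,l}(G)`, inside the free abelian group on all tuples. -/
def MC (G : SimpleGraph V) (k l : ℕ) : Submodule ℤ ((Fin (k + 1) → V) →₀ ℤ) :=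
  Finsupp.supported ℤ ℤ (Tuples G k l)

open Classical in
/-- `∂_i` on a tuple `(x_0, ..., x_{k+1})`, for the interior index `i + 1` (`i < k`): it deletes
`x_{i+1}` if `d(x_i, x_{i+2}) = d(x_i, x_{i+1}) + d(x_{i+1}, x_{i+2})`, and is `0` otherwise. -/
noncomputable def face (G : SimpleGraph V) (k : ℕ) (x : Fin (k + 2) → V) (i : Fin k) :
    (Fin (k + 1) → V) →₀ ℤ :=
  if G.dist (x i.castSucc.castSucc) (x i.succ.succ) =
      G.dist (x i.castSucc.castSucc) (x i.succ.castSucc) +
        G.dist (x i.succ.castSucc) (x i.succ.succ) then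
    Finsupp.single (fun j => x (i.succ.castSucc.succAbove j)) 1
  else 0

/-- The differential from degree `k + 1` to degree `k`: the sum of `(-1)^i ∂_i` over the interior
indices `i = 1, ..., k`. -/
noncomputable def bd (G : SimpleGraph V) (k : ℕ) :
    ((Fin (k + 2) → V) →₀ ℤ) →ₗ[ℤ] ((Fin (k + 1) → V) →₀ ℤ) :=
  Finsupp.linearCombination ℤ fun x => ∑ i : Fin k, (-1 : ℤ) ^ (i.1 + 1) • face G k x i

/-- The cycles. -/
noncomputable def cyc (G : SimpleGraph V) : (k l : ℕ) → Submodule ℤ ((Fin (k + 1) → V) →₀ ℤ)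
  | 0, l => MC G 0 l
  | k + 1, l => MC G (k + 1) l ⊓ LinearMap.ker (bd G k)

/-- The boundaries. -/
noncomputable def bdry (G : SimpleGraph V) (k l : ℕ) : Submodule ℤ ((Fin (k + 1) → V) →₀ ℤ) :=
  (MC G (k + 1) l).map (bd G k)

/-- The magnitude homology group `MH_{k,l}(G)`. -/
abbrev MH (G : SimpleGraph V) (k l : ℕ) : Type :=
  cyc G k l ⧸ (bdry G k l).submoduleOf (cyc G k l)

/-- The magnitude Betti number. -/
noncomputable def beta (G : SimpleGraph V) (k l : ℕ) : ℕ := Module.finrank ℤ (MH G k l)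

theorem beta_zero_zero [Fintype V] (G : SimpleGraph V) : beta G 0 0 = Fintype.card V := by
  classical
  have h1 : bd G 0 = 0 := by
    ext x
    simp [bd]
  have h2 : cyc G 0 0 = ⊤ := by
    rw [cyc, MC]
    have : Tuples G 0 0 = Set.univ := by
      ext x
      simp [Tuples]
    rw [this, Finsupp.supported_univ]
  have h3 : (bdry G 0 0).submoduleOf (cyc G 0 0) = ⊥ := by
    rw [bdry, h1, Submodule.map_zero]
    exact Submodule.ker_subtype _
  rw [beta, (Submodule.quotEquivOfEqBot _ h3).finrank_eq, h2, finrank_top,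
    Module.finrank_finsupp_self, Fintype.card_fun]
  simp

theorem card_le_beta [Finite V] (G : SimpleGraph V) (k l : ℕ) {J : Type} [Fintype J] [DecidableEq J]
    (z : J → ((Fin (k + 1) → V) →₀ ℤ)) (hz : ∀ j, z j ∈ cyc G k l)
    (φ : J → (((Fin (k + 1) → V) →₀ ℤ) →ₗ[ℤ] ℤ)) (hφ : ∀ j, ∀ b ∈ bdry G k l, φ j b = 0)
    (hd : ∀ i j, φ i (z j) = if i = j then 1 else 0) : Fintype.card J ≤ beta G k l := by
  classical
  have := Fintype.ofFinite V
  let Φ : cyc G k l →ₗ[ℤ] (J → ℤ) := LinearMap.pi fun j => (φ j).comp (cyc G k l).subtype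
  have hle : (bdry G k l).submoduleOf (cyc G k l) ≤ LinearMap.ker Φ := by
    intro b hb
    rw [LinearMap.mem_ker]
    funext j
    exact hφ j b.1 hb
  let Ψ : MH G k l →ₗ[ℤ] (J → ℤ) := Submodule.liftQ _ Φ hle
  let v : J → MH G k l := fun j => Submodule.Quotient.mk ⟨z j, hz j⟩
  have hli : LinearIndependent ℤ v := by
    apply LinearIndependent.of_comp Ψ
    have : ⇑Ψ ∘ v = Pi.basisFun ℤ J := by
      funext j
      funext i
      simp only [Function.comp_apply, Pi.basisFun_apply, Pi.single_apply]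
      exact hd i j
    rw [this]
    exact (Pi.basisFun ℤ J).linearIndependent
  exact hli.fintype_card_le_finrank

theorem bd_single (G : SimpleGraph V) (k : ℕ) (x : Fin (k + 2) → V) :
    bd G k (Finsupp.single x 1) = ∑ i : Fin k, (-1 : ℤ) ^ (i.1 + 1) • face G k x i := by
  rw [bd, Finsupp.linearCombination_single, one_smul]

theorem vanish (G : SimpleGraph V) (k l : ℕ) (φ : ((Fin (k + 1) → V) →₀ ℤ) →ₗ[ℤ] ℤ)
    (h : ∀ x ∈ Tuples G (k + 1) l, φ (bd G k (Finsupp.single x 1)) = 0) :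
    ∀ b ∈ bdry G k l, φ b = 0 := by
  rintro b ⟨c, hc, rfl⟩
  have hc' : c ∈ Finsupp.supported ℤ ℤ (Tuples G (k + 1) l) := hc
  rw [Finsupp.supported_eq_span_single] at hc'
  clear hc
  induction hc' using Submodule.span_induction with
  | mem y hy =>
    obtain ⟨x, hx, rfl⟩ := hy
    exact h x hx
  | zero => simp
  | add y z _ _ hy hz => rw [map_add, map_add, hy, hz, add_zero]
  | smul a y _ hy => rw [map_smul, map_smul, hy, smul_zero]

end Pool.Agent.R142.MagHom
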