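import Mathlib
import Pool.Agent.R142.Arr
import Pool.Agent.R142.MagHom

/-!
# An indecomposable arrangement of six hyperplanes in `ℝ⁴` with 42 chambers
-/

set_option autoImplicit false

namespace Pool.Agent.R142.Ex42

open Pool.Agent.R142.Arr Pool.Agent.R142.MagHom

/-- Coefficients of the six linear forms
`x_0, x_1, -(x_0 + x_1), x_2, x_3, -(x_0 + x_2 + x_3)`. -/
def coef : Fin 6 → Fin 4 → ℤ :=
  ![![1, 0, 0, 0], ![0, 1, 0, 0], ![-1, -1, 0, 0], ![0, 0, 1, 0], ![0, 0, 0, 1], ![-1, 0, -1, -1]]

/-- Values of the linear forms at integer points. -/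
def ev (i : Fin 6) (x : Fin 4 → ℤ) : ℤ := ∑ k, coef i k * x k

/-- The six linear forms. -/
noncomputable def f (i : Fin 6) : (Fin 4 → ℝ) →ₗ[ℝ] ℝ :=
  ∑ k, (coef i k : ℝ) • (LinearMap.proj k : (Fin 4 → ℝ) →ₗ[ℝ] ℝ)

theorem f_apply (i : Fin 6) (x : Fin 4 → ℝ) : f i x = ∑ k, (coef i k : ℝ) * x k := by
  simp [f]

theorem f_int (i : Fin 6) (x : Fin 4 → ℤ) : f i (fun k => (x k : ℝ)) = (ev i x : ℤ) := by
  rw [f_apply, ev]
  push_cast
  rfl

theorem f0 (x : Fin 4 → ℝ) : f 0 x = x 0 := by
  rw [f_apply]; simp [Fin.sum_univ_four, coef]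

theorem f1 (x : Fin 4 → ℝ) : f 1 x = x 1 := by
  rw [f_apply]; simp [Fin.sum_univ_four, coef]

theorem f2 (x : Fin 4 → ℝ) : f 2 x = -x 0 - x 1 := by
  rw [f_apply]; simp [Fin.sum_univ_four, coef]; ring

theorem f3 (x : Fin 4 → ℝ) : f 3 x = x 2 := by
  rw [f_apply]; simp [Fin.sum_univ_four, coef]

theorem f4 (x : Fin 4 → ℝ) : f 4 x = x 3 := by
  rw [f_apply]; simp [Fin.sum_univ_four, coef]

theorem f5 (x : Fin 4 → ℝ) : f 5 x = -x 0 - x 2 - x 3 := by
  rw [f_apply]; simp [Fin.sum_univ_four, coef]; ring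

/-- A point on exactly one of the hyperplanes. -/
def v : Fin 6 → Fin 4 → ℤ :=
  ![![0, 1, 1, 1], ![1, 0, 1, 1], ![1, -1, 1, 1], ![1, 1, 0, 1], ![1, 1, 1, 0], ![1, 1, 1, -2]]

theorem v_spec : ∀ i j, ev j (v i) = 0 ↔ i = j := by decide

theorem ker_inj : Function.Injective fun i => LinearMap.ker (f i) := by
  intro i j h
  have h1 : (fun k => (v i k : ℝ)) ∈ LinearMap.ker (f i) := by
    rw [LinearMap.mem_ker, f_int, (v_spec i i).2 rfl]
    simp
  have h' : LinearMap.ker (f i) = LinearMap.ker (f j) := h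
  rw [h', LinearMap.mem_ker, f_int] at h1
  exact (v_spec i j).1 (by exact_mod_cast h1)

theorem f_ne (i : Fin 6) : f i ≠ 0 := by
  intro h0
  have h1 : ∀ i : Fin 6, ∃ j : Fin 6, j ≠ i := by decide
  obtain ⟨j, hj⟩ := h1 i
  have h2 : f i (fun k => (v j k : ℝ)) = 0 := by rw [h0]; rfl
  rw [f_int] at h2
  exact hj ((v_spec j i).1 (by exact_mod_cast h2))

theorem isArrangement : IsArrangement (arr f) := by
  intro H hH
  obtain ⟨i, rfl⟩ := (mem_arr _).1 hH
  have h := Module.Dual.finrank_ker_add_one_of_ne_zero (f_ne i)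
  rw [h, Module.finrank_fin_fun]

theorem card_arr : (arr f).card = 6 := by
  rw [arr, Finset.card_image_of_injective _ ker_inj, Finset.card_univ]
  simp

theorem rank_arr : rank (arr f) = 4 := by
  have h : (⨅ H ∈ arr f, H : Submodule ℝ (Fin 4 → ℝ)) = ⊥ := by
    rw [eq_bot_iff]
    intro x hx
    have hx' : ∀ i, f i x = 0 := by
      intro i
      have h2 : (⨅ H ∈ arr f, H : Submodule ℝ (Fin 4 → ℝ)) ≤ LinearMap.ker (f i) :=
        iInf₂_le _ ((mem_arr _).2 ⟨i, rfl⟩)
      exact h2 hx
    rw [Submodule.mem_bot]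
    have h0 := hx' 0
    have h1 := hx' 1
    have h3 := hx' 3
    have h4 := hx' 4
    rw [f0] at h0
    rw [f1] at h1
    rw [f3] at h3
    rw [f4] at h4
    funext k
    fin_cases k
    · exact h0
    · exact h1
    · exact h3
    · exact h4
  rw [rank, h]
  simp

/-! ### The realised sign vectors -/

/-- Sign vectors. -/
abbrev T : Type := Fin 6 → Bool

/-- The realised sign vectors. -/
def ok (t : T) : Prop := ¬ (t 0 = t 1 ∧ t 1 = t 2) ∧ ¬ (t 0 = t 3 ∧ t 3 = t 4 ∧ t 4 = t 5)

instance : DecidablePred ok := fun t => by unfold ok; infer_instance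

/-- A point with given signs. -/
def pt (t : T) : Fin 4 → ℤ :=
  let s : ℤ := if t 0 then 1 else -1
  let o : ℤ := if (t 3 = t 0 ∧ t 4 = t 0) ∨ (t 3 = t 0 ∧ t 5 = t 0) ∨ (t 4 = t 0 ∧ t 5 = t 0) then
    -18 else if t 3 = t 0 ∨ t 4 = t 0 ∨ t 5 = t 0 then -6 else -2
  ![6 * s, s * (if t 1 = t 0 then 6 else if t 2 = t 0 then -12 else -3),
    s * (if t 3 = t 0 then 6 else o), s * (if t 4 = t 0 then 6 else o)]

theorem pt_spec : ∀ t, ok t → ∀ i, (t i = true → 0 < ev i (pt t)) ∧
    (t i = false → ev i (pt t) < 0) := by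
  decide +kernel

theorem mem_range (t : T) : t ∈ Set.range (sgC f) ↔ ok t := by
  rw [mem_range_iff]
  constructor
  · rintro ⟨x, hx⟩
    have e1 : f 0 x + f 1 x + f 2 x = 0 := by rw [f0, f1, f2]; ring
    have e2 : f 0 x + f 3 x + f 4 x + f 5 x = 0 := by rw [f0, f3, f4, f5]; ring
    constructor
    · rintro ⟨h1, h2⟩
      rcases h : t 2 with _ | _
      · have a2 := (hx 2).2 h
        have a1 := (hx 1).2 (h2.trans h)
        have a0 := (hx 0).2 (h1.trans (h2.trans h))
        linarith
      · have a2 := (hx 2).1 h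
        have a1 := (hx 1).1 (h2.trans h)
        have a0 := (hx 0).1 (h1.trans (h2.trans h))
        linarith
    · rintro ⟨h1, h2, h3⟩
      rcases h : t 5 with _ | _
      · have a5 := (hx 5).2 h
        have a4 := (hx 4).2 (h3.trans h)
        have a3 := (hx 3).2 (h2.trans (h3.trans h))
        have a0 := (hx 0).2 (h1.trans (h2.trans (h3.trans h)))
        linarith
      · have a5 := (hx 5).1 h
        have a4 := (hx 4).1 (h3.trans h)
        have a3 := (hx 3).1 (h2.trans (h3.trans h))
        have a0 := (hx 0).1 (h1.trans (h2.trans (h3.trans h)))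
        linarith
  · intro h
    refine ⟨fun k => (pt t k : ℝ), fun i => ?_⟩
    rw [f_int]
    exact ⟨fun hi => by exact_mod_cast (pt_spec t h i).1 hi,
      fun hi => by exact_mod_cast (pt_spec t h i).2 hi⟩

theorem step : ∀ t t' : T, ok t → ok t' → t ≠ t' → ∃ i, t i ≠ t' i ∧
    ok (Function.update t i (t' i)) := by
  decide +kernel

theorem hd_update {α : Type} [Fintype α] [DecidableEq α] (s s' : α → Bool) (i : α)
    (h : s i ≠ s' i) : hammingDist s (Function.update s i (s' i)) = 1 ∧
      hammingDist (Function.update s i (s' i)) s' + 1 = hammingDist s s' := by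
  constructor
  · rw [hammingDist, Finset.card_eq_one]
    refine ⟨i, ?_⟩
    ext j
    simp only [Finset.mem_filter, Finset.mem_univ, true_and, Finset.mem_singleton]
    by_cases hj : j = i
    · subst hj
      simp [h]
    · simp [hj]
  · have h2 : (Finset.univ.filter fun j => s j ≠ s' j) =
        insert i (Finset.univ.filter fun j => Function.update s i (s' i) j ≠ s' j) := by
      ext j
      simp only [Finset.mem_filter, Finset.mem_univ, true_and, Finset.mem_insert]
      by_cases hj : j = i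
      · subst hj
        simp [h]
      · simp [hj]
    simp only [hammingDist]
    rw [h2, Finset.card_insert_of_notMem]
    simp

/-- The chambers. -/
abbrev V : Type := Chamber (arr f)

/-- The tope graph. -/
noncomputable abbrev G : SimpleGraph V := topeGraph (arr f)

/-- The sign vector of a chamber. -/
noncomputable abbrev s : V → T := sgC f

theorem s_inj : Function.Injective s := sgC_injective f

theorem s_ok (x : V) : ok (s x) := (mem_range _).1 ⟨x, rfl⟩

theorem dist_eq' (x y : V) : G.dist x y = hammingDist (s x) (s y) := by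
  refine dist_eq G s s_inj (adj_iff _ ker_inj) ?_ x y
  intro C D hne
  obtain ⟨i, hi, hok⟩ := step _ _ (s_ok C) (s_ok D) fun h => hne (s_inj h)
  obtain ⟨E, hE⟩ := (mem_range _).2 hok
  refine ⟨E, ?_⟩
  have hE' : s E = Function.update (s C) i (s D i) := hE
  rw [hE']
  exact hd_update _ _ i hi

instance : Finite V := Finite.of_injective s s_inj

instance : Nonempty V := by
  obtain ⟨C, -⟩ := (mem_range ![true, false, false, false, false, false]).2 (by decide)
  exact ⟨C⟩

/-- The chamber with a given sign vector. -/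
noncomputable def c (t : T) : V := Function.invFun s t

theorem s_c {t : T} (h : ok t) : s (c t) = t := by
  obtain ⟨C, hC⟩ := (mem_range t).2 h
  exact Function.invFun_eq ⟨C, hC⟩

theorem card_ok : (Finset.univ.filter fun t : T => ok t).card = 42 := by decide +kernel

theorem beta_zero : beta G 0 0 = 42 := by
  classical
  have := Fintype.ofFinite V
  rw [beta_zero_zero, ← card_ok, ← Finset.card_univ]
  refine Finset.card_bij (fun x _ => s x) ?_ ?_ ?_
  · intro x _
    simp only [Finset.mem_filter, Finset.mem_univ, true_and]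
    exact s_ok x
  · intro x _ y _ h
    exact s_inj h
  · intro t ht
    simp only [Finset.mem_filter, Finset.mem_univ, true_and] at ht
    exact ⟨c t, Finset.mem_univ _, s_c ht⟩

end Pool.Agent.R142.Ex42
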