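import Mathlib
import Pool.Agent.R142.Ex42

/-!
# Cycles and cocycles for the arrangement of `Ex42`
-/

set_option autoImplicit false

namespace Pool.Agent.R142.Ex42

open Pool.Agent.R142.Arr Pool.Agent.R142.MagHom

/-- Distance of sign vectors. -/
abbrev D (t t' : T) : ℕ := hammingDist t t'

/-- A functional on `4`-chains. -/
noncomputable def fn (F : V → V → V → V → V → ℤ) : ((Fin 5 → V) →₀ ℤ) →ₗ[ℤ] ℤ :=
  Finsupp.linearCombination ℤ fun y => F (y 0) (y 1) (y 2) (y 3) (y 4)

theorem fn_single (F : V → V → V → V → V → ℤ) (y : Fin 5 → V) :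
    fn F (Finsupp.single y 1) = F (y 0) (y 1) (y 2) (y 3) (y 4) := by
  rw [fn, Finsupp.linearCombination_single, one_smul]

/-- `y` lies between `x` and `z`. -/
def btw (x y z : V) : Prop := G.dist x z = G.dist x y + G.dist y z

noncomputable instance (x y z : V) : Decidable (btw x y z) :=
  inferInstanceAs (Decidable (G.dist x z = G.dist x y + G.dist y z))

theorem signs (a b c' d : ℤ) : (-1 : ℤ) ^ ((0 : Fin 4).1 + 1) • a + (-1 : ℤ) ^ ((1 : Fin 4).1 + 1) • b +
    (-1 : ℤ) ^ ((2 : Fin 4).1 + 1) • c' + (-1 : ℤ) ^ ((3 : Fin 4).1 + 1) • d = -a + b - c' + d := by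
  simp
  ring

theorem signs' {M : Type} [AddCommGroup M] (a b c' : M) : (-1 : ℤ) ^ ((0 : Fin 3).1 + 1) • a +
    (-1 : ℤ) ^ ((1 : Fin 3).1 + 1) • b + (-1 : ℤ) ^ ((2 : Fin 3).1 + 1) • c' = -a + b - c' := by
  simp
  abel

theorem fn_bd (F : V → V → V → V → V → ℤ) (x : Fin 6 → V) :
    fn F (bd G 4 (Finsupp.single x 1)) =
      -(if btw (x 0) (x 1) (x 2) then F (x 0) (x 2) (x 3) (x 4) (x 5) else 0) +
      (if btw (x 1) (x 2) (x 3) then F (x 0) (x 1) (x 3) (x 4) (x 5) else 0) -
      (if btw (x 2) (x 3) (x 4) then F (x 0) (x 1) (x 2) (x 4) (x 5) else 0) +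
      (if btw (x 3) (x 4) (x 5) then F (x 0) (x 1) (x 2) (x 3) (x 5) else 0) := by
  have h0 : fn F (face G 4 x 0) =
      if btw (x 0) (x 1) (x 2) then F (x 0) (x 2) (x 3) (x 4) (x 5) else 0 := by
    rw [face]
    by_cases h : btw (x 0) (x 1) (x 2)
    · rw [if_pos h]
      exact (congrArg (fn F) (if_pos h)).trans (fn_single F _)
    · rw [if_neg h]
      exact (congrArg (fn F) (if_neg h)).trans (map_zero _)
  have h1 : fn F (face G 4 x 1) =
      if btw (x 1) (x 2) (x 3) then F (x 0) (x 1) (x 3) (x 4) (x 5) else 0 := by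
    rw [face]
    by_cases h : btw (x 1) (x 2) (x 3)
    · rw [if_pos h]
      exact (congrArg (fn F) (if_pos h)).trans (fn_single F _)
    · rw [if_neg h]
      exact (congrArg (fn F) (if_neg h)).trans (map_zero _)
  have h2 : fn F (face G 4 x 2) =
      if btw (x 2) (x 3) (x 4) then F (x 0) (x 1) (x 2) (x 4) (x 5) else 0 := by
    rw [face]
    by_cases h : btw (x 2) (x 3) (x 4)
    · rw [if_pos h]
      exact (congrArg (fn F) (if_pos h)).trans (fn_single F _)
    · rw [if_neg h]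
      exact (congrArg (fn F) (if_neg h)).trans (map_zero _)
  have h3 : fn F (face G 4 x 3) =
      if btw (x 3) (x 4) (x 5) then F (x 0) (x 1) (x 2) (x 3) (x 5) else 0 := by
    rw [face]
    by_cases h : btw (x 3) (x 4) (x 5)
    · rw [if_pos h]
      exact (congrArg (fn F) (if_pos h)).trans (fn_single F _)
    · rw [if_neg h]
      exact (congrArg (fn F) (if_neg h)).trans (map_zero _)
  rw [bd_single, map_sum, Fin.sum_univ_four]
  simp only [map_smul, h0, h1, h2, h3]
  exact signs _ _ _ _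

theorem bd_four (a b c' d e : V) :
    bd G 3 (Finsupp.single ![a, b, c', d, e] 1) =
      -(if btw a b c' then Finsupp.single ![a, c', d, e] 1 else 0) +
      (if btw b c' d then Finsupp.single ![a, b, d, e] 1 else 0) -
      (if btw c' d e then Finsupp.single ![a, b, c', e] 1 else 0) := by
  have e0 : (fun j => ![a, b, c', d, e] (((0 : Fin 3).succ.castSucc).succAbove j)) =
      ![a, c', d, e] := by
    funext j
    fin_cases j <;> rfl
  have e1 : (fun j => ![a, b, c', d, e] (((1 : Fin 3).succ.castSucc).succAbove j)) =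
      ![a, b, d, e] := by
    funext j
    fin_cases j <;> rfl
  have e2 : (fun j => ![a, b, c', d, e] (((2 : Fin 3).succ.castSucc).succAbove j)) =
      ![a, b, c', e] := by
    funext j
    fin_cases j <;> rfl
  have h0 : face G 3 ![a, b, c', d, e] 0 =
      if btw a b c' then Finsupp.single ![a, c', d, e] 1 else 0 := by
    rw [face, e0]
    rfl
  have h1 : face G 3 ![a, b, c', d, e] 1 =
      if btw b c' d then Finsupp.single ![a, b, d, e] 1 else 0 := by
    rw [face, e1]
    rfl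
  have h2 : face G 3 ![a, b, c', d, e] 2 =
      if btw c' d e then Finsupp.single ![a, b, c', e] 1 else 0 := by
    rw [face, e2]
    rfl
  rw [bd_single, Fin.sum_univ_three, h0, h1, h2]
  exact signs' _ _ _

theorem mem_tuples_five {k : ℕ} {x : Fin 6 → V} (hx : x ∈ Tuples G 5 k) :
    (x 0 ≠ x 1 ∧ x 1 ≠ x 2 ∧ x 2 ≠ x 3 ∧ x 3 ≠ x 4 ∧ x 4 ≠ x 5) ∧
    D (s (x 0)) (s (x 1)) + D (s (x 1)) (s (x 2)) + D (s (x 2)) (s (x 3)) +
      D (s (x 3)) (s (x 4)) + D (s (x 4)) (s (x 5)) = k := by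
  obtain ⟨h1, h2⟩ := hx
  refine ⟨⟨h1 0, h1 1, h1 2, h1 3, h1 4⟩, ?_⟩
  rw [Fin.sum_univ_five] at h2
  simp only [dist_eq'] at h2
  exact h2

theorem mem_tuples_four {k : ℕ} {a b c' d e : V} (h1 : a ≠ b) (h2 : b ≠ c') (h3 : c' ≠ d)
    (h4 : d ≠ e) (h : D (s a) (s b) + D (s b) (s c') + D (s c') (s d) + D (s d) (s e) = k) :
    ![a, b, c', d, e] ∈ Tuples G 4 k := by
  refine ⟨?_, ?_⟩
  · intro i
    fin_cases i
    · exact h1
    · exact h2
    · exact h3
    · exact h4
  · rw [Fin.sum_univ_four]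
    simp only [dist_eq']
    exact h

end Pool.Agent.R142.Ex42
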