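import Mathlib
import Pool.Agent.R142.Ex42b

/-!
# The hexagon classes
-/

set_option autoImplicit false

namespace Pool.Agent.R142.Ex42

open Pool.Agent.R142.Arr Pool.Agent.R142.MagHom

/-- Sign vectors that are nonconstant on `{0,1,2}` and on `{3,4,5}`. -/
def hexOk (t : T) : Prop := ¬ (t 0 = t 1 ∧ t 1 = t 2) ∧ ¬ (t 3 = t 4 ∧ t 4 = t 5)

instance : DecidablePred hexOk := fun t => by unfold hexOk; infer_instance

/-- Change the signs in `S`. -/
def flip (S : Finset (Fin 6)) (t : T) : T := fun i => if i ∈ S then !t i else t i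

/-- The opposite chamber in the hexagon. -/
def opp (t : T) : T := flip {0, 1, 2} t

/-- The first wall of the hexagon. -/
def w1 (t : T) : Fin 6 := if t 1 = t 2 then 1 else 0

/-- The second wall of the hexagon. -/
def w2 (t : T) : Fin 6 := if t 0 = t 1 then 1 else 2

/-- The first neighbour. -/
def h1 (t : T) : T := flip {w1 t} t

/-- The second neighbour. -/
def h5 (t : T) : T := flip {w2 t} t

/-- The indicator of one side of the hexagon. -/
def sig (t u : T) : ℤ := if u (w1 t) ≠ t (w1 t) ∧ u (w2 t) = t (w2 t) then 1 else 0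

theorem hex_facts : ∀ t, hexOk t → ok t ∧ ok (opp t) ∧ ok (h1 t) ∧ ok (h5 t) ∧ D t (h1 t) = 1 ∧
    D (h1 t) (opp t) = 2 ∧ D t (h5 t) = 1 ∧ D (h5 t) (opp t) = 2 ∧ D t (opp t) = 3 ∧
    D (h1 t) (h5 t) = 2 ∧ sig t (h1 t) = 1 ∧ sig t (h5 t) = 0 := by
  decide +kernel

theorem hexA : ∀ t, hexOk t → ∀ x, ok x → D t x + D x (opp t) ≤ 3 → t ≠ x → ∀ y, ok y →
    D t x + D x y + D y (opp t) = 3 → y ≠ opp t → sig t x = sig t y := by
  decide +kernel

/-- The hexagon cochain. -/
noncomputable def hexF (t : T) (x0 x1 x2 x3 x4 : V) : ℤ :=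
  if s x0 = t ∧ s x2 = opp t ∧ s x4 = t then sig t (s x1) * sig t (s x3) else 0

theorem dist_D (x y : V) : G.dist x y = D (s x) (s y) := dist_eq' x y

theorem btw_iff (x y z : V) : btw x y z ↔ D (s x) (s z) = D (s x) (s y) + D (s y) (s z) := by
  rw [btw, dist_D, dist_D, dist_D]

theorem hex_vanish (t : T) (ht : hexOk t) : ∀ b ∈ bdry G 4 6, fn (hexF t) b = 0 := by
  apply vanish
  intro x hx
  obtain ⟨⟨n0, n1, n2, n3, n4⟩, hlen⟩ := mem_tuples_five hx
  rw [fn_bd]
  by_cases hend : s (x 0) = t ∧ s (x 5) = t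
  swap
  · have hz : ∀ a b c', hexF t (x 0) a b c' (x 5) = 0 := by
      intro a b c'
      rw [hexF, if_neg]
      rintro ⟨h1, -, h3⟩
      exact hend ⟨h1, h3⟩
    simp [hz]
  obtain ⟨ha, hb⟩ := hend
  obtain ⟨-, -, -, -, -, -, -, -, hD3, -⟩ := hex_facts t ht
  have hD3' : D (opp t) t = 3 := by rw [← hD3]; exact hammingDist_comm _ _
  have tri : ∀ a b c' : T, D a c' ≤ D a b + D b c' := fun a b c' => hammingDist_triangle a b c'
  -- first pair of terms
  have claimA : s (x 3) = opp t → btw (x 0) (x 1) (x 2) ∧ btw (x 1) (x 2) (x 3) ∧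
      sig t (s (x 1)) = sig t (s (x 2)) := by
    intro h3
    rw [btw_iff, btw_iff]
    rw [ha, h3, hb] at hlen
    rw [ha, h3]
    have i1 := tri t (s (x 1)) (s (x 2))
    have i2 := tri t (s (x 2)) (opp t)
    have i3 := tri (s (x 1)) (s (x 2)) (opp t)
    have i4 := tri t (s (x 1)) (opp t)
    have i5 := tri (opp t) (s (x 4)) t
    refine ⟨by omega, by omega, ?_⟩
    refine hexA t ht _ (s_ok _) (by omega) (fun h => n0 (s_inj (ha.trans h))) _ (s_ok _)
      (by omega) (fun h => n2 (s_inj (h.trans h3.symm)))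
  have claimB : s (x 2) = opp t → btw (x 2) (x 3) (x 4) ∧ btw (x 3) (x 4) (x 5) ∧
      sig t (s (x 4)) = sig t (s (x 3)) := by
    intro h2
    rw [btw_iff, btw_iff]
    rw [ha, h2, hb] at hlen
    rw [hb, h2]
    have i1 := tri (opp t) (s (x 3)) (s (x 4))
    have i2 := tri (opp t) (s (x 4)) t
    have i3 := tri (s (x 3)) (s (x 4)) t
    have i4 := tri (opp t) (s (x 3)) t
    have i5 := tri t (s (x 1)) (opp t)
    have c1 : D (s (x 4)) (s (x 3)) = D (s (x 3)) (s (x 4)) := hammingDist_comm _ _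
    have c2 : D t (s (x 4)) = D (s (x 4)) t := hammingDist_comm _ _
    have c3 : D (s (x 3)) (opp t) = D (opp t) (s (x 3)) := hammingDist_comm _ _
    have c4 : D (s (x 4)) (opp t) = D (opp t) (s (x 4)) := hammingDist_comm _ _
    refine ⟨by omega, by omega, ?_⟩
    refine hexA t ht _ (s_ok _) (by omega) (fun h => n4 (s_inj (h.symm.trans hb.symm))) _ (s_ok _)
      (by omega) (fun h => n2 (s_inj (h2.trans h.symm)))
  have e1 : (if btw (x 0) (x 1) (x 2) then hexF t (x 0) (x 2) (x 3) (x 4) (x 5) else 0) =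
      if btw (x 1) (x 2) (x 3) then hexF t (x 0) (x 1) (x 3) (x 4) (x 5) else 0 := by
    by_cases h3 : s (x 3) = opp t
    · obtain ⟨b1, b2, b3⟩ := claimA h3
      rw [if_pos b1, if_pos b2, hexF, hexF, if_pos ⟨ha, h3, hb⟩, if_pos ⟨ha, h3, hb⟩, b3]
    · have z1 : hexF t (x 0) (x 2) (x 3) (x 4) (x 5) = 0 := if_neg fun h => h3 h.2.1
      have z2 : hexF t (x 0) (x 1) (x 3) (x 4) (x 5) = 0 := if_neg fun h => h3 h.2.1
      rw [z1, z2]
      simp
  have e2 : (if btw (x 2) (x 3) (x 4) then hexF t (x 0) (x 1) (x 2) (x 4) (x 5) else 0) =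
      if btw (x 3) (x 4) (x 5) then hexF t (x 0) (x 1) (x 2) (x 3) (x 5) else 0 := by
    by_cases h2 : s (x 2) = opp t
    · obtain ⟨b1, b2, b3⟩ := claimB h2
      rw [if_pos b1, if_pos b2, hexF, hexF, if_pos ⟨ha, h2, hb⟩, if_pos ⟨ha, h2, hb⟩, b3]
    · have z1 : hexF t (x 0) (x 1) (x 2) (x 4) (x 5) = 0 := if_neg fun h => h2 h.2.1
      have z2 : hexF t (x 0) (x 1) (x 2) (x 3) (x 5) = 0 := if_neg fun h => h2 h.2.1
      rw [z1, z2]
      simp
  rw [e1, e2]
  ring

/-- The hexagon cycle. -/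
noncomputable def hexz (t : T) : (Fin 5 → V) →₀ ℤ :=
  Finsupp.single ![c t, c (h1 t), c (opp t), c (h1 t), c t] 1 -
  Finsupp.single ![c t, c (h1 t), c (opp t), c (h5 t), c t] 1 -
  Finsupp.single ![c t, c (h5 t), c (opp t), c (h1 t), c t] 1 +
  Finsupp.single ![c t, c (h5 t), c (opp t), c (h5 t), c t] 1

theorem ne_of_D {t u : T} (ht : ok t) (hu : ok u) (h : D t u ≠ 0) : c t ≠ c u := by
  intro h'
  apply h
  have := congrArg s h'
  rw [s_c ht, s_c hu] at this
  rw [this]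
  exact hammingDist_self _

theorem hexz_mem (t : T) (ht : hexOk t) : hexz t ∈ cyc G 4 6 := by
  obtain ⟨o0, o3, o1, o5, d1, d13, d5, d53, d03, d15, -, -⟩ := hex_facts t ht
  have d1' : D (h1 t) t = 1 := by rw [← d1]; exact hammingDist_comm _ _
  have d13' : D (opp t) (h1 t) = 2 := by rw [← d13]; exact hammingDist_comm _ _
  have d5' : D (h5 t) t = 1 := by rw [← d5]; exact hammingDist_comm _ _
  have d53' : D (opp t) (h5 t) = 2 := by rw [← d53]; exact hammingDist_comm _ _
  have d03' : D (opp t) t = 3 := by rw [← d03]; exact hammingDist_comm _ _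
  have d15' : D (h5 t) (h1 t) = 2 := by rw [← d15]; exact hammingDist_comm _ _
  have d11 : D (h1 t) (h1 t) = 0 := hammingDist_self _
  have d55 : D (h5 t) (h5 t) = 0 := hammingDist_self _
  refine ⟨?_, ?_⟩
  · have key : ∀ x ∈ Tuples G 4 6, Finsupp.single x (1 : ℤ) ∈ MC G 4 6 := fun x hx =>
      Finsupp.single_mem_supported ℤ 1 hx
    refine Submodule.add_mem _ (Submodule.sub_mem _ (Submodule.sub_mem _ (key _ ?_) (key _ ?_))
      (key _ ?_)) (key _ ?_)
    · refine mem_tuples_four (ne_of_D o0 o1 (by omega)) (ne_of_D o1 o3 (by omega))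
        (ne_of_D o3 o1 (by omega)) (ne_of_D o1 o0 (by omega)) ?_
      rw [s_c o0, s_c o1, s_c o3]
      omega
    · refine mem_tuples_four (ne_of_D o0 o1 (by omega)) (ne_of_D o1 o3 (by omega))
        (ne_of_D o3 o5 (by omega)) (ne_of_D o5 o0 (by omega)) ?_
      rw [s_c o0, s_c o1, s_c o3, s_c o5]
      omega
    · refine mem_tuples_four (ne_of_D o0 o5 (by omega)) (ne_of_D o5 o3 (by omega))
        (ne_of_D o3 o1 (by omega)) (ne_of_D o1 o0 (by omega)) ?_
      rw [s_c o0, s_c o1, s_c o3, s_c o5]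
      omega
    · refine mem_tuples_four (ne_of_D o0 o5 (by omega)) (ne_of_D o5 o3 (by omega))
        (ne_of_D o3 o5 (by omega)) (ne_of_D o5 o0 (by omega)) ?_
      rw [s_c o0, s_c o3, s_c o5]
      omega
  · have b1 : btw (c t) (c (h1 t)) (c (opp t)) := by
      rw [btw_iff, s_c o0, s_c o1, s_c o3]; omega
    have b2 : btw (c t) (c (h5 t)) (c (opp t)) := by
      rw [btw_iff, s_c o0, s_c o5, s_c o3]; omega
    have b3 : btw (c (opp t)) (c (h1 t)) (c t) := by
      rw [btw_iff, s_c o0, s_c o1, s_c o3]; omega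
    have b4 : btw (c (opp t)) (c (h5 t)) (c t) := by
      rw [btw_iff, s_c o0, s_c o5, s_c o3]; omega
    have b5 : ¬ btw (c (h1 t)) (c (opp t)) (c (h1 t)) := by
      rw [btw_iff, s_c o1, s_c o3]; omega
    have b6 : ¬ btw (c (h1 t)) (c (opp t)) (c (h5 t)) := by
      rw [btw_iff, s_c o1, s_c o3, s_c o5]; omega
    have b7 : ¬ btw (c (h5 t)) (c (opp t)) (c (h1 t)) := by
      rw [btw_iff, s_c o1, s_c o3, s_c o5]; omega
    have b8 : ¬ btw (c (h5 t)) (c (opp t)) (c (h5 t)) := by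
      rw [btw_iff, s_c o3, s_c o5]; omega
    rw [SetLike.mem_coe, LinearMap.mem_ker, hexz, map_add, map_sub, map_sub, bd_four, bd_four, bd_four, bd_four]
    simp only [b1, b2, b3, b4, b5, b6, b7, b8, if_true, if_false]
    abel

theorem hexF_hexz (t u : T) (hu : hexOk u) :
    fn (hexF t) (hexz u) = if t = u then 1 else 0 := by
  obtain ⟨o0, o3, o1, o5, -, -, -, -, -, -, s1, s5⟩ := hex_facts u hu
  have key : ∀ a b : T, ok a → ok b → fn (hexF t) (Finsupp.single
      ![c u, c a, c (opp u), c b, c u] 1) = if t = u then sig t a * sig t b else 0 := by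
    intro a b ha hb
    rw [fn_single]
    simp only [Matrix.cons_val]
    rw [hexF, s_c o0, s_c ha, s_c hb, s_c o3]
    by_cases h : t = u
    · subst h
      simp
    · rw [if_neg fun h' => h h'.1.symm, if_neg h]
  rw [hexz, map_add, map_sub, map_sub, key _ _ o1 o1, key _ _ o1 o5, key _ _ o5 o1, key _ _ o5 o5]
  by_cases h : t = u
  · subst h
    simp [s1, s5]
  · simp [h]

end Pool.Agent.R142.Ex42
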