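import Mathlib
import Pool.Agent.R142.Ex42c

/-!
# The classes of the simplicial chambers
-/

set_option autoImplicit false

namespace Pool.Agent.R142.Ex42

open Pool.Agent.R142.Arr Pool.Agent.R142.MagHom

/-- The sign vectors of the simplicial chambers used here. -/
def topOk (t : T) : Prop := t 1 ≠ t 2 ∧ ((t 3 ≠ t 0 ∧ t 4 = t 0 ∧ t 5 = t 0) ∨
  (t 3 = t 0 ∧ t 4 ≠ t 0 ∧ t 5 = t 0) ∨ (t 3 = t 0 ∧ t 4 = t 0 ∧ t 5 ≠ t 0))

instance : DecidablePred topOk := fun t => by unfold topOk; infer_instance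

/-- The walls of the chamber. -/
def wall (t : T) : Fin 4 → Fin 6 :=
  ![0, if t 1 = t 0 then 1 else 2, if t 3 = t 0 then 3 else 4, if t 5 = t 0 then 5 else 4]

/-- The first hyperplane which is not a wall. -/
def nw1 (t : T) : Fin 6 := if t 1 = t 0 then 2 else 1

/-- The second hyperplane which is not a wall. -/
def nw2 (t : T) : Fin 6 := if t 3 ≠ t 0 then 3 else if t 4 ≠ t 0 then 4 else 5

/-- The chamber reached from `t` by crossing the walls in `S`. -/
def Y (t : T) (S : Finset (Fin 4)) : T := fun i =>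
  if (∃ j ∈ S, wall t j = i) ∨ (i = nw1 t ∧ 0 ∈ S ∧ 1 ∈ S) ∨
    (i = nw2 t ∧ 0 ∈ S ∧ 2 ∈ S ∧ 3 ∈ S) then !t i else t i

/-- The walls separating `u` from `t`. -/
def proj (t u : T) : Finset (Fin 4) := Finset.univ.filter fun j => u (wall t j) ≠ t (wall t j)

/-- The opposite sign vector. -/
def neg (t : T) : T := fun i => !t i

theorem top_facts : ∀ t, topOk t → Y t ∅ = t ∧ Y t Finset.univ = neg t ∧
    ∀ S, ok (Y t S) ∧ proj t (Y t S) = S := by
  decide +kernel

theorem top_dist : ∀ t, topOk t → ∀ S S', S ⊆ S' →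
    D (Y t S) (Y t S') + D t (Y t S) = D t (Y t S') := by
  decide +kernel

theorem top_ok : ∀ t, topOk t → ok t ∧ ok (neg t) ∧ D t (neg t) = 6 ∧ neg t ≠ t := by
  decide +kernel

theorem top_sep1 : ∀ t : T, topOk t → ∀ u : T, ok u → proj t u = ∅ → u = t := by
  decide +kernel

theorem top_sep2 : ∀ t : T, topOk t → ∀ u : T, ok u → proj t u = Finset.univ → u = neg t := by
  decide +kernel

theorem perm_sum : (∑ σ : Equiv.Perm (Fin 4), (Equiv.Perm.sign σ : ℤ) *
    (if ({σ 0} : Finset (Fin 4)) = {0} ∧ ({σ 0, σ 1} : Finset (Fin 4)) = {0, 1} ∧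
      ({σ 0, σ 1, σ 2} : Finset (Fin 4)) = {0, 1, 2} then 1 else 0)) = 1 := by
  decide +kernel

theorem hd_eq (a b : T) : D a b = ∑ i, if a i ≠ b i then 1 else 0 := by
  rw [D, hammingDist, Finset.card_filter]

theorem mono {a b d : T} (h : D a d = D a b + D b d) (i : Fin 6) (hi : b i ≠ a i) : d i ≠ a i := by
  intro hd
  have h1 : ∀ j, (if a j ≠ d j then 1 else 0) ≤ (if a j ≠ b j then 1 else 0) +
      (if b j ≠ d j then 1 else 0) := by
    intro j
    by_cases e1 : a j = b j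
    · by_cases e2 : b j = d j
      · simp [e1, e2]
      · simp [e1]
    · by_cases e2 : b j = d j
      · simp [e2]
      · simp only [ne_eq, e1, not_false_eq_true, if_true, e2]
        split_ifs <;> omega
  have h2 : D a d < D a b + D b d := by
    rw [hd_eq, hd_eq, hd_eq, ← Finset.sum_add_distrib]
    refine Finset.sum_lt_sum (fun j _ => h1 j) ⟨i, Finset.mem_univ _, ?_⟩
    rw [hd]
    simp [hi, Ne.symm hi]
  omega

theorem proj_mono {t a b : T} (h : D t b = D t a + D a b) : proj t a ⊆ proj t b := by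
  intro j hj
  simp only [proj, Finset.mem_filter, Finset.mem_univ, true_and] at hj ⊢
  exact mono h _ hj

/-- The cochain of a simplicial chamber. -/
noncomputable def topF (t : T) (x0 x1 x2 x3 x4 : V) : ℤ :=
  if s x0 = t ∧ s x4 = neg t ∧ proj t (s x1) = {0} ∧ proj t (s x2) = {0, 1} ∧
    proj t (s x3) = {0, 1, 2} then 1 else 0

theorem four_sets {p1 p2 p3 p4 : Finset (Fin 4)} (h12 : p1 ⊆ p2) (h23 : p2 ⊆ p3) (h34 : p3 ⊆ p4)
    (h1 : p1 ≠ ∅) (h4 : p4 ≠ Finset.univ) : p1 = p2 ∨ p2 = p3 ∨ p3 = p4 := by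
  by_contra hne
  push Not at hne
  obtain ⟨n12, n23, n34⟩ := hne
  have c1 : 0 < p1.card := Finset.card_pos.2 (Finset.nonempty_iff_ne_empty.2 h1)
  have c2 := Finset.card_lt_card (Finset.ssubset_iff_subset_ne.2 ⟨h12, n12⟩)
  have c3 := Finset.card_lt_card (Finset.ssubset_iff_subset_ne.2 ⟨h23, n23⟩)
  have c4 := Finset.card_lt_card (Finset.ssubset_iff_subset_ne.2 ⟨h34, n34⟩)
  have c5 : p4.card < 4 := by
    have := Finset.card_lt_card (Finset.ssubset_univ_iff.2 h4)
    simpa using this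
  omega

theorem top_vanish (t : T) (ht : topOk t) : ∀ b ∈ bdry G 4 6, fn (topF t) b = 0 := by
  apply vanish
  intro x hx
  obtain ⟨⟨n0, n1, n2, n3, n4⟩, hlen⟩ := mem_tuples_five hx
  rw [fn_bd]
  by_cases hend : s (x 0) = t ∧ s (x 5) = neg t
  swap
  · have hz : ∀ a b c', topF t (x 0) a b c' (x 5) = 0 := by
      intro a b c'
      rw [topF, if_neg]
      rintro ⟨h1, h2, -⟩
      exact hend ⟨h1, h2⟩
    simp [hz]
  obtain ⟨ha, hb⟩ := hend
  obtain ⟨-, -, hD, -⟩ := top_ok t ht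
  have tri : ∀ a b c' : T, D a c' ≤ D a b + D b c' := fun a b c' => hammingDist_triangle a b c'
  rw [ha, hb] at hlen
  have b1 : btw (x 0) (x 1) (x 2) ∧ btw (x 1) (x 2) (x 3) ∧ btw (x 2) (x 3) (x 4) ∧
      btw (x 3) (x 4) (x 5) ∧ D t (s (x 2)) = D t (s (x 1)) + D (s (x 1)) (s (x 2)) ∧
      D t (s (x 3)) = D t (s (x 2)) + D (s (x 2)) (s (x 3)) ∧
      D t (s (x 4)) = D t (s (x 3)) + D (s (x 3)) (s (x 4)) := by
    simp only [btw_iff, ha, hb]
    have i1 := tri t (s (x 1)) (s (x 2))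
    have i2 := tri t (s (x 2)) (s (x 3))
    have i3 := tri t (s (x 3)) (s (x 4))
    have i4 := tri t (s (x 4)) (neg t)
    have i5 := tri (s (x 1)) (s (x 2)) (s (x 3))
    have i6 := tri (s (x 2)) (s (x 3)) (s (x 4))
    have i7 := tri (s (x 3)) (s (x 4)) (neg t)
    have i8 := tri t (s (x 1)) (s (x 3))
    have i9 := tri t (s (x 2)) (s (x 4))
    have i10 := tri t (s (x 3)) (neg t)
    refine ⟨?_, ?_, ?_, ?_, ?_, ?_, ?_⟩ <;> omega
  obtain ⟨b1, b2, b3, b4, d2, d3, d4⟩ := b1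
  rw [if_pos b1, if_pos b2, if_pos b3, if_pos b4]
  have m12 := proj_mono d2
  have m23 := proj_mono d3
  have m34 := proj_mono d4
  have hp1 : proj t (s (x 1)) ≠ ∅ := fun h =>
    n0 (s_inj (ha.trans (top_sep1 t ht _ (s_ok _) h).symm))
  have hp4 : proj t (s (x 4)) ≠ Finset.univ := fun h =>
    n4 (s_inj ((top_sep2 t ht _ (s_ok _) h).trans hb.symm))
  simp only [topF, ha, hb, true_and]
  have ne1 : ({0} : Finset (Fin 4)) ≠ {0, 1} := by decide
  have ne2 : ({0, 1} : Finset (Fin 4)) ≠ {0, 1, 2} := by decide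
  rcases four_sets m12 m23 m34 hp1 hp4 with h | h | h
  · rw [← h]
    have z1 : ∀ P : Prop, ¬ (proj t (s (x 1)) = {0} ∧ proj t (s (x 1)) = {0, 1} ∧ P) := by
      rintro P ⟨h1, h2, -⟩
      exact ne1 (h1.symm.trans h2)
    rw [if_neg (z1 (proj t (s (x 4)) = {0, 1, 2})), if_neg (z1 (proj t (s (x 3)) = {0, 1, 2}))]
    ring
  · rw [← h]
    have z1 : ¬ (proj t (s (x 2)) = {0} ∧ proj t (s (x 2)) = {0, 1} ∧
        proj t (s (x 4)) = {0, 1, 2}) := by
      rintro ⟨h1, h2, -⟩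
      exact ne1 (h1.symm.trans h2)
    have z2 : ¬ (proj t (s (x 1)) = {0} ∧ proj t (s (x 2)) = {0, 1} ∧
        proj t (s (x 2)) = {0, 1, 2}) := by
      rintro ⟨-, h1, h2⟩
      exact ne2 (h1.symm.trans h2)
    rw [if_neg z1, if_neg z2]
    ring
  · rw [← h]
    have z1 : ∀ P : Prop, ¬ (P ∧ proj t (s (x 3)) = {0, 1} ∧
        proj t (s (x 3)) = {0, 1, 2}) := by
      rintro P ⟨-, h1, h2⟩
      exact ne2 (h1.symm.trans h2)
    rw [if_neg (z1 (proj t (s (x 2)) = {0})), if_neg (z1 (proj t (s (x 1)) = {0}))]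
    ring

/-- The tuple of a permutation. -/
noncomputable def tup (t : T) (σ : Equiv.Perm (Fin 4)) : Fin 5 → V :=
  ![c t, c (Y t {σ 0}), c (Y t {σ 0, σ 1}), c (Y t {σ 0, σ 1, σ 2}), c (neg t)]

/-- The cycle of a simplicial chamber. -/
noncomputable def topz (t : T) : (Fin 5 → V) →₀ ℤ :=
  ∑ σ : Equiv.Perm (Fin 4), (Equiv.Perm.sign σ : ℤ) • Finsupp.single (tup t σ) 1

theorem sign_sum {M : Type} [AddCommGroup M] [IsAddTorsionFree M] (g : Equiv.Perm (Fin 4) → M) (i j : Fin 4)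
    (hij : i ≠ j) (h : ∀ σ, g (σ * Equiv.swap i j) = g σ) :
    ∑ σ : Equiv.Perm (Fin 4), (Equiv.Perm.sign σ : ℤ) • g σ = 0 := by
  have h1 : ∑ σ : Equiv.Perm (Fin 4), (Equiv.Perm.sign σ : ℤ) • g σ =
      -∑ σ : Equiv.Perm (Fin 4), (Equiv.Perm.sign σ : ℤ) • g σ := by
    conv_lhs => rw [← Equiv.sum_comp (Equiv.mulRight (Equiv.swap i j))]
    rw [← Finset.sum_neg_distrib]
    refine Finset.sum_congr rfl fun σ _ => ?_
    simp only [Equiv.coe_mulRight]
    rw [h, Equiv.Perm.sign_mul, Equiv.Perm.sign_swap hij]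
    simp
  exact self_eq_neg.1 h1

theorem tup_facts (t : T) (ht : topOk t) (σ : Equiv.Perm (Fin 4)) :
    tup t σ ∈ Tuples G 4 6 ∧
      btw (c t) (c (Y t {σ 0})) (c (Y t {σ 0, σ 1})) ∧
      btw (c (Y t {σ 0})) (c (Y t {σ 0, σ 1})) (c (Y t {σ 0, σ 1, σ 2})) ∧
      btw (c (Y t {σ 0, σ 1})) (c (Y t {σ 0, σ 1, σ 2})) (c (neg t)) := by
  obtain ⟨y0, yu, hY⟩ := top_facts t ht
  obtain ⟨o, on, h6, -⟩ := top_ok t ht
  have hdist := top_dist t ht
  have inj : ∀ i j : Fin 4, i ≠ j → σ i ≠ σ j := fun i j h h' => h (σ.injective h')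
  have s12 : ({σ 0} : Finset (Fin 4)) ⊆ {σ 0, σ 1} := by
    intro i hi
    simp only [Finset.mem_insert, Finset.mem_singleton] at hi ⊢
    exact Or.inl hi
  have s23 : ({σ 0, σ 1} : Finset (Fin 4)) ⊆ {σ 0, σ 1, σ 2} := by
    intro i hi
    simp only [Finset.mem_insert, Finset.mem_singleton] at hi ⊢
    rcases hi with h | h
    · exact Or.inl h
    · exact Or.inr (Or.inl h)
  have d01 := hdist ∅ {σ 0} (Finset.empty_subset _)
  have d12 := hdist {σ 0} {σ 0, σ 1} s12
  have d23 := hdist {σ 0, σ 1} {σ 0, σ 1, σ 2} s23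
  have d13 := hdist {σ 0} {σ 0, σ 1, σ 2} (s12.trans s23)
  have d34 := hdist {σ 0, σ 1, σ 2} Finset.univ (Finset.subset_univ _)
  have d24 := hdist {σ 0, σ 1} Finset.univ (Finset.subset_univ _)
  rw [y0] at d01
  rw [yu, h6] at d34 d24
  have hself : D t t = 0 := hammingDist_self _
  have ne : ∀ S S' : Finset (Fin 4), S ≠ S' → c (Y t S) ≠ c (Y t S') := by
    intro S S' h h'
    have h1 := congrArg s h'
    rw [s_c (hY S).1, s_c (hY S').1] at h1
    have h2 := congrArg (proj t) h1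
    rw [(hY S).2, (hY S').2] at h2
    exact h h2
  have n01 : c t ≠ c (Y t {σ 0}) := by
    have := ne ∅ {σ 0} (Finset.singleton_ne_empty _).symm
    rwa [y0] at this
  have n12 : c (Y t {σ 0}) ≠ c (Y t {σ 0, σ 1}) := by
    apply ne
    intro h
    have : σ 1 ∈ ({σ 0} : Finset (Fin 4)) := by
      rw [h]
      simp
    exact inj 1 0 (by decide) (Finset.mem_singleton.1 this)
  have n23 : c (Y t {σ 0, σ 1}) ≠ c (Y t {σ 0, σ 1, σ 2}) := by
    apply ne
    intro h
    have : σ 2 ∈ ({σ 0, σ 1} : Finset (Fin 4)) := by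
      rw [h]
      simp
    simp only [Finset.mem_insert, Finset.mem_singleton] at this
    rcases this with h | h
    · exact inj 2 0 (by decide) h
    · exact inj 2 1 (by decide) h
  have n34 : c (Y t {σ 0, σ 1, σ 2}) ≠ c (neg t) := by
    have h3 : ({σ 0, σ 1, σ 2} : Finset (Fin 4)) ≠ Finset.univ := by
      intro h
      have : σ 3 ∈ ({σ 0, σ 1, σ 2} : Finset (Fin 4)) := by
        rw [h]
        simp
      simp only [Finset.mem_insert, Finset.mem_singleton] at this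
      rcases this with h | h | h
      · exact inj 3 0 (by decide) h
      · exact inj 3 1 (by decide) h
      · exact inj 3 2 (by decide) h
    have := ne _ _ h3
    rwa [yu] at this
  refine ⟨?_, ?_, ?_, ?_⟩
  · refine mem_tuples_four n01 n12 n23 n34 ?_
    rw [s_c o, s_c on, s_c (hY _).1, s_c (hY _).1, s_c (hY _).1]
    omega
  · rw [btw_iff, s_c o, s_c (hY _).1, s_c (hY _).1]
    omega
  · rw [btw_iff, s_c (hY _).1, s_c (hY _).1, s_c (hY _).1]
    omega
  · rw [btw_iff, s_c on, s_c (hY _).1, s_c (hY _).1]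
    omega

theorem topz_mem (t : T) (ht : topOk t) : topz t ∈ cyc G 4 6 := by
  refine ⟨?_, ?_⟩
  · rw [topz]
    refine Submodule.sum_mem _ fun σ _ => Submodule.smul_mem _ _ ?_
    exact Finsupp.single_mem_supported ℤ 1 (tup_facts t ht σ).1
  · rw [SetLike.mem_coe, LinearMap.mem_ker, topz, map_sum]
    have h1 : ∀ σ : Equiv.Perm (Fin 4), bd G 3 ((Equiv.Perm.sign σ : ℤ) • Finsupp.single (tup t σ) 1)
        = (Equiv.Perm.sign σ : ℤ) • (-Finsupp.single ![c t, c (Y t {σ 0, σ 1}),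
            c (Y t {σ 0, σ 1, σ 2}), c (neg t)] (1 : ℤ)) +
          (Equiv.Perm.sign σ : ℤ) • (Finsupp.single ![c t, c (Y t {σ 0}),
            c (Y t {σ 0, σ 1, σ 2}), c (neg t)] (1 : ℤ)) +
          (Equiv.Perm.sign σ : ℤ) • (-Finsupp.single ![c t, c (Y t {σ 0}),
            c (Y t {σ 0, σ 1}), c (neg t)] (1 : ℤ)) := by
      intro σ
      obtain ⟨-, b1, b2, b3⟩ := tup_facts t ht σ
      rw [map_smul, tup, bd_four, if_pos b1, if_pos b2, if_pos b3]
      rw [← smul_add, ← smul_add]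
      congr 1
      abel
    rw [Finset.sum_congr rfl fun σ _ => h1 σ, Finset.sum_add_distrib, Finset.sum_add_distrib]
    have m0 : ∀ (σ : Equiv.Perm (Fin 4)) (i j k : Fin 4), (σ * Equiv.swap i j) k =
        σ (Equiv.swap i j k) := fun σ i j k => rfl
    rw [sign_sum _ 0 1 (by decide), sign_sum _ 1 2 (by decide), sign_sum _ 2 3 (by decide)]
    · simp
    · intro σ
      have a0 : (σ * Equiv.swap 2 3 : Equiv.Perm (Fin 4)) 0 = σ 0 := by rw [m0]; rfl
      have a1 : (σ * Equiv.swap 2 3 : Equiv.Perm (Fin 4)) 1 = σ 1 := by rw [m0]; rfl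
      rw [a0, a1]
    · intro σ
      have a0 : (σ * Equiv.swap 1 2 : Equiv.Perm (Fin 4)) 0 = σ 0 := by rw [m0]; rfl
      have a1 : (σ * Equiv.swap 1 2 : Equiv.Perm (Fin 4)) 1 = σ 2 := by rw [m0]; rfl
      have a2 : (σ * Equiv.swap 1 2 : Equiv.Perm (Fin 4)) 2 = σ 1 := by rw [m0]; rfl
      rw [a0, a1, a2, Finset.pair_comm (σ 2) (σ 1)]
    · intro σ
      have a0 : (σ * Equiv.swap 0 1 : Equiv.Perm (Fin 4)) 0 = σ 1 := by rw [m0]; rfl
      have a1 : (σ * Equiv.swap 0 1 : Equiv.Perm (Fin 4)) 1 = σ 0 := by rw [m0]; rfl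
      have a2 : (σ * Equiv.swap 0 1 : Equiv.Perm (Fin 4)) 2 = σ 2 := by rw [m0]; rfl
      rw [a0, a1, a2, Finset.pair_comm (σ 1) (σ 0), Finset.insert_comm (σ 1) (σ 0)]

theorem fn_topz (F : V → V → V → V → V → ℤ) (t : T) : fn F (topz t) =
    ∑ σ : Equiv.Perm (Fin 4), (Equiv.Perm.sign σ : ℤ) * F (c t) (c (Y t {σ 0}))
      (c (Y t {σ 0, σ 1})) (c (Y t {σ 0, σ 1, σ 2})) (c (neg t)) := by
  rw [topz, map_sum]
  refine Finset.sum_congr rfl fun σ _ => ?_
  rw [map_smul, fn_single]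
  rfl

theorem topF_topz (t u : T) (hu : topOk u) : fn (topF t) (topz u) = if t = u then 1 else 0 := by
  obtain ⟨o, on, -, -⟩ := top_ok u hu
  obtain ⟨-, -, hY⟩ := top_facts u hu
  rw [fn_topz]
  by_cases h : t = u
  · subst h
    rw [if_pos rfl, ← perm_sum]
    refine Finset.sum_congr rfl fun σ _ => ?_
    rw [topF, s_c o, s_c on, s_c (hY _).1, s_c (hY _).1, s_c (hY _).1, (hY _).2, (hY _).2, (hY _).2]
    simp
  · rw [if_neg h]
    refine Finset.sum_eq_zero fun σ _ => ?_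
    rw [topF, if_neg, mul_zero]
    rintro ⟨h1, -⟩
    rw [s_c o] at h1
    exact h h1.symm

theorem hexF_topz (t u : T) (hu : topOk u) : fn (hexF t) (topz u) = 0 := by
  obtain ⟨o, on, -, hne⟩ := top_ok u hu
  rw [fn_topz]
  refine Finset.sum_eq_zero fun σ _ => ?_
  rw [hexF, if_neg, mul_zero]
  rintro ⟨h1, -, h2⟩
  rw [s_c o] at h1
  rw [s_c on] at h2
  exact hne (h2.trans h1.symm)

theorem topF_hexz (t u : T) (ht : topOk t) (hu : hexOk u) : fn (topF t) (hexz u) = 0 := by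
  obtain ⟨o0, o3, o1, o5, -⟩ := hex_facts u hu
  obtain ⟨-, -, -, hne⟩ := top_ok t ht
  have key : ∀ a b : V, fn (topF t) (Finsupp.single ![c u, a, c (opp u), b, c u] 1) = 0 := by
    intro a b
    rw [fn_single]
    simp only [Matrix.cons_val]
    rw [topF, s_c o0, if_neg]
    rintro ⟨h1, h2, -⟩
    exact hne (h2.symm.trans h1)
  rw [hexz, map_add, map_sub, map_sub, key, key, key, key]
  ring

/-- Index set of the classes. -/
abbrev J : Type := {t : T // hexOk t} ⊕ {t : T // topOk t}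

theorem card_J : Fintype.card J = 48 := by
  rw [Fintype.card_sum, Fintype.card_subtype, Fintype.card_subtype]
  have h1 : (Finset.univ.filter fun t : T => hexOk t).card = 36 := by decide +kernel
  have h2 : (Finset.univ.filter fun t : T => topOk t).card = 12 := by decide +kernel
  rw [h1, h2]

theorem beta_big : 48 ≤ beta G 4 6 := by
  rw [← card_J]
  refine card_le_beta G 4 6 (Sum.elim (fun t => hexz t.1) (fun t => topz t.1)) ?_
    (Sum.elim (fun t => fn (hexF t.1)) (fun t => fn (topF t.1))) ?_ ?_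
  · rintro (t | t)
    · exact hexz_mem t.1 t.2
    · exact topz_mem t.1 t.2
  · rintro (t | t)
    · exact hex_vanish t.1 t.2
    · exact top_vanish t.1 t.2
  · rintro (t | t) (u | u)
    · simp only [Sum.elim_inl]
      rw [hexF_hexz t.1 u.1 u.2]
      by_cases h : t = u
      · subst h; simp
      · rw [if_neg fun h' => h (Subtype.ext h'), if_neg fun h' => h (Sum.inl_injective h')]
    · simp only [Sum.elim_inl, Sum.elim_inr]
      rw [hexF_topz t.1 u.1 u.2]
      simp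
    · simp only [Sum.elim_inl, Sum.elim_inr]
      rw [topF_hexz t.1 u.1 t.2 u.2]
      simp
    · simp only [Sum.elim_inr]
      rw [topF_topz t.1 u.1 u.2]
      by_cases h : t = u
      · subst h; simp
      · rw [if_neg fun h' => h (Subtype.ext h'), if_neg fun h' => h (Sum.inr_injective h')]

end Pool.Agent.R142.Ex42
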