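import Mathlib

/-!
# The magnitude of a finite graph
-/

set_option autoImplicit false

namespace Pool.Agent.R142.Mag

/-- The matrix with entries `q^{d(x,y)}`, over the field `ℚ(q)`. -/
noncomputable def Z {V : Type} (G : SimpleGraph V) : Matrix V V (RatFunc ℚ) :=
  Matrix.of fun x y => RatFunc.X ^ G.dist x y

open Classical in
/-- The magnitude of a finite graph: the sum of the entries of the inverse of `Z`. -/
noncomputable def magnitude {V : Type} (G : SimpleGraph V) : RatFunc ℚ :=
  if _h : Finite V then
    letI := Fintype.ofFinite V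
    ∑ x, ∑ y, (Z G)⁻¹ x y
  else 0

/-- Vertex-transitive: the automorphisms act transitively on the vertices. -/
def VertexTransitive {V : Type} (G : SimpleGraph V) : Prop :=
  ∀ x y : V, ∃ e : G ≃g G, e x = y

section

variable {V : Type} [Fintype V] [DecidableEq V] (G : SimpleGraph V)

theorem det_ne_zero (h : ∀ x y, G.dist x y = 0 → x = y) : (Z G).det ≠ 0 := by
  let P : Matrix V V (Polynomial ℚ) := Matrix.of fun x y => Polynomial.X ^ G.dist x y
  have h1 : Z G = (algebraMap (Polynomial ℚ) (RatFunc ℚ)).mapMatrix P := by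
    ext x y
    simp [Z, P]
  have h2 : (Polynomial.evalRingHom (0 : ℚ)).mapMatrix P = 1 := by
    ext x y
    simp only [RingHom.mapMatrix_apply, Matrix.map_apply, P, Matrix.of_apply,
      Polynomial.coe_evalRingHom, Polynomial.eval_pow, Polynomial.eval_X]
    by_cases hxy : x = y
    · subst hxy
      simp
    · rw [Matrix.one_apply_ne hxy]
      exact zero_pow fun h0 => hxy (h x y h0)
  have h3 : P.det ≠ 0 := by
    intro h0
    have := congrArg (Polynomial.evalRingHom (0 : ℚ)) h0
    rw [RingHom.map_det, h2, Matrix.det_one, map_zero] at this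
    exact one_ne_zero this
  rw [h1, ← RingHom.map_det]
  intro h0
  exact h3 ((map_eq_zero_iff _ (RatFunc.algebraMap_injective ℚ)).1 h0)

/-- A weighting. -/
def IsWeighting (w : V → RatFunc ℚ) : Prop :=
  ∀ x, ∑ y, RatFunc.X ^ G.dist x y * w y = 1

theorem weighting_eq (h : ∀ x y, G.dist x y = 0 → x = y) {w : V → RatFunc ℚ}
    (hw : IsWeighting G w) : w = Matrix.mulVec (Z G)⁻¹ (fun _ => 1) := by
  have hu : IsUnit (Z G).det := (det_ne_zero G h).isUnit
  have h1 : Matrix.mulVec (Z G) w = fun _ => 1 := by
    funext x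
    exact hw x
  rw [← h1, Matrix.mulVec_mulVec, Matrix.nonsing_inv_mul _ hu, Matrix.one_mulVec]

theorem weighting_unique (h : ∀ x y, G.dist x y = 0 → x = y) {w w' : V → RatFunc ℚ}
    (hw : IsWeighting G w) (hw' : IsWeighting G w') : w = w' := by
  rw [weighting_eq G h hw, weighting_eq G h hw']

theorem dist_iso (e : G ≃g G) (x y : V) : G.dist (e x) (e y) = G.dist x y := by
  have key : ∀ (e : G ≃g G) (x y : V), G.Reachable x y → G.dist (e x) (e y) ≤ G.dist x y := by
    intro e x y hr
    obtain ⟨p, hp⟩ := hr.exists_walk_length_eq_dist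
    rw [← hp, ← SimpleGraph.Walk.length_map e.toHom p]
    exact SimpleGraph.dist_le _
  by_cases hr : G.Reachable x y
  · apply le_antisymm (key e x y hr)
    have h2 : G.Reachable (e x) (e y) := hr.map e.toHom
    have := key e.symm _ _ h2
    simpa using this
  · have h2 : ¬ G.Reachable (e x) (e y) := by
      intro h2
      apply hr
      have := h2.map e.symm.toHom
      simpa using this
    rw [SimpleGraph.dist_eq_zero_of_not_reachable hr, SimpleGraph.dist_eq_zero_of_not_reachable h2]

theorem weighting_const (h : ∀ x y, G.dist x y = 0 → x = y) (hvt : VertexTransitive G)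
    {w : V → RatFunc ℚ} (hw : IsWeighting G w) (x y : V) : w x = w y := by
  obtain ⟨e, rfl⟩ := hvt x y
  have h2 : IsWeighting G (fun z => w (e z)) := by
    intro z
    rw [← hw (e z), ← Equiv.sum_comp e.toEquiv (fun y => RatFunc.X ^ G.dist (e z) y * w y)]
    refine Finset.sum_congr rfl fun t _ => ?_
    have : G.dist (e z) (e.toEquiv t) = G.dist z t := dist_iso G e z t
    rw [this]
    rfl
  exact congrFun (weighting_unique G h hw h2) x

end

theorem magnitude_eq {V : Type} [inst : Fintype V] (G : SimpleGraph V)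
    (h : ∀ x y, G.dist x y = 0 → x = y) {w : V → RatFunc ℚ}
    (hw : IsWeighting G w) : magnitude G = ∑ x, w x := by
  classical
  have hfin : Finite V := inferInstance
  have hi : inst = Fintype.ofFinite V := Subsingleton.elim _ _
  rw [magnitude, dif_pos hfin]
  have h1 := weighting_eq G h hw
  rw [h1]
  have h2 : ∀ x, Matrix.mulVec (Z G)⁻¹ (fun _ => (1 : RatFunc ℚ)) x = ∑ y, (Z G)⁻¹ x y := by
    intro x
    simp [Matrix.mulVec, dotProduct]
  simp only [h2]
  subst hi
  rfl
end Pool.Agent.R142.Mag
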