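import Pool.Agent.R142.OrdNewton

/-! The converse: the coefficient from the Newton polygon. -/

set_option autoImplicit false

namespace Pool.Agent.R142.Ord

open Polynomial Pool.Agent.W528.Ord

section

variable {p : ℕ} [Fact p.Prime]

theorem norm_sum_le (r : ℝ) (hr : 0 ≤ r) (s : Multiset (PadicAlgCl p)) (h : ∀ y ∈ s, ‖y‖ ≤ r) :
    ‖s.sum‖ ≤ r := by
  induction s using Multiset.induction_on with
  | empty => simpa using hr
  | cons a s ih =>
    rw [Multiset.sum_cons]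
    refine (IsUltrametricDist.norm_add_le_max _ _).trans (max_le ?_ ?_)
    · exact h a (Multiset.mem_cons_self a s)
    · exact ih fun y hy => h y (Multiset.mem_cons_of_mem hy)

theorem norm_add_of_lt (x y : PadicAlgCl p) (h : ‖y‖ < ‖x‖) : ‖x + y‖ = ‖x‖ := by
  rw [IsUltrametricDist.norm_add_eq_max_of_norm_ne_norm h.ne', max_eq_left h.le]

theorem q_lt : (0 : ℝ) < 1 / (p : ℝ) ∧ (1 / (p : ℝ)) < 1 := by
  have hp : p.Prime := Fact.out
  have hp1 : (1 : ℝ) < p := by exact_mod_cast hp.one_lt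
  refine ⟨by positivity, ?_⟩
  rw [div_lt_one (by linarith)]
  exact hp1

theorem coeff_of_k3 (a m : ℕ) (F : ℤ[X]) (hm : F.Monic) (hn : F.natDegree = m + 2)
    (h : NewtonSlopes p F (k3Slopes a m : Multiset ℕ)) : ¬ (p : ℤ) ^ (a + 1) ∣ F.coeff (m + 1) := by
  classical
  obtain ⟨hq0, hq1⟩ := q_lt (p := p)
  obtain ⟨_, h⟩ := h
  set f := F.map (Int.castRingHom (PadicAlgCl p)) with hf
  have hfm : f.Monic := hm.map _
  have hfn : f.natDegree = m + 2 := by rw [hf, hm.natDegree_map, hn]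
  unfold k3Slopes at h
  rw [← Multiset.cons_coe, Multiset.map_cons] at h
  obtain ⟨y, hy, hyn, hs⟩ := (Multiset.map_eq_cons _ _ _ _).mpr h
  have hsum : f.roots.sum = y + (f.roots.erase y).sum := by
    rw [← Multiset.sum_cons, Multiset.cons_erase hy]
  have hrest : ‖(f.roots.erase y).sum‖ ≤ (1 / (p : ℝ)) ^ (a + 1) := by
    apply norm_sum_le _ (by positivity)
    intro z hz
    have h1 : ‖z‖ ∈ (f.roots.erase y).map fun y => ‖y‖ := Multiset.mem_map_of_mem _ hz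
    rw [hs, Multiset.mem_map] at h1
    obtain ⟨b, hb, hbz⟩ := h1
    rw [Multiset.mem_coe, List.mem_append, List.mem_replicate, List.mem_singleton] at hb
    rw [← hbz]
    apply pow_le_pow_of_le_one hq0.le hq1.le
    omega
  have hnorm : ‖f.roots.sum‖ = (1 / (p : ℝ)) ^ a := by
    rw [hsum, norm_add_of_lt, hyn]
    rw [hyn]
    refine lt_of_le_of_lt hrest ?_
    exact pow_lt_pow_right_of_lt_one₀ hq0 hq1 (by omega)
  have hnext : f.coeff (m + 1) = - f.roots.sum := by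
    have h1 := (IsAlgClosed.splits f).nextCoeff_eq_neg_sum_roots_of_monic hfm
    rw [← h1, nextCoeff_of_natDegree_pos (by omega), hfn]
    rfl
  intro hdvd
  have h2 := norm_le_of_dvd (p := p) _ _ hdvd
  have h3 : ‖f.coeff (m + 1)‖ = ‖(F.coeff (m + 1) : PadicAlgCl p)‖ := by
    rw [hf, coeff_map]
    rfl
  rw [← h3, hnext, norm_neg, hnorm] at h2
  have h4 := pow_lt_pow_right_of_lt_one₀ hq0 hq1 (Nat.lt_succ_self a)
  exact absurd h2 (not_le.mpr h4)

theorem coeff_of_ab (a : ℕ) (F : ℤ[X]) (hm : F.Monic)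
    (h : NewtonSlopes p F (abSlopes a : Multiset ℕ)) : ¬ (p : ℤ) ^ (2 * a + 1) ∣ F.coeff 2 := by
  classical
  obtain ⟨hq0, hq1⟩ := q_lt (p := p)
  obtain ⟨_, h⟩ := h
  set q : ℝ := 1 / (p : ℝ) with hq
  set f := F.map (Int.castRingHom (PadicAlgCl p)) with hf
  have hfm : f.Monic := hm.map _
  unfold abSlopes at h
  rw [← Multiset.cons_coe, Multiset.map_cons] at h
  obtain ⟨y₁, hy₁, hn₁, hs₁⟩ := (Multiset.map_eq_cons _ _ _ _).mpr h
  rw [← Multiset.cons_coe, Multiset.map_cons] at hs₁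
  obtain ⟨y₂, hy₂, hn₂, hs₂⟩ := (Multiset.map_eq_cons _ _ _ _).mpr hs₁
  rw [← Multiset.cons_coe, Multiset.map_cons] at hs₂
  obtain ⟨y₃, hy₃, hn₃, hs₃⟩ := (Multiset.map_eq_cons _ _ _ _).mpr hs₂
  rw [← Multiset.cons_coe, Multiset.map_cons] at hs₃
  obtain ⟨y₄, hy₄, hn₄, hs₄⟩ := (Multiset.map_eq_cons _ _ _ _).mpr hs₃
  have h0 : (((f.roots.erase y₁).erase y₂).erase y₃).erase y₄ = 0 := by
    rw [← Multiset.card_eq_zero, ← Multiset.card_map (fun y => ‖y‖), hs₄]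
    rfl
  have hroots : f.roots = y₁ ::ₘ y₂ ::ₘ y₃ ::ₘ y₄ ::ₘ 0 := by
    rw [← h0, Multiset.cons_erase hy₄, Multiset.cons_erase hy₃, Multiset.cons_erase hy₂,
      Multiset.cons_erase hy₁]
  have hprod : f = (X - C y₁) * (X - C y₂) * (X - C y₃) * (X - C y₄) := by
    conv_lhs => rw [(IsAlgClosed.splits f).eq_prod_roots, hfm.leadingCoeff, C_1, one_mul, hroots]
    simp only [Multiset.map_cons, Multiset.map_zero, Multiset.prod_cons, Multiset.prod_zero]
    ring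
  have hexp : f = X ^ 4 - C (y₁ + y₂ + y₃ + y₄) * X ^ 3 +
      C (y₁ * y₂ + ((y₁ + y₂) * (y₃ + y₄) + y₃ * y₄)) * X ^ 2 -
      C (y₁ * y₂ * y₃ + y₁ * y₂ * y₄ + y₁ * y₃ * y₄ + y₂ * y₃ * y₄) * X ^ 1 +
      C (y₁ * y₂ * y₃ * y₄) * X ^ 0 := by
    rw [hprod]
    simp only [C_add, C_mul]
    ring
  have hc : f.coeff 2 = y₁ * y₂ + ((y₁ + y₂) * (y₃ + y₄) + y₃ * y₄) := by
    rw [hexp]
    simp only [coeff_add, coeff_sub, coeff_C_mul, coeff_X_pow]
    norm_num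
  have hb1 : ‖y₁ * y₂‖ = q ^ (2 * a) := by
    rw [norm_mul, hn₁, hn₂, ← pow_add]
    congr 1
    ring
  have hb2 : ‖(y₁ + y₂) * (y₃ + y₄) + y₃ * y₄‖ ≤ q ^ (2 * a + 1) := by
    refine (IsUltrametricDist.norm_add_le_max _ _).trans (max_le ?_ ?_)
    · rw [norm_mul]
      have h1 : ‖y₁ + y₂‖ ≤ q ^ a := (IsUltrametricDist.norm_add_le_max _ _).trans
        (max_le hn₁.le hn₂.le)
      have h2 : ‖y₃ + y₄‖ ≤ q ^ (a + 1) := (IsUltrametricDist.norm_add_le_max _ _).trans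
        (max_le hn₃.le hn₄.le)
      calc ‖y₁ + y₂‖ * ‖y₃ + y₄‖ ≤ q ^ a * q ^ (a + 1) := by gcongr
        _ = q ^ (2 * a + 1) := by rw [← pow_add]; congr 1; ring
    · rw [norm_mul, hn₃, hn₄, ← pow_add]
      apply pow_le_pow_of_le_one hq0.le hq1.le
      omega
  have hlt : q ^ (2 * a + 1) < q ^ (2 * a) := pow_lt_pow_right_of_lt_one₀ hq0 hq1 (Nat.lt_succ_self _)
  have hnorm : ‖f.coeff 2‖ = q ^ (2 * a) := by
    rw [hc, norm_add_of_lt, hb1]
    rw [hb1]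
    exact lt_of_le_of_lt hb2 hlt
  intro hdvd
  have h2 := norm_le_of_dvd (p := p) _ _ hdvd
  have h3 : ‖f.coeff 2‖ = ‖(F.coeff 2 : PadicAlgCl p)‖ := by
    rw [hf, coeff_map]
    rfl
  rw [← h3, hnorm] at h2
  exact absurd h2 (not_le.mpr hlt)

/-- from one prime `ℓ` and one embedding to the polynomial -/
theorem slopes_of_tau {ℓ : ℕ} [Fact ℓ.Prime] {r : ℕ} (M : Matrix (Fin r) (Fin r) ℚ_[ℓ])
    (τ : algebraicClosure ℚ (PadicAlgCl ℓ) →+* PadicAlgCl p) (H : Multiset ℕ) (F : ℤ[X])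
    (hM : M.charpoly = F.map (Int.castRingHom ℚ_[ℓ])) (h : NewtonTau M τ H) : NewtonSlopes p F H := by
  obtain ⟨e, he, heH⟩ := h
  haveI : IsAlgClosed (algebraicClosure ℚ (PadicAlgCl ℓ)) :=
    (algebraicClosure.isAlgClosure ℚ (PadicAlgCl ℓ)).isAlgClosed
  have hinj : Function.Injective (algebraMap (algebraicClosure ℚ (PadicAlgCl ℓ)) (PadicAlgCl ℓ)) :=
    fun x y h => Subtype.ext h
  have h1 : ((F.map (Int.castRingHom (algebraicClosure ℚ (PadicAlgCl ℓ)))).roots).map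
      (algebraMap _ (PadicAlgCl ℓ)) = (M.charpoly.map (algebraMap ℚ_[ℓ] (PadicAlgCl ℓ))).roots := by
    rw [← Splits.roots_map (IsAlgClosed.splits _), Polynomial.map_map, hM, Polynomial.map_map]
    congr 2
  have h2 : e = (F.map (Int.castRingHom (algebraicClosure ℚ (PadicAlgCl ℓ)))).roots :=
    Multiset.map_injective hinj (he.trans h1.symm)
  refine ⟨inferInstance, ?_⟩
  rw [← heH, h2]
  have : (F.map (Int.castRingHom (PadicAlgCl p))).roots =
      ((F.map (Int.castRingHom (algebraicClosure ℚ (PadicAlgCl ℓ)))).roots).map τ := by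
    rw [← Splits.roots_map (IsAlgClosed.splits _), Polynomial.map_map]
    congr 2
    exact RingHom.ext_int _ _
  rw [this, Multiset.map_map]
  rfl

theorem exists_tau' (ℓ : ℕ) [Fact ℓ.Prime] :
    Nonempty (algebraicClosure ℚ (PadicAlgCl ℓ) →+* PadicAlgCl p) := by
  have : Algebra.IsAlgebraic ℚ (algebraicClosure ℚ (PadicAlgCl ℓ)) :=
    (algebraicClosure.isAlgClosure ℚ (PadicAlgCl ℓ)).isAlgebraic
  exact ⟨(IsAlgClosed.lift (R := ℚ) (S := algebraicClosure ℚ (PadicAlgCl ℓ))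
    (M := PadicAlgCl p)).toRingHom⟩

end

end Pool.Agent.R142.Ord
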