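import Pool.Agent.R142.OrdMain
import Pool.Agent.R142.OrdConv

/-! Families of realisations, all but one of Tate type. -/

set_option autoImplicit false

namespace Pool.Agent.R142.Ord

open NumberField IsDedekindDomain Polynomial Filter Topology
open Pool.Agent.W401.Cheb Pool.Agent.W528.Ord

theorem newton_tate {p : ℕ} [Fact p.Prime] (b n : ℕ) (F : ℤ[X]) (hm : F.Monic) (hn : F.natDegree = n)
    (hW : ∀ z : ℂ, (F.map (Int.castRingHom ℂ)).IsRoot z → ‖z‖ ^ 2 = (p : ℝ) ^ (2 * b))
    (hMaz : ∀ k ≤ n, (p : ℤ) ^ ((List.replicate n b).take k).sum ∣ F.coeff (n - k)) :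
    NewtonSlopes p F (List.replicate n b : Multiset ℕ) := by
  have hp : p.Prime := Fact.out
  refine newton F n (2 * b) hm hn hW (List.replicate n b) ?_ (by simp) ?_ hMaz 0 (Nat.zero_le n)
    ?_ ?_ ?_
  · exact List.pairwise_replicate.mpr (Or.inr le_rfl)
  · simp
    ring
  · intro k hk0 hk hlt
    rw [List.getD_eq_getElem _ _ (by simpa using (by omega : k - 1 < n)),
      List.getD_eq_getElem _ _ (by simpa using hk), List.getElem_replicate,
      List.getElem_replicate] at hlt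
    exact absurd hlt (lt_irrefl _)
  · simp
    ring
  · have h1 : F.coeff (n - 0) = 1 := by
      rw [Nat.sub_zero, ← hn]
      exact hm.coeff_natDegree
    rw [h1]
    simp only [List.take_zero, List.sum_nil, zero_add, pow_one]
    intro h
    have h2 : (p : ℤ) = 1 := Int.eq_one_of_dvd_one (by positivity) h
    have h3 : p = 1 := by exact_mod_cast h2
    exact hp.one_lt.ne' h3

variable {K : Type} [Field K] [NumberField K]

theorem not_mem_of_ne (v : HeightOneSpectrum (𝓞 K)) (p ℓ : ℕ) (hp : p.Prime) (hℓ : ℓ.Prime)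
    (hv : Ideal.absNorm v.asIdeal = p) (hne : p ≠ ℓ) : (ℓ : 𝓞 K) ∉ v.asIdeal := by
  intro h
  have h1 : (p : 𝓞 K) ∈ v.asIdeal := hv ▸ Ideal.absNorm_mem v.asIdeal
  apply v.isPrime.ne_top
  rw [Ideal.eq_top_iff_one]
  have h2 : IsCoprime (p : ℤ) (ℓ : ℤ) := Nat.isCoprime_iff_coprime.mpr ((Nat.coprime_primes hp hℓ).mpr hne)
  obtain ⟨x, y, hxy⟩ := h2
  have h3 : (1 : 𝓞 K) = (x : 𝓞 K) * (p : 𝓞 K) + (y : 𝓞 K) * (ℓ : 𝓞 K) := by
    have := congrArg (fun z : ℤ => (z : 𝓞 K)) hxy
    push_cast at this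
    exact this.symm
  rw [h3]
  exact Ideal.add_mem _ (Ideal.mul_mem_left _ _ h1) (Ideal.mul_mem_left _ _ h)

theorem infinite_of (P : HeightOneSpectrum (𝓞 K) → Prop) (δ : ℝ) (hδ : 0 < δ)
    (h : δ ≤ lowerDensity P) : {v | P v}.Infinite := by
  intro hfin
  have h1 := dens_finite P hfin
  have h2 : ∀ᶠ N : ℕ in atTop, ratio P N ≤ δ / 2 := by
    filter_upwards [h1.eventually (gt_mem_nhds (show (0:ℝ) < δ / 4 by positivity)), ratio_eq P,
      (dens_true' (K := K)).eventually (lt_mem_nhds (show (1/2:ℝ) < 1 by norm_num))] with N hN hN2 hN3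
    rw [hN2]
    have hpos : (0:ℝ) < (Nat.card {v : HeightOneSpectrum (𝓞 K) // Ideal.absNorm v.asIdeal ≤ N} : ℝ) /
      (Nat.primeCounting N : ℝ) := by linarith
    rw [div_le_iff₀ hpos]
    nlinarith
  have h3 : lowerDensity P ≤ δ / 2 := by
    unfold lowerDensity
    refine liminf_le_of_le ?_ ?_
    · exact ⟨0, by
        rw [eventually_map]
        exact Eventually.of_forall fun N => ratio_nonneg P N⟩
    · intro b hb
      obtain ⟨N, hN1, hN2⟩ := (hb.and h2).exists
      exact hN1.trans hN2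
  linarith

end Pool.Agent.R142.Ord
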