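import Mathlib

/-! The functional equation of an integral polynomial all of whose complex roots have the same absolute
value. -/

set_option autoImplicit false

namespace Pool.Agent.R142.Ord

open Polynomial ComplexConjugate

theorem eval_roots (f : ℂ[X]) (hm : f.Monic) (x : ℂ) :
    f.eval x = (f.roots.map fun α => x - α).prod := by
  conv_lhs => rw [(IsAlgClosed.splits f).eq_prod_roots, hm.leadingCoeff, C_1, one_mul]
  rw [eval_multiset_prod, Multiset.map_map]
  congr 1
  apply Multiset.map_congr rfl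
  intro α _
  simp

theorem eval_conj (F : ℤ[X]) (x : ℂ) :
    (F.map (Int.castRingHom ℂ)).eval (conj x) = conj ((F.map (Int.castRingHom ℂ)).eval x) := by
  rw [eval_map, eval_map, hom_eval₂]
  congr 1
  exact RingHom.ext_int _ _

/-- `F(c / t) t ^ n = F(0) F(t)` -/
theorem feq_eval (F : ℤ[X]) (n : ℕ) (hm : F.Monic) (hn : F.natDegree = n) (c : ℕ)
    (hW : ∀ z : ℂ, (F.map (Int.castRingHom ℂ)).IsRoot z → ‖z‖ ^ 2 = c) (t : ℂ) (ht : t ≠ 0) :
    t ^ n * (F.map (Int.castRingHom ℂ)).eval ((c : ℂ) / t) =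
      (F.coeff 0 : ℂ) * (F.map (Int.castRingHom ℂ)).eval t := by
  set f := F.map (Int.castRingHom ℂ) with hf
  have hfm : f.Monic := hm.map _
  have hfn : f.natDegree = n := by rw [hf, hm.natDegree_map, hn]
  have hcard : Multiset.card f.roots = n := by
    rw [← hfn]
    exact splits_iff_card_roots.mp (IsAlgClosed.splits f)
  have h0 : (F.coeff 0 : ℂ) = (f.roots.map fun α => -α).prod := by
    have := eval_roots f hfm 0
    rw [← coeff_zero_eq_eval_zero, hf, coeff_map] at this
    rw [← hf] at this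
    simpa using this
  have h1 : f.eval t = (f.roots.map fun α => t - conj α).prod := by
    have h2 := eval_conj F (conj t)
    rw [Complex.conj_conj] at h2
    rw [hf, h2, ← hf, eval_roots f hfm, map_multiset_prod, Multiset.map_map]
    congr 1
    apply Multiset.map_congr rfl
    intro α _
    simp
  have h3 : t ^ n = (f.roots.map fun _ => t).prod := by
    rw [Multiset.map_const', Multiset.prod_replicate, hcard]
  rw [eval_roots f hfm, h3, ← Multiset.prod_map_mul, h0, h1, ← Multiset.prod_map_mul]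
  congr 1
  apply Multiset.map_congr rfl
  intro α hα
  have hr : ‖α‖ ^ 2 = c := hW α (isRoot_of_mem_roots hα)
  have hc : (c : ℂ) = α * conj α := by
    rw [Complex.mul_conj, Complex.normSq_eq_norm_sq, hr]
    simp
  rw [mul_sub, mul_div_cancel₀ _ ht, hc]
  ring

/-- the functional equation for the coefficients -/
theorem feq (F : ℤ[X]) (n : ℕ) (hm : F.Monic) (hn : F.natDegree = n) (c : ℕ)
    (hW : ∀ z : ℂ, (F.map (Int.castRingHom ℂ)).IsRoot z → ‖z‖ ^ 2 = c) (k : ℕ) (hk : k ≤ n) :
    F.coeff (n - k) * (c : ℤ) ^ (n - k) = F.coeff 0 * F.coeff k := by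
  set f := F.map (Int.castRingHom ℂ) with hf
  have hfm : f.Monic := hm.map _
  have hfn : f.natDegree = n := by rw [hf, hm.natDegree_map, hn]
  set Q : ℂ[X] := ∑ i ∈ Finset.range (n + 1), C (f.coeff (n - i) * (c : ℂ) ^ (n - i)) * X ^ i with hQ
  have hQe : ∀ t : ℂ, t ≠ 0 → Q.eval t = t ^ n * f.eval ((c : ℂ) / t) := by
    intro t ht
    rw [hQ, eval_finsetSum, eval_eq_sum_range, hfn, Finset.mul_sum, ← Finset.sum_range_reflect]
    apply Finset.sum_congr rfl
    intro i hi
    rw [Finset.mem_range] at hi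
    have e1 : n + 1 - 1 - i = n - i := by omega
    have e2 : n - (n - i) = i := by omega
    rw [e1, e2, eval_mul, eval_C, eval_pow, eval_X, div_pow]
    have e3 : t ^ n = t ^ (n - i) * t ^ i := by rw [← pow_add]; congr 1; omega
    rw [e3]
    field_simp
  have hQf : Q = C (F.coeff 0 : ℂ) * f := by
    apply Polynomial.eq_of_infinite_eval_eq
    have hinf : ({0}ᶜ : Set ℂ).Infinite := Set.Finite.infinite_compl (Set.finite_singleton 0)
    refine hinf.mono ?_
    intro t ht
    have ht' : t ≠ 0 := by simpa using ht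
    show Q.eval t = (C (F.coeff 0 : ℂ) * f).eval t
    rw [hQe t ht', eval_mul, eval_C, hf, feq_eval F n hm hn c hW t ht']
  have h1 : Q.coeff k = f.coeff (n - k) * (c : ℂ) ^ (n - k) := by
    rw [hQ, finsetSum_coeff]
    rw [Finset.sum_eq_single k]
    · rw [coeff_C_mul, coeff_X_pow, if_pos rfl, mul_one]
    · intro b _ hb
      rw [coeff_C_mul, coeff_X_pow, if_neg (Ne.symm hb), mul_zero]
    · intro h
      exact absurd (Finset.mem_range.mpr (by omega)) h
  rw [hQf, coeff_C_mul, hf, coeff_map, coeff_map] at h1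
  have h2 : ((F.coeff 0 * F.coeff k : ℤ) : ℂ) = ((F.coeff (n - k) * (c : ℤ) ^ (n - k) : ℤ) : ℂ) := by
    push_cast
    simpa using h1
  exact_mod_cast h2.symm

end Pool.Agent.R142.Ord
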