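import Pool.Agent.R142.OrdNewton
import Pool.Agent.R401.Tr13
import Pool.Agent.W850.Ord.Part

/-! One place suffices: the engine. -/

set_option autoImplicit false

namespace Pool.Agent.R142.Ord

open NumberField IsDedekindDomain Polynomial Filter Topology
open Pool.Agent.W401.Cheb Pool.Agent.W528.Ord

variable {K : Type} [Field K] [NumberField K]

/-- strictly compatible realisations: at all places outside `B` (of any degree) the characteristic
polynomial of the geometric Frobenius element (the inverse of `γ`) is `F v`, for all `ℓ` not divisible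
by `v`; the realisations are continuous. -/
def Compatible (B : Set (HeightOneSpectrum (𝓞 K))) {n : ℕ}
    (R : ∀ (ℓ : ℕ) [Fact ℓ.Prime], GK K →* Matrix.GeneralLinearGroup (Fin n) ℚ_[ℓ])
    (F : HeightOneSpectrum (𝓞 K) → ℤ[X]) : Prop :=
  ∀ (ℓ : ℕ) [Fact ℓ.Prime], Continuous (R ℓ) ∧
    ∀ v : HeightOneSpectrum (𝓞 K), v ∉ B → (ℓ : 𝓞 K) ∉ v.asIdeal → ∀ γ : GK K, IsFrob v γ →
      (R ℓ γ⁻¹ : Matrix (Fin n) (Fin n) ℚ_[ℓ]).charpoly = (F v).map (Int.castRingHom ℚ_[ℓ])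

/-- weight `w`: the complex roots of `F v` have absolute value `N(v) ^ (w / 2)` -/
def Weight (B : Set (HeightOneSpectrum (𝓞 K))) (w : ℕ) (F : HeightOneSpectrum (𝓞 K) → ℤ[X]) : Prop :=
  ∀ v, v ∉ B → ∀ z : ℂ, ((F v).map (Int.castRingHom ℂ)).IsRoot z →
    ‖z‖ ^ 2 = (Ideal.absNorm v.asIdeal : ℝ) ^ w

/-- Mazur's inequality: at the places of degree one outside `B` the Newton polygon of `F v` lies on or
above the Hodge polygon with the slopes `l` -/
def Mazur (B : Set (HeightOneSpectrum (𝓞 K))) (l : List ℕ) (F : HeightOneSpectrum (𝓞 K) → ℤ[X]) : Prop :=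
  ∀ v, v ∉ B → (Ideal.absNorm v.asIdeal).Prime → ∀ k ≤ l.length,
    (Ideal.absNorm v.asIdeal : ℤ) ^ (l.take k).sum ∣ (F v).coeff (l.length - k)

theorem le_lowerDensity (P : HeightOneSpectrum (𝓞 K) → Prop) (δ : ℝ)
    (h : ∀ θ < δ, ∀ᶠ N : ℕ in atTop, θ < dens P N) : δ ≤ lowerDensity P := by
  have hco : IsCoboundedUnder (· ≥ ·) atTop (ratio P) := by
    refine IsBoundedUnder.isCoboundedUnder_ge ?_
    exact ⟨1, by
      rw [eventually_map]
      exact Eventually.of_forall fun N => ratio_le_one P N⟩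
  rcases le_or_gt δ 0 with h0 | h0
  · refine h0.trans ?_
    unfold lowerDensity
    exact le_liminf_of_le hco (Eventually.of_forall fun N => ratio_nonneg P N)
  apply le_of_forall_lt
  intro θ hθ
  obtain ⟨θ₁, h1, h2⟩ := exists_between hθ
  obtain ⟨θ₂, h3, h4⟩ := exists_between h2
  obtain ⟨θ₃, h5, h6⟩ := exists_between h4
  refine lt_of_lt_of_le h1 ?_
  unfold lowerDensity
  refine le_liminf_of_le hco ?_
  rcases le_or_gt θ₁ 0 with hz | hz
  · exact Eventually.of_forall fun N => hz.trans (ratio_nonneg P N)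
  -- ratio = dens / c with c -> 1
  have hc1 : (1 : ℝ) < θ₂ / θ₁ := (one_lt_div hz).mpr h3
  filter_upwards [h θ₂ (h5.trans h6), (dens_true' (K := K)).eventually (gt_mem_nhds hc1),
    ratio_eq P, (dens_true' (K := K)).eventually (lt_mem_nhds
      (show (1/2:ℝ) < 1 by norm_num))] with N hN hN1 hN2 hN3
  rw [hN2]
  have hpos : (0:ℝ) < (Nat.card {v : HeightOneSpectrum (𝓞 K) // Ideal.absNorm v.asIdeal ≤ N} : ℝ) /
      (Nat.primeCounting N : ℝ) := by linarith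
  rw [le_div_iff₀ hpos]
  have h7 : θ₁ * ((Nat.card {v : HeightOneSpectrum (𝓞 K) // Ideal.absNorm v.asIdeal ≤ N} : ℝ) /
      (Nat.primeCounting N : ℝ)) ≤ θ₁ * (θ₂ / θ₁) := mul_le_mul_of_nonneg_left hN1.le hz.le
  rw [mul_div_cancel₀ _ hz.ne'] at h7
  linarith

theorem exists_ell (v : HeightOneSpectrum (𝓞 K)) : ∃ ℓ : ℕ, ℓ.Prime ∧ (ℓ : 𝓞 K) ∉ v.asIdeal := by
  by_contra hcon
  push Not at hcon
  have h2 := hcon 2 Nat.prime_two
  have h3 := hcon 3 Nat.prime_three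
  apply v.isPrime.ne_top
  rw [Ideal.eq_top_iff_one]
  have : (1 : 𝓞 K) = ((3 : ℕ) : 𝓞 K) - ((2 : ℕ) : 𝓞 K) := by
    push_cast
    ring
  rw [this]
  exact Ideal.sub_mem _ h3 h2

theorem monic_of (B : Set (HeightOneSpectrum (𝓞 K))) {n : ℕ}
    (R : ∀ (ℓ : ℕ) [Fact ℓ.Prime], GK K →* Matrix.GeneralLinearGroup (Fin n) ℚ_[ℓ])
    (F : HeightOneSpectrum (𝓞 K) → ℤ[X]) (hR : Compatible B R F) (v : HeightOneSpectrum (𝓞 K))
    (hv : v ∉ B) : (F v).Monic ∧ (F v).natDegree = n := by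
  obtain ⟨ℓ, hℓ, hℓv⟩ := exists_ell v
  haveI : Fact ℓ.Prime := ⟨hℓ⟩
  obtain ⟨γ, hγ⟩ := exists_isFrob v
  have h1 := (hR ℓ).2 v hv hℓv γ hγ
  have hinj : Function.Injective (Int.castRingHom ℚ_[ℓ]) := Int.cast_injective
  have h2 := Matrix.charpoly_monic (R ℓ γ⁻¹ : Matrix (Fin n) (Fin n) ℚ_[ℓ])
  have h3 := Matrix.charpoly_natDegree_eq_dim (R ℓ γ⁻¹ : Matrix (Fin n) (Fin n) ℚ_[ℓ])
  rw [h1] at h2 h3
  rw [natDegree_map_eq_of_injective hinj, Fintype.card_fin] at h3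
  exact ⟨monic_of_injective hinj h2, h3⟩

theorem rev_coeff (F : ℤ[X]) (n j : ℕ) (hn : F.natDegree = n) (hj : j ≤ n) :
    F.reverse.coeff j = F.coeff (n - j) := by
  rw [coeff_reverse, hn, revAt_le hj]

/-- the engine in terms of the characteristic polynomials -/
theorem engine (B : Set (HeightOneSpectrum (𝓞 K))) (hB : B.Finite) {n : ℕ}
    (R : ∀ (ℓ : ℕ) [Fact ℓ.Prime], GK K →* Matrix.GeneralLinearGroup (Fin n) ℚ_[ℓ])
    (F : HeightOneSpectrum (𝓞 K) → ℤ[X]) (hR : Compatible B R F) (w : ℕ) (hW : Weight B w F)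
    (j u : ℕ) (hj : j = 1 ∨ j = 2) (hjn : j ≤ n) (hu : 2 * u = j * w)
    (v₀ : HeightOneSpectrum (𝓞 K)) (hv₀ : v₀ ∉ B)
    (h₀ : ¬ (Ideal.absNorm v₀.asIdeal : ℤ) ^ u ∣ (F v₀).coeff (n - j)) :
    1 / (n.choose j : ℝ) ^ 2 ≤ lowerDensity (fun v : HeightOneSpectrum (𝓞 K) => v ∉ B ∧
      (Ideal.absNorm v.asIdeal).Prime ∧ ¬ (Ideal.absNorm v.asIdeal : ℤ) ^ u ∣ (F v).coeff (n - j)) := by
  obtain ⟨ℓ, hℓ, hℓv⟩ := exists_ell v₀
  haveI : Fact ℓ.Prime := ⟨hℓ⟩
  have hrev : ∀ v, v ∉ B → (F v).reverse.coeff j = (F v).coeff (n - j) := fun v hv =>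
    rev_coeff _ n j (monic_of B R F hR v hv).2 hjn
  have hchoose : (0 : ℝ) < (n.choose j : ℝ) := by exact_mod_cast Nat.choose_pos hjn
  apply le_lowerDensity
  intro θ hθ
  have hθ' : θ * (n.choose j : ℝ) ^ 2 < 1 := (lt_div_iff₀ (by positivity)).1 hθ
  have hC : ∀ v, v ∉ B → |((F v).reverse.coeff j : ℝ)| ≤
      (n.choose (n - j) : ℝ) * (Ideal.absNorm v.asIdeal : ℝ) ^ u := by
    intro v hv
    obtain ⟨hm, hn⟩ := monic_of B R F hR v hv
    rw [hrev v hv]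
    set N : ℝ := (Ideal.absNorm v.asIdeal : ℝ) with hN
    have hN0 : 0 ≤ N := by rw [hN]; positivity
    have h1 := coeff_le_of_roots_le (p := F v) (f := Int.castRingHom ℂ) (B := Real.sqrt (N ^ w)) (n - j) hm
      (IsAlgClosed.splits _) (by
        intro z hz
        have h2 := hW v hv z (isRoot_of_mem_roots hz)
        rw [← h2, Real.sqrt_sq (norm_nonneg z)])
    rw [coeff_map, hn, Nat.sub_sub_self hjn] at h1
    have h3 : Real.sqrt (N ^ w) ^ j = N ^ u := by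
      have h4 : (Real.sqrt (N ^ w) ^ j) ^ 2 = (N ^ u) ^ 2 := by
        rw [← pow_mul, mul_comm j 2, pow_mul, Real.sq_sqrt (by positivity), ← pow_mul, ← pow_mul,
          mul_comm w j, ← hu, mul_comm u 2]
      exact (pow_left_inj₀ (by positivity) (by positivity) two_ne_zero).mp h4
    rw [h3] at h1
    have h5 : ‖(Int.castRingHom ℂ) ((F v).coeff (n - j))‖ = |((F v).coeff (n - j) : ℝ)| := by
      simp
    rw [h5] at h1
    linarith
  have key := Pool.Agent.R401.Tr13.coeffs (R ℓ) (hR ℓ).1 B hB (fun v => (F v).reverse) (by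
    intro v hv hlv g hg
    have h1 := (hR ℓ).2 v hv hlv g hg
    show (R ℓ g⁻¹ : Matrix (Fin n) (Fin n) ℚ_[ℓ]).charpolyRev = _
    rw [← Matrix.reverse_charpoly, h1, reverse, reverse,
      natDegree_map_eq_of_injective (Int.cast_injective : Function.Injective (Int.castRingHom ℚ_[ℓ])),
      reflect_map]) j hj u (n.choose (n - j) : ℝ) hC v₀ hv₀ hℓv (by rwa [hrev v₀ hv₀]) θ hθ'
  refine key.mono fun N hN => lt_of_lt_of_eq hN ?_
  unfold dens
  congr 2
  refine congrArg Nat.cast (Nat.card_congr (Equiv.subtypeEquivRight ?_))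
  intro v
  constructor
  · rintro ⟨h1, h2, h3, h4⟩
    exact ⟨h1, h2, h3, by rwa [← hrev v h2]⟩
  · rintro ⟨h1, h2, h3, h4⟩
    exact ⟨h1, h2, h3, by rwa [hrev v h2]⟩

end Pool.Agent.R142.Ord
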