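import Pool.Agent.R142.OrdFeq
import Pool.Agent.W528.Ord.AllEll

/-! The Newton polygon of a Frobenius polynomial from one coefficient. -/

set_option autoImplicit false

namespace Pool.Agent.R142.Ord

open Polynomial Pool.Agent.W528.Ord

section

variable {p : ℕ} [Fact p.Prime]

theorem norm_int (m : ℤ) : ‖(m : PadicAlgCl p)‖ = ‖(m : ℚ_[p])‖ := by
  have h : (m : PadicAlgCl p) = algebraMap ℚ_[p] (PadicAlgCl p) (m : ℚ_[p]) := by
    rw [map_intCast]
  rw [h, norm_algebraMap']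

theorem norm_ppow (a : ℕ) : ‖(((p : ℤ) ^ a : ℤ) : PadicAlgCl p)‖ = (1 / (p : ℝ)) ^ a := by
  rw [norm_int]
  push_cast
  rw [norm_pow, Padic.norm_p, one_div]

theorem norm_le_of_dvd (m : ℤ) (a : ℕ) (h : (p : ℤ) ^ a ∣ m) :
    ‖(m : PadicAlgCl p)‖ ≤ (1 / (p : ℝ)) ^ a := by
  obtain ⟨d, rfl⟩ := h
  have h1 := norm_ppow (p := p) a
  have h2 : ‖(d : PadicAlgCl p)‖ ≤ 1 := by
    rw [norm_int]
    exact Padic.norm_int_le_one d
  rw [Int.cast_mul, norm_mul, h1]
  exact mul_le_of_le_one_right (by positivity) h2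

theorem norm_eq_of (m : ℤ) (a : ℕ) (h : (p : ℤ) ^ a ∣ m) (h' : ¬ (p : ℤ) ^ (a + 1) ∣ m) :
    ‖(m : PadicAlgCl p)‖ = (1 / (p : ℝ)) ^ a := by
  obtain ⟨d, rfl⟩ := h
  have h1 := norm_ppow (p := p) a
  have h2 : ‖(d : PadicAlgCl p)‖ = 1 := by
    rw [norm_int]
    refine le_antisymm (Padic.norm_int_le_one d) (not_lt.mp fun hlt => h' ?_)
    rw [Padic.norm_intCast_lt_one_iff] at hlt
    rw [pow_succ]
    exact mul_dvd_mul_left _ hlt
  rw [Int.cast_mul, norm_mul, h1, h2, mul_one]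

/-- **One coefficient determines the Newton polygon.** -/
theorem newton (F : ℤ[X]) (n w : ℕ) (hm : F.Monic) (hn : F.natDegree = n)
    (hW : ∀ z : ℂ, (F.map (Int.castRingHom ℂ)).IsRoot z → ‖z‖ ^ 2 = (p : ℝ) ^ w)
    (l : List ℕ) (hl : l.Pairwise (· ≤ ·)) (hlen : l.length = n) (hsum : 2 * l.sum = w * n)
    (hMaz : ∀ k ≤ n, (p : ℤ) ^ (l.take k).sum ∣ F.coeff (n - k)) (j : ℕ) (hj : j ≤ n)
    (hvert : ∀ k, 0 < k → k < n → l.getD (k - 1) 0 < l.getD k 0 → k = j ∨ k = n - j)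
    (hsymm : (l.take (n - j)).sum + l.sum = (l.take j).sum + w * (n - j))
    (hno : ¬ (p : ℤ) ^ ((l.take j).sum + 1) ∣ F.coeff (n - j)) :
    NewtonSlopes p F (l : Multiset ℕ) := by
  have hp : p.Prime := Fact.out
  have hp1 : (1 : ℝ) < p := by exact_mod_cast hp.one_lt
  set q : ℝ := 1 / (p : ℝ) with hq
  have hq0 : 0 < q := by positivity
  have hq1 : q < 1 := by
    rw [hq, div_lt_one (by linarith)]
    exact hp1
  have hW' : ∀ z : ℂ, (F.map (Int.castRingHom ℂ)).IsRoot z → ‖z‖ ^ 2 = ((p ^ w : ℕ) : ℝ) := by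
    intro z hz
    rw [hW z hz]
    push_cast
    rfl
  have hfe : ∀ k ≤ n, F.coeff (n - k) * ((p : ℤ) ^ (w * (n - k))) = F.coeff 0 * F.coeff k := by
    intro k hk
    have := feq F n hm hn (p ^ w) hW' k hk
    push_cast at this
    rw [← pow_mul] at this
    exact this
  have hnorm : ∀ k ≤ n, ‖(F.coeff (n - k) : PadicAlgCl p)‖ * q ^ (w * (n - k)) =
      ‖(F.coeff 0 : PadicAlgCl p)‖ * ‖(F.coeff k : PadicAlgCl p)‖ := by
    intro k hk
    rw [← norm_mul, ← Int.cast_mul, ← hfe k hk, Int.cast_mul, norm_mul, norm_ppow]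
  have h0 : ‖(F.coeff 0 : PadicAlgCl p)‖ = q ^ l.sum := by
    have h1 := hnorm 0 (Nat.zero_le n)
    rw [Nat.sub_zero] at h1
    have h2 : F.coeff n = 1 := by rw [← hn]; exact hm.coeff_natDegree
    rw [h2, Int.cast_one, norm_one, one_mul, ← sq, ← hsum] at h1
    have h3 : (q ^ l.sum) ^ 2 = ‖(F.coeff 0 : PadicAlgCl p)‖ ^ 2 := by
      rw [← h1, ← pow_mul, mul_comm]
    exact ((pow_left_inj₀ (by positivity) (norm_nonneg _) two_ne_zero).mp h3).symm
  have hjn : ‖(F.coeff (n - j) : PadicAlgCl p)‖ = q ^ (l.take j).sum :=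
    norm_eq_of _ _ (hMaz j hj) hno
  have hj' : ‖(F.coeff j : PadicAlgCl p)‖ = q ^ (l.take (n - j)).sum := by
    have h1 := hnorm j hj
    rw [hjn, h0, ← pow_add, ← hsymm, pow_add, mul_comm] at h1
    exact (mul_left_cancel₀ (pow_pos hq0 _).ne' h1).symm
  have hcoe : ∀ k, ‖(F.map (Int.castRingHom (PadicAlgCl p))).coeff k‖ = ‖(F.coeff k : PadicAlgCl p)‖ := by
    intro k
    rw [coeff_map]
    rfl
  refine ⟨inferInstance, ?_⟩
  have hfin := roots_norm (F.map (Int.castRingHom (PadicAlgCl p))) n (hm.map _)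
    (by rw [hm.natDegree_map, hn]) (IsAlgClosed.splits _) q hq0 hq1 l hl hlen ?_ ?_ ?_
  · rw [hfin, Multiset.map_coe]
  · intro k hk
    rw [hcoe]
    exact norm_le_of_dvd _ _ (hMaz k hk)
  · intro k h1 h2 h3
    rw [hcoe]
    rcases hvert k h1 h2 h3 with rfl | rfl
    · exact hjn
    · rw [Nat.sub_sub_self hj]
      exact hj'
  · rw [hcoe]
    exact h0

/-- the slopes of a motive of K3 type: `a`, `a + 1` (`m` times), `a + 2` -/
def k3Slopes (a m : ℕ) : List ℕ := a :: (List.replicate m (a + 1) ++ [a + 2])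

/-- the slopes of a motive of the type of an abelian surface: `a`, `a`, `a + 1`, `a + 1` -/
def abSlopes (a : ℕ) : List ℕ := [a, a, a + 1, a + 1]

theorem take_k3 (a m k : ℕ) (hk : k ≤ m) : ((k3Slopes a m).take (k + 1)).sum = a + k * (a + 1) := by
  unfold k3Slopes
  rw [List.take_succ_cons, List.sum_cons, List.take_append_of_le_length (by simpa using hk),
    List.take_replicate, List.sum_replicate, min_eq_left hk, smul_eq_mul]

theorem getD_k3 (a m k : ℕ) (hk : k < m) : (k3Slopes a m).getD (k + 1) 0 = a + 1 := by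
  unfold k3Slopes
  rw [List.getD_cons_succ, List.getD_append _ _ _ _ (by simpa using hk),
    List.getD_eq_getElem _ _ (by simpa using hk), List.getElem_replicate]

theorem newton_k3 (a m : ℕ) (F : ℤ[X]) (hm : F.Monic) (hn : F.natDegree = m + 2)
    (hW : ∀ z : ℂ, (F.map (Int.castRingHom ℂ)).IsRoot z → ‖z‖ ^ 2 = (p : ℝ) ^ (2 * (a + 1)))
    (hMaz : ∀ k ≤ m + 2, (p : ℤ) ^ ((k3Slopes a m).take k).sum ∣ F.coeff (m + 2 - k))
    (hno : ¬ (p : ℤ) ^ (a + 1) ∣ F.coeff (m + 1)) :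
    NewtonSlopes p F (k3Slopes a m : Multiset ℕ) := by
  have hsum : (k3Slopes a m).sum = a + (m * (a + 1) + (a + 2)) := by
    unfold k3Slopes
    simp
  have ht1 : ((k3Slopes a m).take 1).sum = a := by
    have := take_k3 a m 0 (Nat.zero_le m)
    simpa using this
  refine newton F (m + 2) (2 * (a + 1)) hm hn hW (k3Slopes a m) ?_ ?_ ?_ hMaz 1 (by omega) ?_ ?_ ?_
  · unfold k3Slopes
    rw [List.pairwise_cons]
    refine ⟨?_, ?_⟩
    · intro b hb
      rw [List.mem_append, List.mem_replicate, List.mem_singleton] at hb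
      omega
    · rw [List.pairwise_append]
      refine ⟨List.pairwise_replicate.mpr (Or.inr le_rfl), List.pairwise_singleton _ _, ?_⟩
      intro x hx y hy
      rw [List.mem_replicate] at hx
      rw [List.mem_singleton] at hy
      omega
  · unfold k3Slopes
    simp
  · rw [hsum]
    ring
  · intro k hk0 hk hlt
    by_contra hcon
    push Not at hcon
    obtain ⟨i, rfl⟩ : ∃ i, k = i + 2 := ⟨k - 2, by omega⟩
    have h1 := getD_k3 a m i (by omega)
    have h2 := getD_k3 a m (i + 1) (by omega)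
    rw [show i + 2 - 1 = i + 1 by omega, h1, show i + 2 = i + 1 + 1 by omega, h2] at hlt
    exact lt_irrefl _ hlt
  · rw [show m + 2 - 1 = m + 1 by omega, take_k3 a m m le_rfl, ht1, hsum]
    ring
  · rw [ht1]
    exact hno

theorem newton_ab (a : ℕ) (F : ℤ[X]) (hm : F.Monic) (hn : F.natDegree = 4)
    (hW : ∀ z : ℂ, (F.map (Int.castRingHom ℂ)).IsRoot z → ‖z‖ ^ 2 = (p : ℝ) ^ (2 * a + 1))
    (hMaz : ∀ k ≤ 4, (p : ℤ) ^ ((abSlopes a).take k).sum ∣ F.coeff (4 - k))
    (hno : ¬ (p : ℤ) ^ (2 * a + 1) ∣ F.coeff 2) :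
    NewtonSlopes p F (abSlopes a : Multiset ℕ) := by
  refine newton F 4 (2 * a + 1) hm hn hW (abSlopes a) ?_ rfl ?_ hMaz 2 (by omega) ?_ ?_ ?_
  · unfold abSlopes
    simp
  · unfold abSlopes
    simp
    ring
  · intro k hk0 hk hlt
    unfold abSlopes at hlt
    interval_cases k
    · simp at hlt
    · left; rfl
    · simp at hlt
  · unfold abSlopes
    simp
    ring
  · have : ((abSlopes a).take 2).sum = 2 * a := by
      unfold abSlopes
      simp
      ring
    rw [this]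
    exact hno

end

end Pool.Agent.R142.Ord
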