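import Pool.Agent.R142.PolyBuild

/-!
# A polyhedron of type {5,5} with 300 flags, all of whose dualities have order 4
-/

set_option autoImplicit false

namespace Pool.Agent.R142.Pol300

open Pool.Agent.R142.PolyBuild

/-- vertices of the flags -/
def tA : ℕ := 5528531672668721356515778618196461041927816082291177026350880447542340087424608147947869058406322339630661061710297342639444987661785485012733235040911480239201644265732132593916346262068328724141916632296603151351944843427872
/-- faces of the flags -/
def tC : ℕ := 5528531793894886024430291054518440295226105677405381123889538783956233752908909074294407657216275648646768054889892251615058639618741082831639755153962662863056277761952998177559888890065960727062736808175304575090509155991584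
/-- the map `s1` -/
def tS : ℕ := 268402893342635700182819677264641697372502940030557969003777172926737476862425264789021205258015869350503620746266530872196990183089569095670082878150246099801997149437388425448767766280771899613535220824765126728955159355877667347842830101909339531018904417619532367965016730129836920197155994783207194070816988609236985170349357418572532448831745964303588351882524656106121975616242723869092859180358381650347922687687895762338536745708959636099618796889299117144260177935149879564588048533910504913217828516809868925835550540479644703892587013622623357145879696292495300459048639725505502265227410243461840054501669046436350186712914965061931452503385406085213113409420555818672557277622953884349765527942152664247999210686337310806831832882969029115163158352191411158500013159128234325655866599637908458573828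
/-- a duality -/
def tD : ℕ := 346290666265821308956974126497885805976883496801975057502183515837078778158357375227182823522013951552377980474447411565159324600059567996070105941995168567077322123936207107918730634318317616993622389026270958916752978748251450955719368403220068611544019342871036206978266264001677932614317415747920159107371411369384677720770153057450991954447232931239540553245545145997532536792484613902027687331660421724440403202179655336121961285484791475615268242873182507759923200282074990647789826132650430631499081047605044342568516948700896767887936755975140887430301127430091725583409020459233426066043984894042497600285244035545017757649016583680387617446403166066581124518428480157355491856294334127736742007467454896943891732336688542635504874320891326254782939796956230483872234230736636341115996984331986427446785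
/-- a flag at every vertex -/
def tRa : ℕ := 824138241937597703718558151203848893444957028529285123863345612478658860830688256
/-- a flag at every face -/
def tRc : ℕ := 835073399521191193107983059618594584663818911720415208136464272323227569871913472
/-- words -/
def tW : ℕ := 105856432554707672047942108575430513856397506394351514364347607638373411905178894407953890594109959039557633945796271169900000026985643000696358136673808024869869472959331287000259130965617166248904095343989118814823035910150985010066948888321465172272671809902805933306405787176651013492610959096860692047603004026353448813355512431082390746237997484313833052490335753895038488424453007756512906266745789321469732718577442678467991366624894384562837792460035473128257953685768070655786187616731948100056188664507564059575435292928758810171993905389350612914826978764249989162467927583199558633468525628928696847219267480369276075720677681370967166654648883305774344983127979595802951687377803881620141964216538135334468482042128587956306377845954488067634160570376245876377675859223890395692395988159126780688877754595471913252015439475822738247451112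8470986400059797702803937408231602379582609779591034897192527307077356542336156881401478726106367658327482995943809973098581016855628334560365127542425536724628760871040025979778143074135671667712679201377358315662289276552748814194494021164153450636275916042751782121178007602517615316093083273620236209906466816462658506087363624325715849306718400165661525636835373303800614401111706575427100542672087196707457747586239232287746491106330276681651224753009187127828743143880029034023815514314484732894871632866231257767887885837830919495743187323894194527526959235997992164802257589713578121224268606023032764702288327677662791908832429900846030809263486722705164899974060047525871309175227569442484232385318417302419796669289786689727102945331720552298503427845793016899800492142009403506875777253723371144764900708540132529654091303485965725199638898962071017938224945271561836390401127886872404272842614571370297556375815476723171851465018808154697473151168422348038629567725399967337149702750775413577213491672594457398987969216688738013804607336974353525343392637771990831485767559101595507800324121844325078208424927732057173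48727212646024137900505858390862310458908712668948421920334818023322056820013577001910315266036990582212429851205313375279318972790076127354629376678391933256212150173266658559878746603996761833469620146433263764445031137092559681074430023399724425842231268743135676042975684573134831877209090968259033802470316129138068253782018871669316018383019777823319529230390617712523396122257045384480317238112773301085332901717499524239192506624483615752654869976858456903242870160928424069144988971781900660651308346063268272930282827159875277483029162972193238703451589908807931104323114945809564919600475130020931004038648420032652861434136705607886944020482731176556892690227161243252298707573782450113350008617907551046827144507525363231360880424582856556670028189395281761372124668240860315070580859080501331383424645693164959316536373789484003177707258502514526147792597200486394533316734568714732418138652247382675614956648073694193128478722136776749592818741509689057664420293053058679503174152972286862445907489185543668619533473346058175742561296671236313892894661441615268868921412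

/-- the vertex of a flag -/
def fa (w : Fin 300) : Fin 30 := Fin.ofNat 30 ((tA >>> (5 * (w.1 / 2))) % 32)
/-- the edge of a flag -/
def fb (w : Fin 300) : Fin 75 := ⟨w.1 / 4, by omega⟩
/-- the face of a flag -/
def fc (w : Fin 300) : Fin 30 := Fin.ofNat 30 ((tC >>> (5 * (2 * (w.1 / 4) + w.1 % 2))) % 32)
/-- change of the vertex -/
def f0 (w : Fin 300) : Fin 300 := Fin.ofNat 300 (w.1 ^^^ 2)
/-- change of the edge -/
def f1 (w : Fin 300) : Fin 300 := Fin.ofNat 300 ((tS >>> (9 * w.1)) % 512)
/-- change of the face -/
def f2 (w : Fin 300) : Fin 300 := Fin.ofNat 300 (w.1 ^^^ 1)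
/-- duality on flags -/
def fD (w : Fin 300) : Fin 300 := Fin.ofNat 300 ((tD >>> (9 * w.1)) % 512)
/-- a flag at a vertex -/
def ra (x : Fin 30) : Fin 300 := Fin.ofNat 300 ((tRa >>> (9 * x.1)) % 512)
/-- a flag at a face -/
def rc (x : Fin 30) : Fin 300 := Fin.ofNat 300 ((tRc >>> (9 * x.1)) % 512)
/-- four flags of an edge -/
def quad (j : Fin 75) (k : Fin 4) : Fin 300 := ⟨4 * j.1 + k.1, by omega⟩

/-- decoding of words -/
def dec : ℕ → ℕ → List (Fin 3)
  | 0, _ => []
  | n + 1, x => if x % 4 = 3 then [] else Fin.ofNat 3 (x % 4) :: dec n (x / 4)

/-- the words -/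
def cw (w : Fin 300) : List (Fin 3) := dec 17 ((tW >>> (34 * w.1)) % 2 ^ 34)

/-- the flags at a vertex -/
def oa (x : Fin 30) : ℕ → Fin 300
  | 0 => ra x
  | n + 1 => if n % 2 = 0 then f1 (oa x n) else f2 (oa x n)

/-- the flags at a face -/
def oc (x : Fin 30) : ℕ → Fin 300
  | 0 => rc x
  | n + 1 => if n % 2 = 0 then f1 (oc x n) else f0 (oc x n)

theorem c_ra : ∀ x, fa (ra x) = x := by decide +kernel
theorem c_rc : ∀ x, fc (rc x) = x := by decide +kernel
theorem c_0a : ∀ w, fa (f0 w) ≠ fa w := by decide +kernel
theorem c_0b : ∀ w, fb (f0 w) = fb w := by decide +kernel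
theorem c_0c : ∀ w, fc (f0 w) = fc w := by decide +kernel
theorem c_1a : ∀ w, fa (f1 w) = fa w := by decide +kernel
theorem c_1b : ∀ w, fb (f1 w) ≠ fb w := by decide +kernel
theorem c_1c : ∀ w, fc (f1 w) = fc w := by decide +kernel
theorem c_2a : ∀ w, fa (f2 w) = fa w := by decide +kernel
theorem c_2b : ∀ w, fb (f2 w) = fb w := by decide +kernel
theorem c_2c : ∀ w, fc (f2 w) ≠ fc w := by decide +kernel
theorem c_00 : ∀ w, f0 (f0 w) = w := by decide +kernel
theorem c_11 : ∀ w, f1 (f1 w) = w := by decide +kernel
theorem c_22 : ∀ w, f2 (f2 w) = w := by decide +kernel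
theorem c_u0 : ∀ (j : Fin 75) (k k' : Fin 4), fc (quad j k') = fc (quad j k) →
    quad j k' = quad j k ∨ quad j k' = f0 (quad j k) := by decide +kernel
theorem c_u2 : ∀ (j : Fin 75) (k k' : Fin 4), fa (quad j k') = fa (quad j k) →
    quad j k' = quad j k ∨ quad j k' = f2 (quad j k) := by decide +kernel
theorem c_e : ∀ (j : Fin 75) (k k' : Fin 4), quad j k' = quad j k ∨ quad j k' = f0 (quad j k) ∨
    quad j k' = f2 (quad j k) ∨ quad j k' = f2 (f0 (quad j k)) := by decide +kernel
theorem c_oa : ∀ w, ∃ k : Fin 10, oa (fa w) k.1 = w := by decide +kernel
theorem c_oc : ∀ w, ∃ k : Fin 10, oc (fc w) k.1 = w := by decide +kernel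
theorem c_u1 : ∀ (x : Fin 30) (k l : Fin 10), fc (oa x l.1) = fc (oa x k.1) →
    oa x l.1 = oa x k.1 ∨ oa x l.1 = f1 (oa x k.1) := by decide +kernel
theorem c_conn : ∀ j : Fin 75, j = 0 ∨ ∃ k : Fin 4, fb (f1 (quad j k)) < j := by decide +kernel
theorem c_d1 : ∀ w, fc (fD w) = fc (fD (ra (fa w))) := by decide +kernel
theorem c_d2 : ∀ w, fb (fD w) = fb (fD (quad (fb w) 0)) := by decide +kernel
theorem c_d3 : ∀ w, fa (fD w) = fa (fD (rc (fc w))) := by decide +kernel

/-- duality on vertices -/
def dV (x : Fin 30) : Fin 30 := fc (fD (ra x))
/-- duality on edges -/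
def dE (x : Fin 75) : Fin 75 := fb (fD (quad x 0))
/-- duality on faces -/
def dF (x : Fin 30) : Fin 30 := fa (fD (rc x))

theorem c_i1 : ∀ x, dF (dV (dF (dV x))) = x := by decide +kernel
theorem c_i2 : ∀ x, dE (dE (dE (dE x))) = x := by decide +kernel
theorem c_i3 : ∀ x, dV (dF (dV (dF x))) = x := by decide +kernel
theorem c_pa : ∀ (x : Fin 30) (i j : Fin 5), fb (oa x (2 * i.1)) = fb (oa x (2 * j.1)) → i = j := by
  decide +kernel
theorem c_pa' : ∀ w, ∃ i : Fin 5, fb (oa (fa w) (2 * i.1)) = fb w := by decide +kernel
theorem c_pc : ∀ (x : Fin 30) (i j : Fin 5), fa (oc x (2 * i.1)) = fa (oc x (2 * j.1)) → i = j := by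
  decide +kernel
theorem c_pc' : ∀ w, ∃ i : Fin 5, fa (oc (fc w) (2 * i.1)) = fa w := by decide +kernel


/-- the action of a letter -/
def act3 (k : Fin 3) (w : Fin 300) : Fin 300 := match k with
  | 0 => f0 w
  | 1 => f1 w
  | 2 => f2 w

/-- the action of a word -/
def wd (l : List (Fin 3)) (w : Fin 300) : Fin 300 := l.foldl (fun x k => act3 k x) w

theorem c_cert : ∀ w : Fin 300, (wd (cw w) 0 = w ∧ wd ((cw w).map fun k => 2 - k) w ≠ 0) ∨
    (wd (cw w) 0 = 0 ∧ wd ((cw w).map fun k => 2 - k) w ≠ w) := by decide +kernel

theorem reach_symm {R : Fin 300 → Fin 300 → Prop} (hR : ∀ x y, R x y → R y x) {x y : Fin 300}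
    (h : Relation.ReflTransGen R x y) : Relation.ReflTransGen R y x := by
  induction h with
  | refl => exact Relation.ReflTransGen.refl
  | tail _ h ih => exact (Relation.ReflTransGen.single (hR _ _ h)).trans ih

theorem reach_a (x : Fin 30) : ∀ n, Relation.ReflTransGen (fun x y => y = f1 x ∨ y = f2 x)
    (ra x) (oa x n) := by
  intro n
  induction n with
  | zero => exact Relation.ReflTransGen.refl
  | succ n ih =>
    refine ih.tail ?_
    rw [oa]
    split_ifs
    · exact Or.inl rfl
    · exact Or.inr rfl

theorem reach_c (x : Fin 30) : ∀ n, Relation.ReflTransGen (fun x y => y = f0 x ∨ y = f1 x)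
    (rc x) (oc x n) := by
  intro n
  induction n with
  | zero => exact Relation.ReflTransGen.refl
  | succ n ih =>
    refine ih.tail ?_
    rw [oc]
    split_ifs
    · exact Or.inr rfl
    · exact Or.inl rfl

theorem quad_eq (w : Fin 300) : quad (fb w) ⟨w.1 % 4, by omega⟩ = w := by
  apply Fin.ext
  simp only [quad, fb]
  omega

theorem quad_eq' {w w' : Fin 300} (h : fb w' = fb w) : quad (fb w) ⟨w'.1 % 4, by omega⟩ = w' := by
  rw [← h, quad_eq]

theorem conn0 : ∀ (n : ℕ) (w : Fin 300), (fb w).1 ≤ n →
    Relation.ReflTransGen (fun x y => y = f0 x ∨ y = f1 x ∨ y = f2 x) 0 w := by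
  have hE : ∀ w w' : Fin 300, fb w' = fb w →
      Relation.ReflTransGen (fun x y => y = f0 x ∨ y = f1 x ∨ y = f2 x) w w' := by
    intro w w' h
    have := c_e (fb w) ⟨w.1 % 4, by omega⟩ ⟨w'.1 % 4, by omega⟩
    rw [quad_eq, quad_eq' h] at this
    rcases this with h | h | h | h
    · rw [h]
    · rw [h]; exact Relation.ReflTransGen.single (Or.inl rfl)
    · rw [h]; exact Relation.ReflTransGen.single (Or.inr (Or.inr rfl))
    · rw [h]
      exact Relation.ReflTransGen.tail (b := f0 w) (Relation.ReflTransGen.single (Or.inl rfl))
        (Or.inr (Or.inr rfl))
  intro n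
  induction n with
  | zero =>
    intro w hw
    apply hE
    apply Fin.ext
    have h0 : (fb 0).1 = 0 := rfl
    omega
  | succ n ih =>
    intro w hw
    rcases c_conn (fb w) with h | ⟨k, hk⟩
    · apply hE
      rw [h]; rfl
    · have h1 := ih (f1 (quad (fb w) k)) (by
        have : (fb (f1 (quad (fb w) k))).1 < (fb w).1 := hk
        omega)
      have h2 : Relation.ReflTransGen (fun x y => y = f0 x ∨ y = f1 x ∨ y = f2 x) 0
          (quad (fb w) k) := by
        refine h1.tail (Or.inr (Or.inl ?_))
        rw [c_11]
      refine h2.trans (hE _ _ ?_)
      apply Fin.ext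
      simp only [quad, fb]
      omega

/-- The flag data. -/
def T : Data (Fin 300) (Fin 30) (Fin 75) (Fin 30) where
  a := fa
  b := fb
  c := fc
  s0 := f0
  s1 := f1
  s2 := f2
  w0 := 0
  surja x := ⟨ra x, c_ra x⟩
  surjb x := ⟨quad x 0, by apply Fin.ext; simp only [quad, fb]; simp⟩
  surjc x := ⟨rc x, c_rc x⟩
  s0a := c_0a
  s0b := c_0b
  s0c := c_0c
  s1a := c_1a
  s1b := c_1b
  s1c := c_1c
  s2a := c_2a
  s2b := c_2b
  s2c := c_2c
  u0 w w' hb hc := by
    have := c_u0 (fb w) ⟨w.1 % 4, by omega⟩ ⟨w'.1 % 4, by omega⟩
    rw [quad_eq, quad_eq' hb] at this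
    exact this hc
  u1 w w' ha hc := by
    obtain ⟨k, hk⟩ := c_oa w
    obtain ⟨l, hl⟩ := c_oa w'
    rw [ha] at hl
    have := c_u1 (fa w) k l
    rw [hk, hl] at this
    exact this hc
  u2 w w' ha hb := by
    have := c_u2 (fb w) ⟨w.1 % 4, by omega⟩ ⟨w'.1 % 4, by omega⟩
    rw [quad_eq, quad_eq' hb] at this
    exact this ha
  cross w w' h := by
    have h' : w.1 / 4 = w'.1 / 4 := congrArg Fin.val h
    refine ⟨⟨4 * (w.1 / 4) + 2 * ((w.1 / 2) % 2) + w'.1 % 2, by omega⟩, ?_, ?_, ?_⟩
    · have e : (4 * (w.1 / 4) + 2 * ((w.1 / 2) % 2) + w'.1 % 2) / 2 = w.1 / 2 := by omega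
      simp only [fa, e]
    · apply Fin.ext
      simp only [fb]
      omega
    · have e1 : (4 * (w.1 / 4) + 2 * ((w.1 / 2) % 2) + w'.1 % 2) / 4 = w'.1 / 4 := by omega
      have e2 : (4 * (w.1 / 4) + 2 * ((w.1 / 2) % 2) + w'.1 % 2) % 2 = w'.1 % 2 := by omega
      simp only [fc, e1, e2]
  conn w w' := by
    refine (reach_symm ?_ (conn0 _ w le_rfl)).trans (conn0 _ w' le_rfl)
    rintro x y (rfl | rfl | rfl)
    · exact Or.inl (c_00 x).symm
    · exact Or.inr (Or.inl (c_11 x).symm)
    · exact Or.inr (Or.inr (c_22 x).symm)
  connV w w' h := by
    obtain ⟨k, hk⟩ := c_oa w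
    obtain ⟨l, hl⟩ := c_oa w'
    rw [← h] at hl
    have h1 := reach_a (fa w) k.1
    have h2 := reach_a (fa w) l.1
    rw [hk] at h1
    rw [hl] at h2
    refine (reach_symm ?_ h1).trans h2
    rintro x y (rfl | rfl)
    · exact Or.inl (c_11 x).symm
    · exact Or.inr (c_22 x).symm
  connE w w' h := by
    have := c_e (fb w) ⟨w.1 % 4, by omega⟩ ⟨w'.1 % 4, by omega⟩
    rw [quad_eq, quad_eq' h.symm] at this
    rcases this with h | h | h | h
    · rw [h]
    · rw [h]; exact Relation.ReflTransGen.single (Or.inl rfl)
    · rw [h]; exact Relation.ReflTransGen.single (Or.inr rfl)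
    · rw [h]
      exact Relation.ReflTransGen.tail (b := f0 w) (Relation.ReflTransGen.single (Or.inl rfl))
        (Or.inr rfl)
  connF w w' h := by
    obtain ⟨k, hk⟩ := c_oc w
    obtain ⟨l, hl⟩ := c_oc w'
    rw [← h] at hl
    have h1 := reach_c (fc w) k.1
    have h2 := reach_c (fc w) l.1
    rw [hk] at h1
    rw [hl] at h2
    refine (reach_symm ?_ h1).trans h2
    rintro x y (rfl | rfl)
    · exact Or.inl (c_00 x).symm
    · exact Or.inr (c_11 x).symm

theorem act_eq (k : Fin 3) (w : Fin 300) : T.act k w = act3 k w := by
  fin_cases k <;> rfl

theorem word_eq (l : List (Fin 3)) (w : Fin 300) : T.word l w = wd l w := by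
  have : T.act = act3 := by
    funext k w
    exact act_eq k w
  simp only [Data.word, wd, this]

theorem no_pol (δ : Face T → Face T) (hδ : ∀ x y, x ≤ y ↔ δ y ≤ δ x) : ∃ x, δ (δ x) ≠ x := by
  refine T.no_polarity (fun w => ⟨cw w, ?_⟩) δ hδ
  rw [word_eq, word_eq]
  exact c_cert w

theorem duality : ∃ δ : Face T ≃ Face T, (∀ x y, x ≤ y ↔ δ y ≤ δ x) :=
  T.exists_duality fD dV dE dF c_d1 c_d2 c_d3 c_i1 c_i2 c_i3

theorem ncard_vertices (k : Fin 30) :
    {H : Face T | (Face.bot : Face T) < H ∧ H < Face.f k ∧ rk H = 0}.ncard = 5 := by
  have : {H : Face T | (Face.bot : Face T) < H ∧ H < Face.f k ∧ rk H = 0} =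
      Set.range (fun i : Fin 5 => (Face.v (fa (oc k (2 * i.1))) : Face T)) := by
    ext H
    constructor
    · rintro ⟨-, h2, h3⟩
      cases H with
      | v x =>
        rw [T.lt_iff] at h2
        obtain ⟨-, w, m1, m2⟩ := h2
        rw [T.mem_v] at m1
        rw [T.mem_f] at m2
        obtain ⟨i, hi⟩ := c_pc' w
        change fc w = k at m2
        change fa w = x at m1
        rw [m2, m1] at hi
        exact ⟨i, congrArg Face.v hi⟩
      | _ => simp [rk] at h3
    · rintro ⟨i, rfl⟩
      have hc : ∀ n, fc (oc k n) = k := by
        intro n
        induction n with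
        | zero => exact c_rc k
        | succ n ih =>
          rw [oc]
          split_ifs
          · rw [c_1c, ih]
          · rw [c_0c, ih]
      refine ⟨?_, ?_, rfl⟩
      · rw [T.lt_iff]
        exact ⟨by simp [rk], _, Data.Mem.bot, T.mem_v.2 rfl⟩
      · rw [T.lt_iff]
        exact ⟨by simp [rk], _, T.mem_v.2 rfl, T.mem_f.2 (hc _)⟩
  rw [this, ← Nat.card_coe_set_eq, Nat.card_range_of_injective]
  · simp
  · intro i j h
    exact c_pc k i j (Face.v.inj h)

theorem ncard_edges (k : Fin 30) :
    {H : Face T | (Face.v k : Face T) < H ∧ H < Face.top ∧ rk H = 1}.ncard = 5 := by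
  have : {H : Face T | (Face.v k : Face T) < H ∧ H < Face.top ∧ rk H = 1} =
      Set.range (fun i : Fin 5 => (Face.e (fb (oa k (2 * i.1))) : Face T)) := by
    ext H
    constructor
    · rintro ⟨h2, -, h3⟩
      cases H with
      | e x =>
        rw [T.lt_iff] at h2
        obtain ⟨-, w, m1, m2⟩ := h2
        rw [T.mem_v] at m1
        rw [T.mem_e] at m2
        obtain ⟨i, hi⟩ := c_pa' w
        change fb w = x at m2
        change fa w = k at m1
        rw [m2, m1] at hi
        exact ⟨i, congrArg Face.e hi⟩
      | _ => simp [rk] at h3
    · rintro ⟨i, rfl⟩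
      have hc : ∀ n, fa (oa k n) = k := by
        intro n
        induction n with
        | zero => exact c_ra k
        | succ n ih =>
          rw [oa]
          split_ifs
          · rw [c_1a, ih]
          · rw [c_2a, ih]
      refine ⟨?_, ?_, rfl⟩
      · rw [T.lt_iff]
        exact ⟨by simp [rk], _, T.mem_v.2 (hc _), T.mem_e.2 rfl⟩
      · rw [T.lt_iff]
        exact ⟨by simp [rk], _, T.mem_e.2 rfl, Data.Mem.top⟩
  rw [this, ← Nat.card_coe_set_eq, Nat.card_range_of_injective]
  · simp
  · intro i j h
    exact c_pa k i j (Face.e.inj h)

end Pool.Agent.R142.Pol300
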