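import Mathlib

/-!
# Abstract polyhedra from flag data

An abstract polyhedron given by its set `Ω` of flags, the vertex, edge and face of every flag, and
the three adjacency maps.
-/

set_option autoImplicit false

namespace Pool.Agent.R142.PolyBuild

/-- Two flags (maximal chains) are adjacent if they differ in exactly one face. -/
def Adj {P : Type} [PartialOrder P] (A B : Flag P) : Prop :=
  ∃ F ∈ A, ∃ G ∈ B, F ≠ G ∧ (A : Set P) \ {F} = (B : Set P) \ {G}

/-- The partially ordered set `P` with rank function `rk` is an abstract polytope of rank `n`. -/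
structure IsPolytope (n : ℤ) {P : Type} [PartialOrder P] (rk : P → ℤ) : Prop where
  strictMono : StrictMono rk
  least : ∃ F, rk F = -1 ∧ ∀ G, F ≤ G
  greatest : ∃ F, rk F = n ∧ ∀ G, G ≤ F
  flag_rank : ∀ (Φ : Flag P) (i : ℤ), -1 ≤ i → i ≤ n → ∃! F, F ∈ Φ ∧ rk F = i
  connected : ∀ Φ Ψ : Flag P,
    Relation.ReflTransGen (fun A B => Adj A B ∧ ∀ F ∈ Φ, F ∈ Ψ → F ∈ A ∧ F ∈ B) Φ Ψ
  diamond : ∀ F G, F < G → rk G = rk F + 2 → {H | F < H ∧ H < G}.ncard = 2

/-- Flag data. -/
structure Data (Ω V E F : Type) where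
  a : Ω → V
  b : Ω → E
  c : Ω → F
  s0 : Ω → Ω
  s1 : Ω → Ω
  s2 : Ω → Ω
  w0 : Ω
  surja : Function.Surjective a
  surjb : Function.Surjective b
  surjc : Function.Surjective c
  s0a : ∀ w, a (s0 w) ≠ a w
  s0b : ∀ w, b (s0 w) = b w
  s0c : ∀ w, c (s0 w) = c w
  s1a : ∀ w, a (s1 w) = a w
  s1b : ∀ w, b (s1 w) ≠ b w
  s1c : ∀ w, c (s1 w) = c w
  s2a : ∀ w, a (s2 w) = a w
  s2b : ∀ w, b (s2 w) = b w
  s2c : ∀ w, c (s2 w) ≠ c w
  u0 : ∀ w w', b w' = b w → c w' = c w → w' = w ∨ w' = s0 w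
  u1 : ∀ w w', a w' = a w → c w' = c w → w' = w ∨ w' = s1 w
  u2 : ∀ w w', a w' = a w → b w' = b w → w' = w ∨ w' = s2 w
  cross : ∀ w w', b w = b w' → ∃ x, a x = a w ∧ b x = b w ∧ c x = c w'
  conn : ∀ w w', Relation.ReflTransGen (fun x y => y = s0 x ∨ y = s1 x ∨ y = s2 x) w w'
  connV : ∀ w w', a w = a w' → Relation.ReflTransGen (fun x y => y = s1 x ∨ y = s2 x) w w'
  connE : ∀ w w', b w = b w' → Relation.ReflTransGen (fun x y => y = s0 x ∨ y = s2 x) w w'
  connF : ∀ w w', c w = c w' → Relation.ReflTransGen (fun x y => y = s0 x ∨ y = s1 x) w w'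

variable {Ω V E F : Type}

/-- The faces of the polyhedron. -/
inductive Face (T : Data Ω V E F) where
  | bot : Face T
  | v : V → Face T
  | e : E → Face T
  | f : F → Face T
  | top : Face T

/-- rank -/
def rk {T : Data Ω V E F} : Face T → ℤ
  | .bot => -1
  | .v _ => 0
  | .e _ => 1
  | .f _ => 2
  | .top => 3

namespace Data

variable (T : Data Ω V E F)

/-- The faces of a flag. -/
inductive Mem (w : Ω) : Face T → Prop
  | bot : Mem w .bot
  | v : Mem w (.v (T.a w))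
  | e : Mem w (.e (T.b w))
  | f : Mem w (.f (T.c w))
  | top : Mem w .top

theorem mem_v {w : Ω} {x : V} : T.Mem w (.v x) ↔ T.a w = x :=
  ⟨fun h => by cases h; rfl, fun h => h ▸ Mem.v⟩
theorem mem_e {w : Ω} {x : E} : T.Mem w (.e x) ↔ T.b w = x :=
  ⟨fun h => by cases h; rfl, fun h => h ▸ Mem.e⟩
theorem mem_f {w : Ω} {x : F} : T.Mem w (.f x) ↔ T.c w = x :=
  ⟨fun h => by cases h; rfl, fun h => h ▸ Mem.f⟩

/-- order -/
def Le (x y : Face T) : Prop := x = y ∨ (rk x < rk y ∧ ∃ w, T.Mem w x ∧ T.Mem w y)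

theorem exists_mem (x : Face T) : ∃ w, T.Mem w x := by
  cases x with
  | bot => exact ⟨T.w0, Mem.bot⟩
  | v x => obtain ⟨w, hw⟩ := T.surja x; exact ⟨w, T.mem_v.2 hw⟩
  | e x => obtain ⟨w, hw⟩ := T.surjb x; exact ⟨w, T.mem_e.2 hw⟩
  | f x => obtain ⟨w, hw⟩ := T.surjc x; exact ⟨w, T.mem_f.2 hw⟩
  | top => exact ⟨T.w0, Mem.top⟩

theorem Le.trans' {x y z : Face T} (h1 : T.Le x y) (h2 : T.Le y z) : T.Le x z := by
  rcases h1 with rfl | ⟨h1, w1, m1, n1⟩
  · exact h2
  rcases h2 with rfl | ⟨h2, w2, m2, n2⟩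
  · exact Or.inr ⟨h1, w1, m1, n1⟩
  refine Or.inr ⟨h1.trans h2, ?_⟩
  cases y with
  | bot => exfalso; cases x <;> simp [rk] at h1
  | top => exfalso; cases z <;> simp [rk] at h2
  | v y =>
    have : x = .bot := by cases x <;> simp [rk] at h1 ⊢
    subst this
    exact ⟨w2, Mem.bot, n2⟩
  | f y =>
    have : z = .top := by cases z <;> simp [rk] at h2 ⊢
    subst this
    exact ⟨w1, m1, Mem.top⟩
  | e y =>
    rw [mem_e] at n1 m2
    obtain ⟨t, ht1, ht2, ht3⟩ := T.cross w1 w2 (n1.trans m2.symm)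
    refine ⟨t, ?_, ?_⟩
    · cases x with
      | bot => exact Mem.bot
      | v x => rw [mem_v] at m1 ⊢; exact ht1.trans m1
      | e x => simp [rk] at h1
      | f x => simp [rk] at h1
      | top => simp [rk] at h1
    · cases z with
      | bot => simp [rk] at h2
      | v x => simp [rk] at h2
      | e x => simp [rk] at h2
      | f x => rw [mem_f] at n2 ⊢; exact ht3.trans n2
      | top => exact Mem.top

/-- The partial order. -/
instance order : PartialOrder (Face T) where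
  le := T.Le
  le_refl x := Or.inl rfl
  le_trans x y z h1 h2 := Le.trans' T h1 h2
  le_antisymm x y h1 h2 := by
    rcases h1 with h1 | ⟨h1, -⟩
    · exact h1
    · rcases h2 with h2 | ⟨h2, -⟩
      · exact h2.symm
      · exact absurd h1 (not_lt.2 h2.le)

theorem le_iff {x y : Face T} : x ≤ y ↔ x = y ∨ (rk x < rk y ∧ ∃ w, T.Mem w x ∧ T.Mem w y) :=
  Iff.rfl

theorem lt_iff {x y : Face T} : x < y ↔ rk x < rk y ∧ ∃ w, T.Mem w x ∧ T.Mem w y := by
  rw [lt_iff_le_and_ne, le_iff]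
  constructor
  · rintro ⟨h | h, h'⟩
    · exact absurd h h'
    · exact h
  · rintro h
    exact ⟨Or.inr h, fun h' => by rw [h'] at h; exact lt_irrefl _ h.1⟩

theorem strictMono : StrictMono (rk : Face T → ℤ) := fun _ _ h => (T.lt_iff.1 h).1

theorem bot_le (x : Face T) : (Face.bot : Face T) ≤ x := by
  rw [le_iff]
  obtain ⟨w, hw⟩ := T.exists_mem x
  cases x with
  | bot => exact Or.inl rfl
  | _ => exact Or.inr ⟨by simp [rk], w, Mem.bot, hw⟩

theorem le_top (x : Face T) : x ≤ (Face.top : Face T) := by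
  rw [le_iff]
  obtain ⟨w, hw⟩ := T.exists_mem x
  cases x with
  | top => exact Or.inl rfl
  | _ => exact Or.inr ⟨by simp [rk], w, hw, Mem.top⟩

theorem mem_comparable {w : Ω} {x y : Face T} (hx : T.Mem w x) (hy : T.Mem w y) :
    x ≤ y ∨ y ≤ x := by
  rcases lt_trichotomy (rk x) (rk y) with h | h | h
  · exact Or.inl (T.le_iff.2 (Or.inr ⟨h, w, hx, hy⟩))
  · left
    rw [le_iff]
    left
    cases hx <;> cases hy <;> simp [rk] at h ⊢
  · exact Or.inr (T.le_iff.2 (Or.inr ⟨h, w, hy, hx⟩))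

theorem mem_eq_of_rk {w : Ω} {x y : Face T} (hx : T.Mem w x) (hy : T.Mem w y)
    (h : rk x = rk y) : x = y := by
  cases hx <;> cases hy <;> simp [rk] at h ⊢

/-- Every chain is contained in the set of faces of some `w`. -/
theorem chain_sub {s : Set (Face T)} (hs : IsChain (· ≤ ·) s) : ∃ w, ∀ x ∈ s, T.Mem w x := by
  have huv : ∀ {x y : V}, (Face.v x : Face T) ∈ s → (Face.v y : Face T) ∈ s → x = y := by
    intro x y hx hy
    by_contra hne
    have := hs hx hy (fun h => hne (Face.v.inj h))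
    rcases this with h | h <;> rw [le_iff] at h <;> rcases h with h | h
    · exact hne (Face.v.inj h)
    · exact absurd h.1 (by simp [rk])
    · exact hne (Face.v.inj h).symm
    · exact absurd h.1 (by simp [rk])
  have hue : ∀ {x y : E}, (Face.e x : Face T) ∈ s → (Face.e y : Face T) ∈ s → x = y := by
    intro x y hx hy
    by_contra hne
    have := hs hx hy (fun h => hne (Face.e.inj h))
    rcases this with h | h <;> rw [le_iff] at h <;> rcases h with h | h
    · exact hne (Face.e.inj h)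
    · exact absurd h.1 (by simp [rk])
    · exact hne (Face.e.inj h).symm
    · exact absurd h.1 (by simp [rk])
  have huf : ∀ {x y : F}, (Face.f x : Face T) ∈ s → (Face.f y : Face T) ∈ s → x = y := by
    intro x y hx hy
    by_contra hne
    have := hs hx hy (fun h => hne (Face.f.inj h))
    rcases this with h | h <;> rw [le_iff] at h <;> rcases h with h | h
    · exact hne (Face.f.inj h)
    · exact absurd h.1 (by simp [rk])
    · exact hne (Face.f.inj h).symm
    · exact absurd h.1 (by simp [rk])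
  have hve : ∀ {x : V} {y : E}, (Face.v x : Face T) ∈ s → (Face.e y : Face T) ∈ s →
      ∃ w, T.a w = x ∧ T.b w = y := by
    intro x y hx hy
    have := hs hx hy (by simp)
    rcases this with h | h <;> rw [le_iff] at h <;> rcases h with h | ⟨h, w, h1, h2⟩
    · simp at h
    · exact ⟨w, T.mem_v.1 h1, T.mem_e.1 h2⟩
    · simp at h
    · simp [rk] at h
  have hvf : ∀ {x : V} {y : F}, (Face.v x : Face T) ∈ s → (Face.f y : Face T) ∈ s →
      ∃ w, T.a w = x ∧ T.c w = y := by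
    intro x y hx hy
    have := hs hx hy (by simp)
    rcases this with h | h <;> rw [le_iff] at h <;> rcases h with h | ⟨h, w, h1, h2⟩
    · simp at h
    · exact ⟨w, T.mem_v.1 h1, T.mem_f.1 h2⟩
    · simp at h
    · simp [rk] at h
  have hef : ∀ {x : E} {y : F}, (Face.e x : Face T) ∈ s → (Face.f y : Face T) ∈ s →
      ∃ w, T.b w = x ∧ T.c w = y := by
    intro x y hx hy
    have := hs hx hy (by simp)
    rcases this with h | h <;> rw [le_iff] at h <;> rcases h with h | ⟨h, w, h1, h2⟩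
    · simp at h
    · exact ⟨w, T.mem_e.1 h1, T.mem_f.1 h2⟩
    · simp at h
    · simp [rk] at h
  -- choose `w`
  have key : ∃ w, (∀ x, (Face.v x : Face T) ∈ s → T.a w = x) ∧
      (∀ x, (Face.e x : Face T) ∈ s → T.b w = x) ∧ (∀ x, (Face.f x : Face T) ∈ s → T.c w = x) := by
    by_cases hv : ∃ x, (Face.v x : Face T) ∈ s <;> by_cases he : ∃ x, (Face.e x : Face T) ∈ s <;>
      by_cases hf : ∃ x, (Face.f x : Face T) ∈ s
    · obtain ⟨x, hx⟩ := hv
      obtain ⟨y, hy⟩ := he
      obtain ⟨z, hz⟩ := hf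
      obtain ⟨w1, h1, h1'⟩ := hve hx hy
      obtain ⟨w2, h2, h2'⟩ := hef hy hz
      obtain ⟨t, t1, t2, t3⟩ := T.cross w1 w2 (h1'.trans h2.symm)
      exact ⟨t, fun x' hx' => by rw [t1, h1]; exact huv hx hx',
        fun y' hy' => by rw [t2, h1']; exact hue hy hy',
        fun z' hz' => by rw [t3, h2']; exact huf hz hz'⟩
    · obtain ⟨x, hx⟩ := hv
      obtain ⟨y, hy⟩ := he
      obtain ⟨w1, h1, h1'⟩ := hve hx hy
      exact ⟨w1, fun x' hx' => by rw [h1]; exact huv hx hx',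
        fun y' hy' => by rw [h1']; exact hue hy hy', fun z' hz' => absurd ⟨z', hz'⟩ hf⟩
    · obtain ⟨x, hx⟩ := hv
      obtain ⟨z, hz⟩ := hf
      obtain ⟨w1, h1, h1'⟩ := hvf hx hz
      exact ⟨w1, fun x' hx' => by rw [h1]; exact huv hx hx',
        fun y' hy' => absurd ⟨y', hy'⟩ he, fun z' hz' => by rw [h1']; exact huf hz hz'⟩
    · obtain ⟨x, hx⟩ := hv
      obtain ⟨w1, h1⟩ := T.surja x
      exact ⟨w1, fun x' hx' => by rw [h1]; exact huv hx hx',
        fun y' hy' => absurd ⟨y', hy'⟩ he, fun z' hz' => absurd ⟨z', hz'⟩ hf⟩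
    · obtain ⟨y, hy⟩ := he
      obtain ⟨z, hz⟩ := hf
      obtain ⟨w2, h2, h2'⟩ := hef hy hz
      exact ⟨w2, fun x' hx' => absurd ⟨x', hx'⟩ hv,
        fun y' hy' => by rw [h2]; exact hue hy hy',
        fun z' hz' => by rw [h2']; exact huf hz hz'⟩
    · obtain ⟨y, hy⟩ := he
      obtain ⟨w1, h1⟩ := T.surjb y
      exact ⟨w1, fun x' hx' => absurd ⟨x', hx'⟩ hv,
        fun y' hy' => by rw [h1]; exact hue hy hy', fun z' hz' => absurd ⟨z', hz'⟩ hf⟩
    · obtain ⟨z, hz⟩ := hf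
      obtain ⟨w1, h1⟩ := T.surjc z
      exact ⟨w1, fun x' hx' => absurd ⟨x', hx'⟩ hv,
        fun y' hy' => absurd ⟨y', hy'⟩ he, fun z' hz' => by rw [h1]; exact huf hz hz'⟩
    · exact ⟨T.w0, fun x' hx' => absurd ⟨x', hx'⟩ hv,
        fun y' hy' => absurd ⟨y', hy'⟩ he, fun z' hz' => absurd ⟨z', hz'⟩ hf⟩
  obtain ⟨w, k1, k2, k3⟩ := key
  refine ⟨w, fun x hx => ?_⟩
  cases x with
  | bot => exact Mem.bot
  | v x => rw [mem_v]; exact k1 x hx
  | e x => rw [mem_e]; exact k2 x hx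
  | f x => rw [mem_f]; exact k3 x hx
  | top => exact Mem.top

/-- The flag of `w`. -/
def fl (w : Ω) : Flag (Face T) where
  carrier := {x | T.Mem w x}
  Chain' := fun _ hx _ hy _ => T.mem_comparable hx hy
  max_chain' := by
    intro s hs hsub
    obtain ⟨w', hw'⟩ := T.chain_sub hs
    have h1 : T.a w' = T.a w := T.mem_v.1 (hw' _ (hsub (T.mem_v.2 rfl)))
    have h2 : T.b w' = T.b w := T.mem_e.1 (hw' _ (hsub (T.mem_e.2 rfl)))
    have h3 : T.c w' = T.c w := T.mem_f.1 (hw' _ (hsub (T.mem_f.2 rfl)))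
    apply Set.Subset.antisymm hsub
    intro x hx
    have := hw' x hx
    change T.Mem w x
    cases this with
    | bot => exact Mem.bot
    | v => rw [mem_v]; exact h1.symm
    | e => rw [mem_e]; exact h2.symm
    | f => rw [mem_f]; exact h3.symm
    | top => exact Mem.top

theorem mem_fl {w : Ω} {x : Face T} : x ∈ T.fl w ↔ T.Mem w x := Iff.rfl

theorem exists_fl (Φ : Flag (Face T)) : ∃ w, Φ = T.fl w := by
  obtain ⟨w, hw⟩ := T.chain_sub Φ.Chain'
  refine ⟨w, Flag.ext ?_⟩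
  exact Φ.max_chain' (T.fl w).Chain' hw

theorem adj0 (w : Ω) : Adj (T.fl w) (T.fl (T.s0 w)) := by
  refine ⟨.v (T.a w), Mem.v, .v (T.a (T.s0 w)), Mem.v, fun h => T.s0a w (Face.v.inj h).symm, ?_⟩
  ext x
  simp only [Set.mem_sdiff, Set.mem_singleton_iff, SetLike.mem_coe, mem_fl]
  constructor
  · rintro ⟨h1, h2⟩
    cases h1 with
    | bot => exact ⟨Mem.bot, by simp⟩
    | v => exact absurd rfl h2
    | e => exact ⟨T.mem_e.2 (T.s0b w), by simp⟩
    | f => exact ⟨T.mem_f.2 (T.s0c w), by simp⟩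
    | top => exact ⟨Mem.top, by simp⟩
  · rintro ⟨h1, h2⟩
    cases h1 with
    | bot => exact ⟨Mem.bot, by simp⟩
    | v => exact absurd rfl h2
    | e => exact ⟨T.mem_e.2 (T.s0b w).symm, by simp⟩
    | f => exact ⟨T.mem_f.2 (T.s0c w).symm, by simp⟩
    | top => exact ⟨Mem.top, by simp⟩

theorem adj1 (w : Ω) : Adj (T.fl w) (T.fl (T.s1 w)) := by
  refine ⟨.e (T.b w), Mem.e, .e (T.b (T.s1 w)), Mem.e, fun h => T.s1b w (Face.e.inj h).symm, ?_⟩
  ext x
  simp only [Set.mem_sdiff, Set.mem_singleton_iff, SetLike.mem_coe, mem_fl]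
  constructor
  · rintro ⟨h1, h2⟩
    cases h1 with
    | bot => exact ⟨Mem.bot, by simp⟩
    | v => exact ⟨T.mem_v.2 (T.s1a w), by simp⟩
    | e => exact absurd rfl h2
    | f => exact ⟨T.mem_f.2 (T.s1c w), by simp⟩
    | top => exact ⟨Mem.top, by simp⟩
  · rintro ⟨h1, h2⟩
    cases h1 with
    | bot => exact ⟨Mem.bot, by simp⟩
    | v => exact ⟨T.mem_v.2 (T.s1a w).symm, by simp⟩
    | e => exact absurd rfl h2
    | f => exact ⟨T.mem_f.2 (T.s1c w).symm, by simp⟩
    | top => exact ⟨Mem.top, by simp⟩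

theorem adj2 (w : Ω) : Adj (T.fl w) (T.fl (T.s2 w)) := by
  refine ⟨.f (T.c w), Mem.f, .f (T.c (T.s2 w)), Mem.f, fun h => T.s2c w (Face.f.inj h).symm, ?_⟩
  ext x
  simp only [Set.mem_sdiff, Set.mem_singleton_iff, SetLike.mem_coe, mem_fl]
  constructor
  · rintro ⟨h1, h2⟩
    cases h1 with
    | bot => exact ⟨Mem.bot, by simp⟩
    | v => exact ⟨T.mem_v.2 (T.s2a w), by simp⟩
    | e => exact ⟨T.mem_e.2 (T.s2b w), by simp⟩
    | f => exact absurd rfl h2
    | top => exact ⟨Mem.top, by simp⟩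
  · rintro ⟨h1, h2⟩
    cases h1 with
    | bot => exact ⟨Mem.bot, by simp⟩
    | v => exact ⟨T.mem_v.2 (T.s2a w).symm, by simp⟩
    | e => exact ⟨T.mem_e.2 (T.s2b w).symm, by simp⟩
    | f => exact absurd rfl h2
    | top => exact ⟨Mem.top, by simp⟩

/-- Lifting a path of flags. -/
theorem lift_path {R : Ω → Ω → Prop} {w w' : Ω} (I : Ω → Prop) (hw : I w)
    (hstep : ∀ x y, I x → R x y → I y ∧ Adj (T.fl x) (T.fl y))
    (hI : ∀ x, I x → ∀ G ∈ T.fl w, G ∈ T.fl w' → G ∈ T.fl x)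
    (h : Relation.ReflTransGen R w w') :
    Relation.ReflTransGen (fun A B => Adj A B ∧
      ∀ G ∈ T.fl w, G ∈ T.fl w' → G ∈ A ∧ G ∈ B) (T.fl w) (T.fl w') := by
  have key : ∀ z, Relation.ReflTransGen R w z → I z ∧
      Relation.ReflTransGen (fun A B => Adj A B ∧
      ∀ G ∈ T.fl w, G ∈ T.fl w' → G ∈ A ∧ G ∈ B) (T.fl w) (T.fl z) := by
    intro z hz
    induction hz with
    | refl => exact ⟨hw, Relation.ReflTransGen.refl⟩
    | tail _ hbc ih =>
      rename_i y z _
      obtain ⟨h1, h2⟩ := hstep y z ih.1 hbc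
      exact ⟨h1, ih.2.tail ⟨h2, fun G hG hG' => ⟨hI y ih.1 G hG hG', hI z h1 G hG hG'⟩⟩⟩
  exact (key w' h).2

theorem connected (Φ Ψ : Flag (Face T)) :
    Relation.ReflTransGen (fun A B => Adj A B ∧ ∀ F ∈ Φ, F ∈ Ψ → F ∈ A ∧ F ∈ B) Φ Ψ := by
  obtain ⟨w, rfl⟩ := T.exists_fl Φ
  obtain ⟨w', rfl⟩ := T.exists_fl Ψ
  by_cases ha : T.a w = T.a w' <;> by_cases hb : T.b w = T.b w' <;> by_cases hc : T.c w = T.c w'
  · rcases T.u0 w w' hb.symm hc.symm with h | h
    · rw [h]
    · exact absurd ha (by rw [h]; exact (T.s0a w).symm)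
  · rcases T.u2 w w' ha.symm hb.symm with h | h
    · rw [h]
    · rw [h]; exact Relation.ReflTransGen.single ⟨T.adj2 w, fun G hG hG' => ⟨hG, hG'⟩⟩
  · rcases T.u1 w w' ha.symm hc.symm with h | h
    · rw [h]
    · rw [h]; exact Relation.ReflTransGen.single ⟨T.adj1 w, fun G hG hG' => ⟨hG, hG'⟩⟩
  · refine T.lift_path (fun x => T.a x = T.a w) rfl ?_ ?_ (T.connV w w' ha)
    · rintro x y hx (rfl | rfl)
      · exact ⟨(T.s1a x).trans hx, T.adj1 x⟩
      · exact ⟨(T.s2a x).trans hx, T.adj2 x⟩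
    · intro x hx G hG hG'
      rw [mem_fl] at *
      cases hG with
      | bot => exact Mem.bot
      | v => rw [mem_v]; exact hx
      | e => exact absurd (T.mem_e.1 hG').symm hb
      | f => exact absurd (T.mem_f.1 hG').symm hc
      | top => exact Mem.top
  · rcases T.u0 w w' hb.symm hc.symm with h | h
    · rw [h]
    · rw [h]; exact Relation.ReflTransGen.single ⟨T.adj0 w, fun G hG hG' => ⟨hG, hG'⟩⟩
  · refine T.lift_path (fun x => T.b x = T.b w) rfl ?_ ?_ (T.connE w w' hb)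
    · rintro x y hx (rfl | rfl)
      · exact ⟨(T.s0b x).trans hx, T.adj0 x⟩
      · exact ⟨(T.s2b x).trans hx, T.adj2 x⟩
    · intro x hx G hG hG'
      rw [mem_fl] at *
      cases hG with
      | bot => exact Mem.bot
      | v => exact absurd (T.mem_v.1 hG').symm ha
      | e => rw [mem_e]; exact hx
      | f => exact absurd (T.mem_f.1 hG').symm hc
      | top => exact Mem.top
  · refine T.lift_path (fun x => T.c x = T.c w) rfl ?_ ?_ (T.connF w w' hc)
    · rintro x y hx (rfl | rfl)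
      · exact ⟨(T.s0c x).trans hx, T.adj0 x⟩
      · exact ⟨(T.s1c x).trans hx, T.adj1 x⟩
    · intro x hx G hG hG'
      rw [mem_fl] at *
      cases hG with
      | bot => exact Mem.bot
      | v => exact absurd (T.mem_v.1 hG').symm ha
      | e => exact absurd (T.mem_e.1 hG').symm hb
      | f => rw [mem_f]; exact hx
      | top => exact Mem.top
  · refine T.lift_path (fun _ => True) trivial ?_ ?_ (T.conn w w')
    · rintro x y hx (rfl | rfl | rfl)
      · exact ⟨trivial, T.adj0 x⟩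
      · exact ⟨trivial, T.adj1 x⟩
      · exact ⟨trivial, T.adj2 x⟩
    · intro x hx G hG hG'
      rw [mem_fl] at *
      cases hG with
      | bot => exact Mem.bot
      | v => exact absurd (T.mem_v.1 hG').symm ha
      | e => exact absurd (T.mem_e.1 hG').symm hb
      | f => exact absurd (T.mem_f.1 hG').symm hc
      | top => exact Mem.top

theorem diamond (X Y : Face T) (h : X < Y) (hr : rk Y = rk X + 2) :
    {H : Face T | X < H ∧ H < Y}.ncard = 2 := by
  rw [Set.ncard_eq_two]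
  rw [lt_iff] at h
  obtain ⟨-, w, hX, hY⟩ := h
  cases hX with
  | bot =>
    cases hY with
    | e =>
      refine ⟨.v (T.a w), .v (T.a (T.s0 w)), fun h => T.s0a w (Face.v.inj h).symm, ?_⟩
      ext H
      simp only [Set.mem_ofPred_eq, Set.mem_insert_iff, Set.mem_singleton_iff]
      constructor
      · rintro ⟨h1, h2⟩
        rw [lt_iff] at h1 h2
        obtain ⟨h2, w', m1, m2⟩ := h2
        cases H with
        | v i =>
          rw [mem_v] at m1
          rw [mem_e] at m2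
          obtain ⟨t, t1, t2, t3⟩ := T.cross w' w m2
          rcases T.u0 w t (t2.trans m2) t3 with h | h
          · left; rw [← m1, ← t1, h]
          · right; rw [← m1, ← t1, h]
        | bot => exact absurd h1.1 (by simp [rk])
        | e => simp [rk] at h2
        | f => simp [rk] at h2
        | top => simp [rk] at h2
      · rintro (rfl | rfl)
        · rw [lt_iff, lt_iff]
          exact ⟨⟨by simp [rk], w, Mem.bot, Mem.v⟩, ⟨by simp [rk], w, Mem.v, Mem.e⟩⟩
        · rw [lt_iff, lt_iff]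
          exact ⟨⟨by simp [rk], T.s0 w, Mem.bot, Mem.v⟩,
            ⟨by simp [rk], T.s0 w, Mem.v, T.mem_e.2 (T.s0b w)⟩⟩
    | _ => simp [rk] at hr
  | v =>
    cases hY with
    | f =>
      refine ⟨.e (T.b w), .e (T.b (T.s1 w)), fun h => T.s1b w (Face.e.inj h).symm, ?_⟩
      ext H
      simp only [Set.mem_ofPred_eq, Set.mem_insert_iff, Set.mem_singleton_iff]
      constructor
      · rintro ⟨h1, h2⟩
        rw [lt_iff] at h1 h2
        obtain ⟨h1, w1, m1, m2⟩ := h1
        obtain ⟨h2, w2, n1, n2⟩ := h2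
        cases H with
        | e i =>
          rw [mem_v] at m1
          rw [mem_e] at m2 n1
          rw [mem_f] at n2
          obtain ⟨t, t1, t2, t3⟩ := T.cross w1 w2 (m2.trans n1.symm)
          rcases T.u1 w t (t1.trans m1) (t3.trans n2) with h | h
          · left; rw [← m2, ← t2, h]
          · right; rw [← m2, ← t2, h]
        | bot => simp [rk] at h1
        | v => simp [rk] at h1
        | f => simp [rk] at h2
        | top => simp [rk] at h2
      · rintro (rfl | rfl)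
        · rw [lt_iff, lt_iff]
          exact ⟨⟨by simp [rk], w, Mem.v, Mem.e⟩, ⟨by simp [rk], w, Mem.e, Mem.f⟩⟩
        · rw [lt_iff, lt_iff]
          exact ⟨⟨by simp [rk], T.s1 w, T.mem_v.2 (T.s1a w), Mem.e⟩,
            ⟨by simp [rk], T.s1 w, Mem.e, T.mem_f.2 (T.s1c w)⟩⟩
    | _ => simp [rk] at hr
  | e =>
    cases hY with
    | top =>
      refine ⟨.f (T.c w), .f (T.c (T.s2 w)), fun h => T.s2c w (Face.f.inj h).symm, ?_⟩
      ext H
      simp only [Set.mem_ofPred_eq, Set.mem_insert_iff, Set.mem_singleton_iff]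
      constructor
      · rintro ⟨h1, h2⟩
        rw [lt_iff] at h1 h2
        obtain ⟨h1, w', m1, m2⟩ := h1
        cases H with
        | f i =>
          rw [mem_e] at m1
          rw [mem_f] at m2
          obtain ⟨t, t1, t2, t3⟩ := T.cross w w' m1.symm
          rcases T.u2 w t t1 t2 with h | h
          · left; rw [← m2, ← t3, h]
          · right; rw [← m2, ← t3, h]
        | bot => simp [rk] at h1
        | e => simp [rk] at h1
        | v => simp [rk] at h1
        | top => exact absurd h2.1 (by simp [rk])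
      · rintro (rfl | rfl)
        · rw [lt_iff, lt_iff]
          exact ⟨⟨by simp [rk], w, Mem.e, Mem.f⟩, ⟨by simp [rk], w, Mem.f, Mem.top⟩⟩
        · rw [lt_iff, lt_iff]
          exact ⟨⟨by simp [rk], T.s2 w, T.mem_e.2 (T.s2b w), Mem.f⟩,
            ⟨by simp [rk], T.s2 w, Mem.f, Mem.top⟩⟩
    | _ => simp [rk] at hr
  | f => cases hY <;> simp [rk] at hr
  | top => cases hY <;> simp [rk] at hr

theorem flag_rank (Φ : Flag (Face T)) (i : ℤ) (h1 : -1 ≤ i) (h2 : i ≤ 3) :
    ∃! X, X ∈ Φ ∧ rk X = i := by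
  obtain ⟨w, rfl⟩ := T.exists_fl Φ
  have hex : ∃ X, T.Mem w X ∧ rk X = i := by
    have : i = -1 ∨ i = 0 ∨ i = 1 ∨ i = 2 ∨ i = 3 := by omega
    rcases this with rfl | rfl | rfl | rfl | rfl
    · exact ⟨.bot, Mem.bot, rfl⟩
    · exact ⟨_, Mem.v, rfl⟩
    · exact ⟨_, Mem.e, rfl⟩
    · exact ⟨_, Mem.f, rfl⟩
    · exact ⟨.top, Mem.top, rfl⟩
  obtain ⟨X, hX, hXi⟩ := hex
  exact ⟨X, ⟨hX, hXi⟩, fun Y hY => T.mem_eq_of_rk hY.1 hX (hY.2.trans hXi.symm)⟩

theorem isPolytope : IsPolytope 3 (rk : Face T → ℤ) where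
  strictMono := T.strictMono
  least := ⟨.bot, rfl, T.bot_le⟩
  greatest := ⟨.top, rfl, T.le_top⟩
  flag_rank := T.flag_rank
  connected := T.connected
  diamond := T.diamond

/-! ### Dualities -/

theorem inj {w w' : Ω} (ha : T.a w' = T.a w) (hb : T.b w' = T.b w) (hc : T.c w' = T.c w) :
    w' = w := by
  rcases T.u0 w w' hb hc with h | h
  · exact h
  · rw [h] at ha; exact absurd ha (T.s0a w)

theorem rk_bounds (x : Face T) : -1 ≤ rk x ∧ rk x ≤ 3 := by
  cases x <;> simp [rk]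

/-- An order reversing bijection maps flags to flags. -/
theorem dual_flag (δ : Face T → Face T) (hδ : ∀ x y, x ≤ y ↔ δ y ≤ δ x) (w : Ω) :
    ∃ w', δ (.v (T.a w)) = .f (T.c w') ∧ δ (.e (T.b w)) = .e (T.b w') ∧
      δ (.f (T.c w)) = .v (T.a w') := by
  have hlt : ∀ x y, x < y → δ y < δ x := by
    intro x y h
    rw [lt_iff_le_not_ge] at h ⊢
    exact ⟨(hδ x y).1 h.1, fun h' => h.2 ((hδ y x).2 h')⟩
  have h1 := hlt .bot (.v (T.a w)) (T.lt_iff.2 ⟨by simp [rk], w, Mem.bot, Mem.v⟩)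
  have h2 := hlt (.v (T.a w)) (.e (T.b w)) (T.lt_iff.2 ⟨by simp [rk], w, Mem.v, Mem.e⟩)
  have h3 := hlt (.e (T.b w)) (.f (T.c w)) (T.lt_iff.2 ⟨by simp [rk], w, Mem.e, Mem.f⟩)
  have h4 := hlt (.f (T.c w)) .top (T.lt_iff.2 ⟨by simp [rk], w, Mem.f, Mem.top⟩)
  have r1 := (T.lt_iff.1 h1).1
  have r2 := (T.lt_iff.1 h2).1
  have r3 := (T.lt_iff.1 h3).1
  have r4 := (T.lt_iff.1 h4).1
  have b1 := T.rk_bounds (δ .bot)
  have b2 := T.rk_bounds (δ .top)
  have e1 : rk (δ (.v (T.a w))) = 2 := by omega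
  have e2 : rk (δ (.e (T.b w))) = 1 := by omega
  have e3 : rk (δ (.f (T.c w))) = 0 := by omega
  have c1 : ∃ k, δ (.v (T.a w)) = .f k := by
    generalize δ (.v (T.a w)) = z at e1
    cases z <;> simp [rk] at e1 ⊢
  have c2 : ∃ k, δ (.e (T.b w)) = .e k := by
    generalize δ (.e (T.b w)) = z at e2
    cases z <;> simp [rk] at e2 ⊢
  have c3 : ∃ k, δ (.f (T.c w)) = .v k := by
    generalize δ (.f (T.c w)) = z at e3
    cases z <;> simp [rk] at e3 ⊢
  obtain ⟨k1, c1⟩ := c1
  obtain ⟨k2, c2⟩ := c2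
  obtain ⟨k3, c3⟩ := c3
  rw [c1, c2] at h2
  rw [c2, c3] at h3
  obtain ⟨-, w1, m1, m2⟩ := T.lt_iff.1 h2
  obtain ⟨-, w2, n1, n2⟩ := T.lt_iff.1 h3
  rw [mem_e] at m1 n2
  rw [mem_f] at m2
  rw [mem_v] at n1
  obtain ⟨t, t1, t2, t3⟩ := T.cross w2 w1 (n2.trans m1.symm)
  refine ⟨t, ?_, ?_, ?_⟩
  · rw [c1, t3, m2]
  · rw [c2, t2, n2]
  · rw [c3, t1, n1]

/-- The action of a letter. -/
def act (k : Fin 3) (w : Ω) : Ω := match k with
  | 0 => T.s0 w
  | 1 => T.s1 w
  | 2 => T.s2 w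

/-- The action of a word. -/
def word (l : List (Fin 3)) (w : Ω) : Ω := l.foldl (fun x k => T.act k x) w

theorem no_polarity (hcert : ∀ w : Ω, ∃ l : List (Fin 3),
    (T.word l T.w0 = w ∧ T.word (l.map fun k => 2 - k) w ≠ T.w0) ∨
    (T.word l T.w0 = T.w0 ∧ T.word (l.map fun k => 2 - k) w ≠ w))
    (δ : Face T → Face T) (hδ : ∀ x y, x ≤ y ↔ δ y ≤ δ x) : ∃ x, δ (δ x) ≠ x := by
  by_contra hcon
  push Not at hcon
  choose D h1 h2 h3 using T.dual_flag δ hδ
  have hinj : Function.Injective δ := fun x y h => by rw [← hcon x, h, hcon y]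
  have k0 : ∀ w, D (T.s0 w) = T.s2 (D w) := by
    intro w
    have e1 : T.a (D (T.s0 w)) = T.a (D w) := by
      have := h3 (T.s0 w)
      rw [T.s0c, h3 w] at this
      exact (Face.v.inj this).symm
    have e2 : T.b (D (T.s0 w)) = T.b (D w) := by
      have := h2 (T.s0 w)
      rw [T.s0b, h2 w] at this
      exact (Face.e.inj this).symm
    rcases T.u2 (D w) (D (T.s0 w)) e1 e2 with h | h
    · exfalso
      have := h1 (T.s0 w)
      rw [h, ← h1 w] at this
      exact T.s0a w (Face.v.inj (hinj this))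
    · exact h
  have k1 : ∀ w, D (T.s1 w) = T.s1 (D w) := by
    intro w
    have e1 : T.a (D (T.s1 w)) = T.a (D w) := by
      have := h3 (T.s1 w)
      rw [T.s1c, h3 w] at this
      exact (Face.v.inj this).symm
    have e2 : T.c (D (T.s1 w)) = T.c (D w) := by
      have := h1 (T.s1 w)
      rw [T.s1a, h1 w] at this
      exact (Face.f.inj this).symm
    rcases T.u1 (D w) (D (T.s1 w)) e1 e2 with h | h
    · exfalso
      have := h2 (T.s1 w)
      rw [h, ← h2 w] at this
      exact T.s1b w (Face.e.inj (hinj this))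
    · exact h
  have k2 : ∀ w, D (T.s2 w) = T.s0 (D w) := by
    intro w
    have e1 : T.b (D (T.s2 w)) = T.b (D w) := by
      have := h2 (T.s2 w)
      rw [T.s2b, h2 w] at this
      exact (Face.e.inj this).symm
    have e2 : T.c (D (T.s2 w)) = T.c (D w) := by
      have := h1 (T.s2 w)
      rw [T.s2a, h1 w] at this
      exact (Face.f.inj this).symm
    rcases T.u0 (D w) (D (T.s2 w)) e1 e2 with h | h
    · exfalso
      have := h3 (T.s2 w)
      rw [h, ← h3 w] at this
      exact T.s2c w (Face.f.inj (hinj this))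
    · exact h
  have kact : ∀ k w, D (T.act k w) = T.act (2 - k) (D w) := by
    intro k w
    fin_cases k
    · exact k0 w
    · exact k1 w
    · exact k2 w
  have kword : ∀ l w, D (T.word l w) = T.word (l.map fun k => 2 - k) (D w) := by
    intro l
    induction l with
    | nil => intro w; rfl
    | cons k l ih =>
      intro w
      change D (T.word l (T.act k w)) = T.word (l.map fun k => 2 - k) (T.act (2 - k) (D w))
      rw [ih, kact]
  have hDD : ∀ w, D (D w) = w := by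
    intro w
    apply T.inj
    · have e1 := h1 w
      have e3 := h3 (D w)
      rw [← e1, hcon] at e3
      exact (Face.v.inj e3).symm
    · have e1 := h2 w
      have e3 := h2 (D w)
      rw [← e1, hcon] at e3
      exact (Face.e.inj e3).symm
    · have e1 := h3 w
      have e3 := h1 (D w)
      rw [← e1, hcon] at e3
      exact (Face.f.inj e3).symm
  obtain ⟨l, hl⟩ := hcert (D T.w0)
  rcases hl with ⟨hl1, hl2⟩ | ⟨hl1, hl2⟩
  · apply hl2
    rw [← kword, hl1, hDD]
  · apply hl2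
    rw [← kword, hl1]

/-- The map given by a duality on vertices, edges and faces. -/
def dual {T : Data Ω V E F} (dV : V → F) (dE : E → E) (dF : F → V) : Face T → Face T
  | .bot => .top
  | .v x => .f (dV x)
  | .e x => .e (dE x)
  | .f x => .v (dF x)
  | .top => .bot

theorem dual_rev (D : Ω → Ω) (dV : V → F) (dE : E → E) (dF : F → V)
    (h1 : ∀ w, T.c (D w) = dV (T.a w)) (h2 : ∀ w, T.b (D w) = dE (T.b w))
    (h3 : ∀ w, T.a (D w) = dF (T.c w)) (x y : Face T) (h : x ≤ y) :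
    (dual dV dE dF y : Face T) ≤ dual dV dE dF x := by
  have hm : ∀ w x, T.Mem w x → T.Mem (D w) (dual dV dE dF x) := by
    intro w x hx
    cases hx with
    | bot => exact Mem.top
    | v => exact T.mem_f.2 (h1 w)
    | e => exact T.mem_e.2 (h2 w)
    | f => exact T.mem_v.2 (h3 w)
    | top => exact Mem.bot
  rw [le_iff] at h ⊢
  rcases h with rfl | ⟨h, w, m1, m2⟩
  · exact Or.inl rfl
  · refine Or.inr ⟨?_, D w, hm w y m2, hm w x m1⟩
    cases x <;> cases y <;> simp [rk, dual] at h ⊢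

theorem exists_duality (D : Ω → Ω) (dV : V → F) (dE : E → E) (dF : F → V)
    (h1 : ∀ w, T.c (D w) = dV (T.a w)) (h2 : ∀ w, T.b (D w) = dE (T.b w))
    (h3 : ∀ w, T.a (D w) = dF (T.c w))
    (i1 : ∀ x, dF (dV (dF (dV x))) = x) (i2 : ∀ x, dE (dE (dE (dE x))) = x)
    (i3 : ∀ x, dV (dF (dV (dF x))) = x) :
    ∃ δ : Face T ≃ Face T, (∀ x y, x ≤ y ↔ δ y ≤ δ x) := by
  have hrev := T.dual_rev D dV dE dF h1 h2 h3
  have h4 : ∀ x : Face T, dual dV dE dF (dual dV dE dF (dual dV dE dF (dual dV dE dF x))) = x := by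
    intro x
    cases x <;> simp [dual, i1, i2, i3]
  refine ⟨⟨dual dV dE dF, fun x => dual dV dE dF (dual dV dE dF (dual dV dE dF x)), h4, h4⟩,
    fun x y => ⟨hrev x y, fun h => ?_⟩⟩
  have e1 := hrev _ _ h
  have e2 := hrev _ _ e1
  have e3 := hrev _ _ e2
  simp only [Equiv.coe_fn_mk] at e3
  rwa [h4, h4] at e3

end Data

end Pool.Agent.R142.PolyBuild
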