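import Mathlib
import Pool.Agent.R142.Arr
import Pool.Agent.R142.Mag

/-!
# Four generic planes in `ℝ³` times coordinate hyperplanes
-/

set_option autoImplicit false

namespace Pool.Agent.R142.Prod4

open Pool.Agent.R142.Arr Pool.Agent.R142.Mag

/-- Index set of the hyperplanes. -/
abbrev Idx (m : ℕ) : Type := Fin 4 ⊕ Fin m

/-- Coordinates. -/
def co (m : ℕ) (k : Fin 3) : Fin (3 + m) := Fin.castAdd m k

/-- The four linear forms on `ℝ³`, pulled back. -/
noncomputable def g4 (m : ℕ) : Fin 4 → ((Fin (3 + m) → ℝ) →ₗ[ℝ] ℝ) :=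
  ![(LinearMap.proj (co m 0) : (Fin (3 + m) → ℝ) →ₗ[ℝ] ℝ),
    (LinearMap.proj (co m 1) : (Fin (3 + m) → ℝ) →ₗ[ℝ] ℝ),
    (LinearMap.proj (co m 2) : (Fin (3 + m) → ℝ) →ₗ[ℝ] ℝ),
    -((LinearMap.proj (co m 0) : (Fin (3 + m) → ℝ) →ₗ[ℝ] ℝ) +
      (LinearMap.proj (co m 1) : (Fin (3 + m) → ℝ) →ₗ[ℝ] ℝ) +
      (LinearMap.proj (co m 2) : (Fin (3 + m) → ℝ) →ₗ[ℝ] ℝ))]

/-- The linear forms. -/
noncomputable def f (m : ℕ) : Idx m → ((Fin (3 + m) → ℝ) →ₗ[ℝ] ℝ) :=
  Sum.elim (g4 m) fun j => (LinearMap.proj (Fin.natAdd 3 j) : (Fin (3 + m) → ℝ) →ₗ[ℝ] ℝ)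

/-- A point with given coordinates. -/
def pt {m : ℕ} (a : Fin 3 → ℝ) (b : Fin m → ℝ) : Fin (3 + m) → ℝ := Fin.append a b

theorem f_inr {m : ℕ} (a : Fin 3 → ℝ) (b : Fin m → ℝ) (j : Fin m) :
    f m (Sum.inr j) (pt a b) = b j := by
  simp [f, pt]

theorem f_inl {m : ℕ} (a : Fin 3 → ℝ) (b : Fin m → ℝ) (i : Fin 4) :
    f m (Sum.inl i) (pt a b) = (![a 0, a 1, a 2, -(a 0 + a 1 + a 2)] : Fin 4 → ℝ) i := by
  fin_cases i <;> simp [f, g4, pt, co]

theorem sum_zero (m : ℕ) (x : Fin (3 + m) → ℝ) : f m (Sum.inl 0) x + f m (Sum.inl 1) x +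
    f m (Sum.inl 2) x + f m (Sum.inl 3) x = 0 := by
  simp only [f, g4, Sum.elim_inl, Matrix.cons_val, LinearMap.neg_apply, LinearMap.add_apply,
    LinearMap.proj_apply]
  ring

/-- Points of `ℝ³` on exactly one of the four planes. -/
noncomputable def P (i : Fin 4) (k : Fin 3) : ℝ :=
  if i.1 = k.1 then 0 else if i.1 = 3 ∧ k.1 = 2 then -2 else 1

/-- A point on exactly one hyperplane. -/
noncomputable def v (m : ℕ) : Idx m → (Fin (3 + m) → ℝ) :=
  Sum.elim (fun i => pt (P i) (fun _ => 1))
    fun j => pt (fun _ => 1) (Function.update (fun _ => 1) j 0)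

theorem v_zero (m : ℕ) (i : Idx m) : f m i (v m i) = 0 := by
  rcases i with i | j
  · simp only [v, Sum.elim_inl]
    rw [f_inl]
    fin_cases i <;> norm_num [P]
  · simp only [v, Sum.elim_inr]
    rw [f_inr, Function.update_self]

theorem v_ne (m : ℕ) {i j : Idx m} (h : i ≠ j) : f m j (v m i) ≠ 0 := by
  rcases i with i | i <;> rcases j with j | j
  · simp only [v, Sum.elim_inl]
    rw [f_inl]
    fin_cases i <;> fin_cases j <;> first | exact absurd rfl h | norm_num [P]
  · simp only [v, Sum.elim_inl]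
    rw [f_inr]
    exact one_ne_zero
  · simp only [v, Sum.elim_inr]
    rw [f_inl]
    fin_cases j <;> norm_num
  · have hij : j ≠ i := fun h' => h (by rw [h'])
    simp only [v, Sum.elim_inr]
    rw [f_inr, Function.update_of_ne hij]
    exact one_ne_zero

theorem ker_inj (m : ℕ) : Function.Injective fun i => LinearMap.ker (f m i) := by
  intro i j h
  by_contra hij
  apply v_ne m hij
  have h1 : v m i ∈ LinearMap.ker (f m i) := v_zero m i
  have h2 : v m i ∈ LinearMap.ker (f m j) := by
    have h' : LinearMap.ker (f m i) = LinearMap.ker (f m j) := h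
    rw [← h']
    exact h1
  exact h2

theorem isArrangement (m : ℕ) : IsArrangement (arr (f m)) := by
  intro H hH
  obtain ⟨i, rfl⟩ := (mem_arr _).1 hH
  have hne : f m i ≠ 0 := by
    intro h0
    rcases i with i | j
    · have : (Sum.inl i : Idx m) ≠ Sum.inl (i + 1) := by
        intro h
        have h2 := Sum.inl_injective h
        revert h2
        fin_cases i <;> decide
      apply v_ne m this.symm
      rw [h0]
      rfl
    · have : (Sum.inl 0 : Idx m) ≠ Sum.inr j := by simp
      apply v_ne m this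
      rw [h0]
      rfl
  have h := Module.Dual.finrank_ker_add_one_of_ne_zero hne
  rw [h, Module.finrank_fin_fun]

theorem card_arr (m : ℕ) : (arr (f m)).card = 4 + m := by
  rw [arr, Finset.card_image_of_injective _ (ker_inj m), Finset.card_univ]
  simp

theorem rank_arr (m : ℕ) : rank (arr (f m)) = 3 + m := by
  have h : (⨅ H ∈ arr (f m), H : Submodule ℝ (Fin (3 + m) → ℝ)) = ⊥ := by
    rw [eq_bot_iff]
    intro x hx
    have hx' : ∀ i, f m i x = 0 := by
      intro i
      have h1 : x ∈ LinearMap.ker (f m i) := by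
        have h2 : (⨅ H ∈ arr (f m), H : Submodule ℝ (Fin (3 + m) → ℝ)) ≤ LinearMap.ker (f m i) :=
          iInf₂_le _ ((mem_arr _).2 ⟨i, rfl⟩)
        exact h2 hx
      exact h1
    rw [Submodule.mem_bot]
    funext k
    refine Fin.addCases (fun k => ?_) (fun j => ?_) k
    · fin_cases k
      · have := hx' (Sum.inl 0)
        simpa [f, g4, co] using this
      · have := hx' (Sum.inl 1)
        simpa [f, g4, co] using this
      · have := hx' (Sum.inl 2)
        simpa [f, g4, co] using this
    · have := hx' (Sum.inr j)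
      simpa [f] using this
  rw [rank, h]
  simp

/-- The sign vectors of the four planes which are realised. -/
def ok (t : Fin 4 → Bool) : Prop := (∃ i, t i = true) ∧ ∃ i, t i = false

instance : DecidablePred ok := fun t => by unfold ok; infer_instance

theorem mem_range (m : ℕ) (s : Idx m → Bool) :
    s ∈ Set.range (sgC (f m)) ↔ ok (s ∘ Sum.inl) := by
  rw [mem_range_iff]
  constructor
  · rintro ⟨x, hx⟩
    constructor
    · by_contra hne
      push Not at hne
      have h : ∀ i, f m (Sum.inl i) x < 0 := fun i =>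
        (hx (Sum.inl i)).2 (by simpa using hne i)
      linarith [sum_zero m x, h 0, h 1, h 2, h 3]
    · by_contra hne
      push Not at hne
      have h : ∀ i, 0 < f m (Sum.inl i) x := fun i =>
        (hx (Sum.inl i)).1 (by simpa using hne i)
      linarith [sum_zero m x, h 0, h 1, h 2, h 3]
  · rintro ⟨⟨i, hi⟩, ⟨j, hj⟩⟩
    let a : Fin 4 → ℝ := fun k => if s (Sum.inl k) = true then 1 else 0
    have ha0 : ∀ k, 0 ≤ a k := fun k => by
      simp only [a]
      split_ifs <;> norm_num
    have ha1 : ∀ k, a k ≤ 1 := fun k => by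
      simp only [a]
      split_ifs <;> norm_num
    have hi' : a i = 1 := if_pos hi
    have hj' : a j = 0 := if_neg (by simp only [Function.comp_apply] at hj; simp [hj])
    let N : ℝ := a 0 + a 1 + a 2 + a 3
    have hN0 : 0 < N := by
      have h0 := ha0 0; have h1 := ha0 1; have h2 := ha0 2; have h3 := ha0 3
      simp only [N]
      fin_cases i <;> simp only [Fin.mk_zero, Fin.mk_one, Fin.reduceFinMk] at hi' <;> linarith
    have hN4 : N < 4 := by
      have h0 := ha1 0; have h1 := ha1 1; have h2 := ha1 2; have h3 := ha1 3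
      simp only [N]
      fin_cases j <;> simp only [Fin.mk_zero, Fin.mk_one, Fin.reduceFinMk] at hj' <;> linarith
    refine ⟨pt ![4 * a 0 - N, 4 * a 1 - N, 4 * a 2 - N] (fun k => if s (Sum.inr k) = true then 1
      else -1), ?_⟩
    have key : ∀ k : Fin 4, f m (Sum.inl k) (pt ![4 * a 0 - N, 4 * a 1 - N, 4 * a 2 - N]
        (fun k => if s (Sum.inr k) = true then 1 else -1)) = 4 * a k - N := by
      intro k
      rw [f_inl]
      fin_cases k
      · simp
      · simp
      · simp
      · simp only [N, Fin.reduceFinMk, Matrix.cons_val]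
        ring
    rintro (k | k)
    · rw [key]
      constructor
      · intro h
        have : a k = 1 := if_pos h
        rw [this]
        linarith
      · intro h
        have : a k = 0 := if_neg (by simp [h])
        rw [this]
        linarith
    · rw [f_inr]
      constructor
      · intro h
        rw [if_pos h]
        norm_num
      · intro h
        rw [if_neg (by simp [h])]
        norm_num

theorem hd_split {m : ℕ} (s s' : Idx m → Bool) : hammingDist s s' =
    hammingDist (s ∘ Sum.inl) (s' ∘ Sum.inl) + hammingDist (s ∘ Sum.inr) (s' ∘ Sum.inr) := by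
  simp only [hammingDist, Finset.card_filter, Fintype.sum_sum_type]
  rfl

theorem hd_update {α : Type} [Fintype α] [DecidableEq α] (s s' : α → Bool) (i : α)
    (h : s i ≠ s' i) : hammingDist s (Function.update s i (s' i)) = 1 ∧
      hammingDist (Function.update s i (s' i)) s' + 1 = hammingDist s s' := by
  constructor
  · rw [hammingDist, Finset.card_eq_one]
    refine ⟨i, ?_⟩
    ext j
    simp only [Finset.mem_filter, Finset.mem_univ, true_and, Finset.mem_singleton]
    by_cases hj : j = i
    · subst hj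
      simp [h]
    · simp [hj]
  · have h2 : (Finset.univ.filter fun j => s j ≠ s' j) =
        insert i (Finset.univ.filter fun j => Function.update s i (s' i) j ≠ s' j) := by
      ext j
      simp only [Finset.mem_filter, Finset.mem_univ, true_and, Finset.mem_insert]
      by_cases hj : j = i
      · subst hj
        simp [h]
      · simp [hj]
    simp only [hammingDist]
    rw [h2, Finset.card_insert_of_notMem]
    simp

theorem step4 : ∀ t t' : Fin 4 → Bool, ok t → ok t' → t ≠ t' → ∃ i, t i ≠ t' i ∧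
    ok (Function.update t i (t' i)) := by
  decide +kernel

theorem dist_eq' (m : ℕ) (C D : Chamber (arr (f m))) :
    (topeGraph (arr (f m))).dist C D = hammingDist (sgC (f m) C) (sgC (f m) D) := by
  refine dist_eq (topeGraph (arr (f m))) (sgC (f m)) (sgC_injective _) (adj_iff _ (ker_inj m)) ?_ C D
  intro C D hne
  have hC := (mem_range m _).1 ⟨C, rfl⟩
  have hD := (mem_range m _).1 ⟨D, rfl⟩
  have hs : sgC (f m) C ≠ sgC (f m) D := fun h => hne (sgC_injective _ h)
  have key : ∃ i, sgC (f m) C i ≠ sgC (f m) D i ∧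
      ok (Function.update (sgC (f m) C) i (sgC (f m) D i) ∘ Sum.inl) := by
    by_cases hl : sgC (f m) C ∘ Sum.inl = sgC (f m) D ∘ Sum.inl
    · have : ∃ j, sgC (f m) C (Sum.inr j) ≠ sgC (f m) D (Sum.inr j) := by
        by_contra hno
        push Not at hno
        apply hs
        funext i
        rcases i with i | j
        · exact congrFun hl i
        · exact hno j
      obtain ⟨j, hj⟩ := this
      refine ⟨Sum.inr j, hj, ?_⟩
      have h2 : Function.update (sgC (f m) C) (Sum.inr j) (sgC (f m) D (Sum.inr j)) ∘ Sum.inl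
          = sgC (f m) C ∘ Sum.inl := by
        funext i
        simp
      rw [h2]
      exact hC
    · obtain ⟨i, hi1, hi2⟩ := step4 _ _ hC hD hl
      refine ⟨Sum.inl i, hi1, ?_⟩
      have h2 : Function.update (sgC (f m) C) (Sum.inl i) (sgC (f m) D (Sum.inl i)) ∘ Sum.inl
          = Function.update (sgC (f m) C ∘ Sum.inl) i ((sgC (f m) D ∘ Sum.inl) i) := by
        funext k
        by_cases hk : k = i
        · subst hk
          simp
        · simp [hk]
      rw [h2]
      exact hi2
  obtain ⟨i, hi, hok⟩ := key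
  obtain ⟨E, hE⟩ := (mem_range m _).2 hok
  refine ⟨E, ?_⟩
  rw [hE]
  exact hd_update _ _ i hi

/-- The number of positive signs. -/
def ntrue (t : Fin 4 → Bool) : ℕ := (Finset.univ.filter fun i => t i = true).card

/-- The type of a sign vector: `0` not realised, `1` triangular cone, `2` four-sided cone. -/
def ty (t : Fin 4 → Bool) : ℕ :=
  if ntrue t = 0 ∨ ntrue t = 4 then 0 else if ntrue t = 2 then 2 else 1

theorem ty_cases : ∀ t : Fin 4 → Bool, (¬ ok t ∧ ty t = 0) ∨ (ok t ∧ ty t = 1) ∨
    (ok t ∧ ty t = 2) := by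
  decide +kernel

theorem ms_one : ∀ t : Fin 4 → Bool, ty t = 1 →
    (Finset.univ : Finset (Fin 4 → Bool)).val.map (fun t' => (hammingDist t t', ty t')) =
      {(0, 1), (2, 1), (2, 1), (2, 1), (2, 1), (2, 1), (2, 1), (4, 1), (1, 2), (1, 2), (1, 2),
        (3, 2), (3, 2), (3, 2), (1, 0), (3, 0)} := by
  decide +kernel

theorem ms_two : ∀ t : Fin 4 → Bool, ty t = 2 →
    (Finset.univ : Finset (Fin 4 → Bool)).val.map (fun t' => (hammingDist t t', ty t')) =
      {(1, 1), (1, 1), (1, 1), (1, 1), (3, 1), (3, 1), (3, 1), (3, 1), (0, 2), (2, 2), (2, 2),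
        (2, 2), (2, 2), (4, 2), (2, 0), (2, 0)} := by
  decide +kernel

theorem ms_all :
    (Finset.univ : Finset (Fin 4 → Bool)).val.map ty =
      {1, 1, 1, 1, 1, 1, 1, 1, 2, 2, 2, 2, 2, 2, 0, 0} := by
  decide +kernel

/-- The variable. -/
noncomputable abbrev q : RatFunc ℚ := RatFunc.X

theorem one_add_ne (k : ℕ) (hk : k ≠ 0) : (1 + q ^ k : RatFunc ℚ) ≠ 0 := by
  have h : (1 + q ^ k : RatFunc ℚ) = algebraMap (Polynomial ℚ) (RatFunc ℚ) (1 + Polynomial.X ^ k) := by
    simp [q]
  rw [h]
  intro h0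
  have h1 := (map_eq_zero_iff _ (RatFunc.algebraMap_injective ℚ)).1 h0
  have h2 := congrArg (Polynomial.eval 0) h1
  simp [hk] at h2

/-- The weights. -/
noncomputable def W : ℕ → RatFunc ℚ
  | 1 => (1 - q + q ^ 2) / ((1 + q ^ 4) * (1 + q) ^ 2)
  | 2 => (1 - q) ^ 2 / ((1 + q ^ 4) * (1 + q) ^ 2)
  | _ => 0

theorem sum_W (t : Fin 4 → Bool) (ht : ok t) :
    ∑ t', q ^ hammingDist t t' * W (ty t') = 1 := by
  have h4 := one_add_ne 4 (by norm_num)
  have h1 := one_add_ne 1 (by norm_num)
  rw [pow_one] at h1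
  have key : ∑ t', q ^ hammingDist t t' * W (ty t') =
      (((Finset.univ : Finset (Fin 4 → Bool)).val.map
        (fun t' => (hammingDist t t', ty t'))).map (fun p => q ^ p.1 * W p.2)).sum := by
    rw [Multiset.map_map]
    rfl
  rw [key]
  rcases ty_cases t with h | h | h
  · exact absurd ht h.1
  · rw [ms_one t h.2]
    simp only [Multiset.insert_eq_cons, Multiset.map_cons, Multiset.map_singleton,
      Multiset.sum_cons, Multiset.sum_singleton, W]
    field_simp
    ring
  · rw [ms_two t h.2]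
    simp only [Multiset.insert_eq_cons, Multiset.map_cons, Multiset.map_singleton,
      Multiset.sum_cons, Multiset.sum_singleton, W]
    field_simp
    ring

theorem total_W : ∑ t', W (ty t') = (14 - 20 * q + 14 * q ^ 2) / ((1 + q ^ 4) * (1 + q) ^ 2) := by
  have h4 := one_add_ne 4 (by norm_num)
  have h1 := one_add_ne 1 (by norm_num)
  rw [pow_one] at h1
  have key : ∑ t', W (ty t') =
      (((Finset.univ : Finset (Fin 4 → Bool)).val.map ty).map W).sum := by
    rw [Multiset.map_map]
    rfl
  rw [key, ms_all]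
  simp only [Multiset.insert_eq_cons, Multiset.map_cons, Multiset.map_singleton,
      Multiset.sum_cons, Multiset.sum_singleton, W]
  field_simp
  ring

theorem sum_cube {m : ℕ} (u : Fin m → Bool) :
    ∑ u', q ^ hammingDist u u' = (1 + q) ^ m := by
  have h1 : ∀ u' : Fin m → Bool, q ^ hammingDist u u' = ∏ j, (if u j ≠ u' j then q else 1) := by
    intro u'
    rw [Finset.prod_ite, Finset.prod_const_one, mul_one, Finset.prod_const]
    rfl
  rw [Finset.sum_congr rfl fun u' _ => h1 u']
  have h2 := Finset.prod_univ_sum (fun _ : Fin m => (Finset.univ : Finset Bool))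
    (fun j b => if u j ≠ b then q else 1)
  rw [Fintype.piFinset_univ] at h2
  rw [← h2]
  have h3 : ∀ j : Fin m, ∑ b, (if u j ≠ b then q else 1) = 1 + q := by
    intro j
    rw [Fintype.sum_bool]
    cases u j
    · simp [add_comm]
    · simp
  rw [Finset.prod_congr rfl fun j _ => h3 j]
  simp

theorem sum_split {m : ℕ} (A : (Fin 4 → Bool) → RatFunc ℚ) (B : (Fin m → Bool) → RatFunc ℚ) :
    ∑ s : Idx m → Bool, A (s ∘ Sum.inl) * B (s ∘ Sum.inr) = (∑ t, A t) * ∑ u, B u := by
  rw [Finset.sum_mul_sum, ← Fintype.sum_prod_type']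
  exact Fintype.sum_equiv (Equiv.sumArrowEquivProdArrow _ _ _) _ _ fun s => rfl

instance finite_chamber (m : ℕ) : Finite (Chamber (arr (f m))) :=
  Finite.of_injective _ (sgC_injective (f m))

theorem sum_chamber (m : ℕ) [Fintype (Chamber (arr (f m)))] (F : (Idx m → Bool) → RatFunc ℚ)
    (hF : ∀ s, ¬ ok (s ∘ Sum.inl) → F s = 0) : ∑ D, F (sgC (f m) D) = ∑ s, F s := by
  refine Fintype.sum_of_injective (sgC (f m)) (sgC_injective _) _ _ ?_ fun _ => rfl
  intro s hs
  exact hF s fun h => hs ((mem_range m s).2 h)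

/-- The weighting of the tope graph. -/
noncomputable def w (m : ℕ) (D : Chamber (arr (f m))) : RatFunc ℚ :=
  W (ty (sgC (f m) D ∘ Sum.inl)) * (1 / (1 + q)) ^ m

theorem W_zero {t : Fin 4 → Bool} (h : ¬ ok t) : W (ty t) = 0 := by
  rcases ty_cases t with h' | h' | h'
  · rw [h'.2]
    rfl
  · exact absurd h'.1 h
  · exact absurd h'.1 h

theorem isWeighting (m : ℕ) [Fintype (Chamber (arr (f m)))] :
    IsWeighting (topeGraph (arr (f m))) (w m) := by
  intro C
  have h1 := one_add_ne 1 (by norm_num)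
  rw [pow_one] at h1
  have hF := sum_chamber m (fun s => (q ^ hammingDist (sgC (f m) C ∘ Sum.inl) (s ∘ Sum.inl) *
    W (ty (s ∘ Sum.inl))) * (q ^ hammingDist (sgC (f m) C ∘ Sum.inr) (s ∘ Sum.inr) *
      (1 / (1 + q)) ^ m)) (fun s hs => by rw [W_zero hs]; ring)
  rw [sum_split (fun t => q ^ hammingDist (sgC (f m) C ∘ Sum.inl) t * W (ty t))
    (fun u => q ^ hammingDist (sgC (f m) C ∘ Sum.inr) u * (1 / (1 + q)) ^ m),
    sum_W _ ((mem_range m _).1 ⟨C, rfl⟩), ← Finset.sum_mul, sum_cube, ← mul_pow,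
    mul_one_div_cancel h1, one_pow, mul_one] at hF
  rw [← hF]
  refine Finset.sum_congr rfl fun D _ => ?_
  rw [dist_eq', hd_split, pow_add, w]
  ring

theorem dist_zero (m : ℕ) (C D : Chamber (arr (f m)))
    (h : (topeGraph (arr (f m))).dist C D = 0) : C = D := by
  rw [dist_eq', hammingDist_eq_zero] at h
  exact sgC_injective _ h

theorem magnitude_value (m : ℕ) : magnitude (topeGraph (arr (f m))) =
    (2 ^ m * (14 - 20 * q + 14 * q ^ 2)) / ((1 + q ^ 4) * (1 + q) ^ (m + 2)) := by
  classical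
  let _ := Fintype.ofFinite (Chamber (arr (f m)))
  have h1 := one_add_ne 1 (by norm_num)
  rw [pow_one] at h1
  have h4 := one_add_ne 4 (by norm_num)
  rw [magnitude_eq (topeGraph (arr (f m))) (dist_zero m) (isWeighting m)]
  have hF := sum_chamber m (fun s => W (ty (s ∘ Sum.inl)) * (1 / (1 + q)) ^ m)
    (fun s hs => by rw [W_zero hs]; ring)
  have h2 : ∑ x, w m x = ∑ D, (fun s : Idx m → Bool => W (ty (s ∘ Sum.inl)) *
      (1 / (1 + q)) ^ m) (sgC (f m) D) := rfl
  rw [h2, hF, sum_split (fun t => W (ty t)) (fun _ : Fin m → Bool => (1 / (1 + q)) ^ m), total_W]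
  simp only [Finset.sum_const, Finset.card_univ, Fintype.card_fun, Fintype.card_bool,
    Fintype.card_fin, nsmul_eq_mul, Nat.cast_pow, Nat.cast_ofNat]
  rw [pow_add, one_div, inv_pow]
  field_simp

theorem not_transitive (m : ℕ) : ¬ VertexTransitive (topeGraph (arr (f m))) := by
  classical
  intro hvt
  let _ := Fintype.ofFinite (Chamber (arr (f m)))
  have h1 := one_add_ne 1 (by norm_num)
  rw [pow_one] at h1
  have h4 := one_add_ne 4 (by norm_num)
  obtain ⟨C, hC⟩ := (mem_range m (Sum.elim ![true, false, false, false] fun _ => true)).2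
    (by rw [Sum.elim_comp_inl]; decide)
  obtain ⟨D, hD⟩ := (mem_range m (Sum.elim ![true, true, false, false] fun _ => true)).2
    (by rw [Sum.elim_comp_inl]; decide)
  have h := weighting_const (topeGraph (arr (f m))) (dist_zero m) hvt (isWeighting m) C D
  rw [w, w, hC, hD, Sum.elim_comp_inl, Sum.elim_comp_inl] at h
  have hp : (1 / (1 + q)) ^ m ≠ 0 := pow_ne_zero _ (one_div_ne_zero h1)
  have h' := mul_right_cancel₀ hp h
  have e1 : ty ![true, false, false, false] = 1 := by decide
  have e2 : ty ![true, true, false, false] = 2 := by decide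
  rw [e1, e2] at h'
  simp only [W] at h'
  rw [div_left_inj' (mul_ne_zero h4 (pow_ne_zero 2 h1))] at h'
  have h5 : q = 0 := by linear_combination h'
  exact RatFunc.X_ne_zero h5

theorem not_dvd (m N : ℕ) (hN : ¬ N ∣ 8) (hN0 : N ≠ 0) :
    ¬ Polynomial.cyclotomic N ℚ ∣ (magnitude (topeGraph (arr (f m)))).denom := by
  intro h
  have hval : magnitude (topeGraph (arr (f m))) =
      algebraMap (Polynomial ℚ) (RatFunc ℚ)
        (2 ^ m * (14 - 20 * Polynomial.X + 14 * Polynomial.X ^ 2)) /
      algebraMap (Polynomial ℚ) (RatFunc ℚ)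
        ((1 + Polynomial.X ^ 4) * (1 + Polynomial.X) ^ (m + 2)) := by
    rw [magnitude_value]
    have e : ∀ k : ℕ, algebraMap (Polynomial ℚ) (RatFunc ℚ) (k : Polynomial ℚ) = (k : RatFunc ℚ) :=
      fun k => map_natCast _ k
    have e2 := e 2
    have e14 := e 14
    have e20 := e 20
    push_cast at e2 e14 e20
    simp [q, e2, e14, e20]
  rw [hval] at h
  have h2 := h.trans (RatFunc.denom_div_dvd _ _)
  obtain ⟨c, hc⟩ := h2
  have hζ := Complex.isPrimitiveRoot_exp N hN0
  set ζ := Complex.exp (2 * Real.pi * Complex.I / N)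
  have h3 : Polynomial.aeval ζ (Polynomial.cyclotomic N ℚ) = 0 := by
    have := hζ.isRoot_cyclotomic (Nat.pos_of_ne_zero hN0)
    rw [Polynomial.IsRoot.def, ← Polynomial.map_cyclotomic N (algebraMap ℚ ℂ),
      Polynomial.eval_map_algebraMap] at this
    exact this
  have h4 := congrArg (Polynomial.aeval ζ) hc
  rw [map_mul (Polynomial.aeval ζ) (Polynomial.cyclotomic N ℚ), h3, zero_mul] at h4
  simp only [map_mul, map_add, map_one, map_pow, Polynomial.aeval_X, mul_eq_zero] at h4
  apply hN
  apply hζ.dvd_of_pow_eq_one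
  rcases h4 with h4 | h4
  · have : ζ ^ 4 = -1 := by linear_combination h4
    calc ζ ^ 8 = (ζ ^ 4) ^ 2 := by ring
      _ = 1 := by rw [this]; norm_num
  · have h5 := pow_eq_zero_iff (by omega) |>.1 h4
    have : ζ = -1 := by linear_combination h5
    rw [this]
    norm_num

end Pool.Agent.R142.Prod4
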